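import Mathlib

/-!
# Shift of the line of integration and a residue formula
-/

set_option autoImplicit false

namespace Pool.Agent.ZP

open Complex MeasureTheory Filter Topology

/-- Shift of the line of integration. -/
theorem shift_line {f : ℂ → ℂ} {a b : ℝ} (hab : a ≤ b)
    (hd : ∀ z : ℂ, a ≤ z.re → z.re ≤ b → DifferentiableAt ℂ f z) (φ : ℝ → ℝ)
    (hφ : Tendsto φ atTop (𝓝 0))
    (hb : ∀ z : ℂ, a ≤ z.re → z.re ≤ b → 1 ≤ |z.im| → ‖f z‖ ≤ φ |z.im|)
    (h1 : Integrable fun t : ℝ => f (a + t * I)) (h2 : Integrable fun t : ℝ => f (b + t * I)) :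
    ∫ t : ℝ, f (a + t * I) = ∫ t : ℝ, f (b + t * I) := by
  have r : ∀ T : ℝ, (∫ x in a..b, f (x + (-T : ℝ) * I)) - (∫ x in a..b, f (x + (T : ℝ) * I)) +
      I • (∫ y in (-T)..T, f ((b : ℝ) + y * I)) - I • (∫ y in (-T)..T, f ((a : ℝ) + y * I)) = 0 := by
    intro T
    have := Complex.integral_boundary_rect_eq_zero_of_differentiableOn f
      (⟨a, -T⟩ : ℂ) (⟨b, T⟩ : ℂ) (by
        intro z hz
        rw [Complex.mem_reProdIm] at hz
        have h3 := hz.1
        rw [Set.uIcc_of_le (by simpa using hab)] at h3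
        exact (hd z h3.1 h3.2).differentiableWithinAt)
    simpa using this
  have t1 : Tendsto (fun T : ℝ => ∫ y in (-T)..T, f ((b : ℝ) + y * I)) atTop
      (𝓝 (∫ y : ℝ, f ((b : ℝ) + y * I))) :=
    intervalIntegral_tendsto_integral h2 tendsto_neg_atTop_atBot tendsto_id
  have t2 : Tendsto (fun T : ℝ => ∫ y in (-T)..T, f ((a : ℝ) + y * I)) atTop
      (𝓝 (∫ y : ℝ, f ((a : ℝ) + y * I))) :=
    intervalIntegral_tendsto_integral h1 tendsto_neg_atTop_atBot tendsto_id
  have hbb : ∀ T : ℝ, 1 ≤ T → ∀ s : ℝ, |s| = T → ‖∫ x in a..b, f (x + (s : ℝ) * I)‖ ≤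
      φ T * |b - a| := by
    intro T hT s hs
    refine intervalIntegral.norm_integral_le_of_norm_le_const ?_
    intro x hx
    rw [Set.uIoc_of_le hab] at hx
    have h3 := hb (x + s * I) (by simpa using hx.1.le) (by simpa using hx.2) (by simpa [hs] using hT)
    simpa [hs] using h3
  have hz : Tendsto (fun T : ℝ => φ T * |b - a|) atTop (𝓝 0) := by
    simpa using hφ.mul_const (|b - a|)
  have z1 : Tendsto (fun T : ℝ => ∫ x in a..b, f (x + (-T : ℝ) * I)) atTop (𝓝 0) := by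
    refine squeeze_zero_norm' ?_ hz
    filter_upwards [eventually_ge_atTop 1] with T hT
    exact hbb T hT (-T) (by rw [abs_neg, abs_of_nonneg (by linarith)])
  have z2 : Tendsto (fun T : ℝ => ∫ x in a..b, f (x + (T : ℝ) * I)) atTop (𝓝 0) := by
    refine squeeze_zero_norm' ?_ hz
    filter_upwards [eventually_ge_atTop 1] with T hT
    exact hbb T hT T (by rw [abs_of_nonneg (by linarith)])
  have lim := ((z1.sub z2).add (t1.const_smul I)).sub (t2.const_smul I)
  have lim0 : Tendsto (fun T : ℝ => (∫ x in a..b, f (x + (-T : ℝ) * I)) -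
      (∫ x in a..b, f (x + (T : ℝ) * I)) +
      I • (∫ y in (-T)..T, f ((b : ℝ) + y * I)) - I • (∫ y in (-T)..T, f ((a : ℝ) + y * I)))
      atTop (𝓝 0) := by
    refine tendsto_const_nhds.congr fun T => (r T).symm
  have e := tendsto_nhds_unique lim lim0
  have e' : I * ((∫ y : ℝ, f ((b : ℝ) + y * I)) - ∫ y : ℝ, f ((a : ℝ) + y * I)) = 0 := by
    rw [mul_sub]
    simpa [smul_eq_mul] using e
  have e'' := (mul_eq_zero.mp e').resolve_left I_ne_zero
  exact (sub_eq_zero.mp e'').symm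

theorem norm_exp_sq (x t : ℝ) :
    ‖cexp (((x : ℂ) + t * I) ^ 2)‖ = Real.exp (x ^ 2 - t ^ 2) := by
  rw [Complex.norm_exp]
  congr 1
  have : (((x : ℂ) + t * I) ^ 2) = ((x ^ 2 - t ^ 2 : ℝ) : ℂ) + ((2 * x * t : ℝ) : ℂ) * I := by
    push_cast
    ring_nf
    rw [I_sq]
    ring
  rw [this]
  simp only [add_re, ofReal_re, re_ofReal_mul, I_re, mul_zero, add_zero]

theorem norm_exp_sq' (z : ℂ) : ‖cexp (z ^ 2)‖ = Real.exp (z.re ^ 2 - z.im ^ 2) := by
  have := norm_exp_sq z.re z.im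
  rwa [re_add_im] at this

/-- `e ^ (C y - y ^ 2)` is bounded by a Gaussian. -/
theorem exp_lin_sq (C y : ℝ) : Real.exp (C * |y|) * Real.exp (-y ^ 2) ≤
    Real.exp (C ^ 2 / 2) * Real.exp (-y ^ 2 / 2) := by
  rw [← Real.exp_add, ← Real.exp_add]
  apply Real.exp_le_exp.mpr
  have h : y ^ 2 = |y| ^ 2 := (sq_abs y).symm
  rw [h]
  nlinarith [sq_nonneg (C - |y|)]

theorem integrable_gauss_half : Integrable fun t : ℝ => Real.exp (-t ^ 2 / 2) := by
  have := integrable_exp_neg_mul_sq (b := 1 / 2) (by norm_num)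
  refine this.congr (Eventually.of_forall fun t => ?_)
  simp only
  congr 1
  ring

theorem integral_gauss_line (x : ℝ) :
    ∫ v : ℝ, cexp (((x : ℂ) + v * I) ^ 2) = (Real.pi : ℂ) ^ (1 / 2 : ℂ) := by
  have h := fourierIntegral_gaussian (b := 1) (by norm_num) (2 * x)
  have e : ∀ v : ℝ, cexp (((x : ℂ) + v * I) ^ 2) =
      cexp ((x : ℂ) ^ 2) * (cexp (I * (2 * x) * v) * cexp (-1 * (v : ℂ) ^ 2)) := by
    intro v
    rw [← Complex.exp_add, ← Complex.exp_add]
    congr 1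
    ring_nf
    rw [I_sq]
    ring
  simp_rw [e]
  rw [integral_const_mul]
  rw [h]
  rw [mul_left_comm, ← Complex.exp_add]
  have : (x : ℂ) ^ 2 + -(2 * (x : ℂ)) ^ 2 / (4 * 1) = 0 := by ring
  rw [this]
  simp

end Pool.Agent.ZP
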