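import Pool.Agent.Lib_helper50.ZP.Shift

/-!
# The residue formula with the kernel `e ^ (w ^ 2) / w`
-/

set_option autoImplicit false

namespace Pool.Agent.ZP

open Complex MeasureTheory Filter Topology

theorem integrable_gauss_c (x : ℝ) : Integrable fun v : ℝ => cexp (((x : ℂ) + v * I) ^ 2) := by
  have h := integrable_exp_neg_mul_sq (b := 1) (by norm_num)
  refine (h.const_mul (Real.exp (x ^ 2))).mono' ?_ (Eventually.of_forall fun v => ?_)
  · exact (by fun_prop : Continuous fun v : ℝ => cexp (((x : ℂ) + v * I) ^ 2)).aestronglyMeasurable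
  · rw [norm_exp_sq, ← Real.exp_add]
    apply le_of_eq
    congr 1
    ring

theorem ne_zero_line {a : ℝ} (ha : a ≠ 0) (v : ℝ) : (a : ℂ) + v * I ≠ 0 := by
  intro h
  have := congrArg Complex.re h
  simp at this
  exact ha this

theorem ker_int {a : ℝ} (ha : 0 < a) :
    ∫ v : ℝ, cexp (((a : ℂ) + v * I) ^ 2) / ((a : ℂ) + v * I) = Real.pi := by
  set g : ℝ × ℝ → ℂ := fun p =>
    cexp (((a : ℂ) + p.2 * I) ^ 2) * cexp (-((a : ℂ) + p.2 * I) * p.1) with hg
  have hint : Integrable g ((volume.restrict (Set.Ioi 0)).prod volume) := by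
    have h1 : Integrable (fun x : ℝ => Real.exp (-a * x)) (volume.restrict (Set.Ioi 0)) :=
      integrableOn_exp_mul_Ioi (neg_lt_zero.2 ha) 0
    have h2 := (integrable_gauss_c a).norm
    have h3 := h1.mul_prod h2
    refine h3.mono' ?_ (Eventually.of_forall fun p => ?_)
    · exact (by fun_prop : Continuous g).aestronglyMeasurable
    · simp only [hg, norm_mul]
      rw [mul_comm (Real.exp _)]
      refine mul_le_mul_of_nonneg_left ?_ (norm_nonneg _)
      rw [Complex.norm_exp]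
      apply Real.exp_le_exp.mpr
      simp
  have h1 : ∀ v : ℝ, ∫ x in Set.Ioi (0 : ℝ), g (x, v) =
      cexp (((a : ℂ) + v * I) ^ 2) / ((a : ℂ) + v * I) := by
    intro v
    simp only [hg]
    rw [integral_const_mul, integral_exp_mul_complex_Ioi (by simpa using ha)]
    simp only [ofReal_zero, mul_zero, Complex.exp_zero]
    rw [neg_div_neg_eq, mul_one_div]
  have h2 : ∀ x : ℝ, ∫ v : ℝ, g (x, v) =
      cexp (-(1 / 4 : ℂ) * (x : ℂ) ^ 2) * (Real.pi : ℂ) ^ (1 / 2 : ℂ) := by
    intro x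
    have e : ∀ v : ℝ, g (x, v) = cexp (-(1 / 4 : ℂ) * (x : ℂ) ^ 2) *
        cexp ((((a - x / 2 : ℝ) : ℂ) + v * I) ^ 2) := by
      intro v
      simp only [hg]
      rw [← Complex.exp_add, ← Complex.exp_add]
      congr 1
      push_cast
      ring
    simp_rw [e]
    rw [integral_const_mul, integral_gauss_line]
  have h3 : ∫ v : ℝ, ∫ x in Set.Ioi (0 : ℝ), g (x, v) =
      ∫ x in Set.Ioi (0 : ℝ), ∫ v : ℝ, g (x, v) := by
    rw [integral_integral_swap]
    have := hint.swap
    exact this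
  simp_rw [h1, h2] at h3
  rw [h3, integral_mul_const, integral_gaussian_complex_Ioi (by norm_num)]
  have hpi : (0 : ℝ) < Real.pi := Real.pi_pos
  have e1 : ((Real.pi : ℂ) / (1 / 4)) ^ (1 / 2 : ℂ) = 2 * (Real.pi : ℂ) ^ (1 / 2 : ℂ) := by
    have : ((Real.pi : ℂ) / (1 / 4)) = ((4 : ℝ) : ℂ) * ((Real.pi : ℝ) : ℂ) := by
      push_cast; ring
    rw [this, Complex.mul_cpow_ofReal_nonneg (by norm_num) hpi.le]
    congr 1
    have h4 : ((4 : ℝ) : ℂ) = (2 : ℂ) ^ 2 := by norm_num
    rw [h4, ← Complex.cpow_natCast, ← Complex.cpow_mul]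
    · norm_num
    · simp only [Nat.cast_ofNat]
      rw [← Complex.ofReal_ofNat, ← Complex.ofReal_log (by norm_num)]
      have : 0 < Real.log 2 := Real.log_pos (by norm_num)
      simp only [← ofReal_mul, ofReal_im]
      linarith
    · simp only [Nat.cast_ofNat]
      rw [← Complex.ofReal_ofNat, ← Complex.ofReal_log (by norm_num)]
      simp only [← ofReal_mul, ofReal_im]
      exact hpi.le
  rw [e1]
  have e2 : (Real.pi : ℂ) ^ (1 / 2 : ℂ) * (Real.pi : ℂ) ^ (1 / 2 : ℂ) = Real.pi := by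
    rw [← Complex.cpow_add _ _ (by exact_mod_cast hpi.ne')]
    norm_num
  calc 2 * (Real.pi : ℂ) ^ (1 / 2 : ℂ) / 2 * (Real.pi : ℂ) ^ (1 / 2 : ℂ)
      = (Real.pi : ℂ) ^ (1 / 2 : ℂ) * (Real.pi : ℂ) ^ (1 / 2 : ℂ) := by ring
    _ = Real.pi := e2

theorem ker_int_neg {a : ℝ} (ha : 0 < a) :
    ∫ v : ℝ, cexp ((((-a : ℝ) : ℂ) + v * I) ^ 2) / (((-a : ℝ) : ℂ) + v * I) = -Real.pi := by
  have h := ker_int ha
  rw [← integral_neg_eq_self] at h
  have e : ∀ v : ℝ, cexp ((((-a : ℝ) : ℂ) + v * I) ^ 2) / (((-a : ℝ) : ℂ) + v * I) =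
      -(cexp (((a : ℂ) + ((-v : ℝ) : ℂ) * I) ^ 2) / ((a : ℂ) + ((-v : ℝ) : ℂ) * I)) := by
    intro v
    have e1 : (((-a : ℝ) : ℂ) + v * I) = -((a : ℂ) + ((-v : ℝ) : ℂ) * I) := by
      push_cast; ring
    rw [e1, neg_sq, div_neg]
  simp_rw [e]
  rw [integral_neg, h]

theorem integrable_of_growth {f : ℂ → ℂ} {a C : ℝ} (hc : Continuous fun v : ℝ => f (a + v * I))
    (hb : ∀ v : ℝ, ‖f (a + v * I)‖ ≤ C * Real.exp (C * |v|)) :
    Integrable fun v : ℝ => f (a + v * I) * cexp (((a : ℂ) + v * I) ^ 2) := by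
  have hC : 0 ≤ C := by
    have := (norm_nonneg _).trans (hb 0)
    simpa using this
  refine (integrable_gauss_half.const_mul
    (C * Real.exp (C ^ 2 / 2) * Real.exp (a ^ 2))).mono' ?_ (Eventually.of_forall fun v => ?_)
  · exact (hc.mul (by fun_prop)).aestronglyMeasurable
  · rw [norm_mul, norm_exp_sq]
    have h2 := exp_lin_sq C v
    calc ‖f (a + v * I)‖ * Real.exp (a ^ 2 - v ^ 2)
        ≤ (C * Real.exp (C * |v|)) * Real.exp (a ^ 2 - v ^ 2) :=
          mul_le_mul_of_nonneg_right (hb v) (Real.exp_pos _).le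
      _ = C * Real.exp (a ^ 2) * (Real.exp (C * |v|) * Real.exp (-v ^ 2)) := by
          rw [sub_eq_add_neg, Real.exp_add]
          ring
      _ ≤ C * Real.exp (a ^ 2) * (Real.exp (C ^ 2 / 2) * Real.exp (-v ^ 2 / 2)) :=
          mul_le_mul_of_nonneg_left h2 (by positivity)
      _ = _ := by ring

/-- The residue formula. -/
theorem residue_formula {F : ℂ → ℂ} {a C : ℝ} (ha : 0 < a)
    (hF : Differentiable ℂ F)
    (hb : ∀ w : ℂ, |w.re| ≤ a → ‖F w‖ ≤ C * Real.exp (C * |w.im|)) :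
    2 * Real.pi * F 0 =
      (∫ v : ℝ, F (a + v * I) * (cexp (((a : ℂ) + v * I) ^ 2) / ((a : ℂ) + v * I))) -
      ∫ v : ℝ, F (((-a : ℝ) : ℂ) + v * I) *
        (cexp ((((-a : ℝ) : ℂ) + v * I) ^ 2) / (((-a : ℝ) : ℂ) + v * I)) := by
  have hC : 0 ≤ C := by
    have := (norm_nonneg _).trans (hb 0 (by simpa using ha.le))
    simpa using this
  set g : ℂ → ℂ := dslope F 0 with hg
  have hgd : Differentiable ℂ g := by
    have := (Complex.differentiableOn_dslope (c := (0 : ℂ)) (s := Set.univ) (f := F)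
      Filter.univ_mem).2 hF.differentiableOn
    exact differentiableOn_univ.1 this
  have hg1 : ∀ w : ℂ, w ≠ 0 → g w = (F w - F 0) / w := by
    intro w hw
    rw [hg, dslope_of_ne F hw, slope_def_field, sub_zero]
  have hgb : ∀ w : ℂ, w ≠ 0 → |w.re| ≤ a → ‖g w‖ ≤ 2 * C * Real.exp (C * |w.im|) / ‖w‖ := by
    intro w hw h1
    rw [hg1 w hw, norm_div]
    refine div_le_div_of_nonneg_right ?_ (norm_nonneg _)
    have h2 := hb w h1
    have h3 := hb 0 (by simpa using ha.le)
    have h4 : (1 : ℝ) ≤ Real.exp (C * |w.im|) := Real.one_le_exp (by positivity)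
    simp only [zero_im, abs_zero, mul_zero, Real.exp_zero, mul_one] at h3
    calc ‖F w - F 0‖ ≤ ‖F w‖ + ‖F 0‖ := norm_sub_le _ _
      _ ≤ C * Real.exp (C * |w.im|) + C * Real.exp (C * |w.im|) := by
          refine add_le_add h2 (h3.trans ?_)
          nlinarith
      _ = _ := by ring
  set C' := max (2 * C / a) C with hC'
  have hCC : C ≤ C' := le_max_right _ _
  have hC0 : 0 ≤ C' := hC.trans hCC
  have key : ∀ x : ℝ, x ≠ 0 → |x| = a → Integrable fun v : ℝ => g (x + v * I) *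
      cexp (((x : ℂ) + v * I) ^ 2) := by
    intro x hx hxa
    refine integrable_of_growth (C := C') (hgd.continuous.comp (by fun_prop)) fun v => ?_
    have hne := ne_zero_line hx v
    refine (hgb _ hne (by simp [hxa])).trans ?_
    have h5 : a ≤ ‖(x : ℂ) + v * I‖ := by
      have := Complex.abs_re_le_norm ((x : ℂ) + v * I)
      simpa [hxa] using this
    have him : ((x : ℂ) + v * I).im = v := by simp
    rw [him]
    rw [div_le_iff₀ (lt_of_lt_of_le ha h5)]
    have h6 : 2 * C ≤ C' * a := by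
      have : 2 * C / a ≤ C' := le_max_left _ _
      rwa [div_le_iff₀ ha] at this
    have h7 : Real.exp (C * |v|) ≤ Real.exp (C' * |v|) :=
      Real.exp_le_exp.2 (mul_le_mul_of_nonneg_right hCC (abs_nonneg _))
    calc 2 * C * Real.exp (C * |v|) ≤ (C' * a) * Real.exp (C' * |v|) :=
          mul_le_mul h6 h7 (Real.exp_pos _).le (by positivity)
      _ ≤ (C' * ‖(x : ℂ) + v * I‖) * Real.exp (C' * |v|) := by gcongr
      _ = _ := by ring
  have hs : ∫ v : ℝ, (fun w => g w * cexp (w ^ 2)) (((-a : ℝ) : ℂ) + v * I) =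
      ∫ v : ℝ, (fun w => g w * cexp (w ^ 2)) ((a : ℂ) + v * I) := by
    refine shift_line (f := fun w => g w * cexp (w ^ 2)) (a := -a) (b := a) (by linarith) ?_
      (fun y => 2 * C * Real.exp (a ^ 2) * (Real.exp (C ^ 2 / 2) * Real.exp (-y ^ 2 / 2))) ?_ ?_ ?_ ?_
    · intro z _ _
      exact (hgd z).mul (by fun_prop)
    · have h1 : Tendsto (fun y : ℝ => Real.exp (-y ^ 2 / 2)) atTop (𝓝 0) := by
        refine Real.tendsto_exp_atBot.comp ?_
        refine Tendsto.atBot_div_const (by norm_num) ?_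
        exact tendsto_neg_atTop_atBot.comp (tendsto_pow_atTop two_ne_zero)
      have := (h1.const_mul (Real.exp (C ^ 2 / 2))).const_mul (2 * C * Real.exp (a ^ 2))
      simpa using this
    · intro z hz1 hz2 hz3
      have hre : |z.re| ≤ a := abs_le.2 ⟨hz1, hz2⟩
      have hn : 1 ≤ ‖z‖ := hz3.trans (Complex.abs_im_le_norm z)
      have hne : z ≠ 0 := by
        intro h
        rw [h, norm_zero] at hn
        linarith
      rw [norm_mul, norm_exp_sq']
      have h1 : ‖g z‖ ≤ 2 * C * Real.exp (C * |z.im|) := by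
        refine (hgb z hne hre).trans ?_
        exact div_le_self (by positivity) hn
      have h2 : Real.exp (z.re ^ 2 - z.im ^ 2) ≤ Real.exp (a ^ 2) * Real.exp (-z.im ^ 2) := by
        rw [← Real.exp_add]
        apply Real.exp_le_exp.2
        have : z.re ^ 2 ≤ a ^ 2 := sq_le_sq' hz1 hz2
        linarith
      calc ‖g z‖ * Real.exp (z.re ^ 2 - z.im ^ 2)
          ≤ (2 * C * Real.exp (C * |z.im|)) * (Real.exp (a ^ 2) * Real.exp (-z.im ^ 2)) :=
            mul_le_mul h1 h2 (Real.exp_pos _).le (by positivity)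
        _ = 2 * C * Real.exp (a ^ 2) * (Real.exp (C * |z.im|) * Real.exp (-z.im ^ 2)) := by ring
        _ ≤ 2 * C * Real.exp (a ^ 2) * (Real.exp (C ^ 2 / 2) * Real.exp (-z.im ^ 2 / 2)) :=
            mul_le_mul_of_nonneg_left (exp_lin_sq C z.im) (by positivity)
        _ = _ := by rw [sq_abs]
    · exact key (-a) (by linarith) (by rw [abs_neg, abs_of_pos ha])
    · exact key a ha.ne' (abs_of_pos ha)
  have hsplit : ∀ x : ℝ, x ≠ 0 → |x| = a → Integrable (fun v : ℝ => F 0 *
      (cexp (((x : ℂ) + v * I) ^ 2) / ((x : ℂ) + v * I))) ∧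
      ∀ v : ℝ, F (x + v * I) * (cexp (((x : ℂ) + v * I) ^ 2) / ((x : ℂ) + v * I)) =
        g (x + v * I) * cexp (((x : ℂ) + v * I) ^ 2) +
        F 0 * (cexp (((x : ℂ) + v * I) ^ 2) / ((x : ℂ) + v * I)) := by
    intro x hx hxa
    constructor
    · refine Integrable.const_mul ?_ _
      refine ((integrable_gauss_c x).norm.mul_const (1 / a)).mono' ?_
        (Eventually.of_forall fun v => ?_)
      · refine Continuous.aestronglyMeasurable ?_
        exact Continuous.div (by fun_prop) (by fun_prop) (ne_zero_line hx)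
      · rw [norm_div, mul_one_div]
        refine div_le_div_of_nonneg_left (norm_nonneg _) ha ?_
        have := Complex.abs_re_le_norm ((x : ℂ) + v * I)
        simpa [hxa] using this
    · intro v
      have hne := ne_zero_line hx v
      rw [hg1 _ hne]
      field_simp
      ring
  obtain ⟨i1, e1⟩ := hsplit a ha.ne' (abs_of_pos ha)
  obtain ⟨i2, e2⟩ := hsplit (-a) (by linarith) (by rw [abs_neg, abs_of_pos ha])
  simp_rw [e1, e2]
  rw [integral_add (key a ha.ne' (abs_of_pos ha)) i1,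
    integral_add (key (-a) (by linarith) (by rw [abs_neg, abs_of_pos ha])) i2,
    integral_const_mul, integral_const_mul, ker_int ha, ker_int_neg ha]
  simp only at hs
  rw [hs]
  ring

end Pool.Agent.ZP
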