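import Pool.Agent.Lib_helper50.ZP.Shift

/-!
# Mean value theorem for Dirichlet polynomials and absolutely convergent Dirichlet series
-/

set_option autoImplicit false

namespace Pool.Agent.ZP

open Complex MeasureTheory Filter Topology Finset

/-- `n ^ (- i t)` -/
noncomputable def en (n : ℕ) (t : ℝ) : ℂ := cexp (-((t * Real.log n : ℝ) : ℂ) * I)

theorem norm_en (n : ℕ) (t : ℝ) : ‖en n t‖ = 1 := by
  unfold en
  rw [← ofReal_neg, Complex.norm_exp_ofReal_mul_I]

theorem continuous_en (n : ℕ) : Continuous (en n) := by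
  unfold en
  fun_prop

theorem cpow_eq_en {n : ℕ} (hn : n ≠ 0) (σ t : ℝ) :
    (n : ℂ) ^ (-((σ : ℂ) + t * I)) = ((n : ℝ) ^ (-σ) : ℝ) * en n t := by
  have hn' : (n : ℂ) ≠ 0 := by exact_mod_cast hn
  have h1 : ((n : ℝ) ^ (-σ) : ℝ) = Real.exp (Real.log n * (-σ)) :=
    Real.rpow_def_of_pos (by exact_mod_cast Nat.pos_of_ne_zero hn) _
  unfold en
  rw [h1, Complex.cpow_def_of_ne_zero hn', ← Complex.natCast_log, Complex.ofReal_exp,
    ← Complex.exp_add]
  congr 1
  push_cast
  ring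

theorem gauss_ft {T : ℝ} (hT : 0 < T) (l : ℝ) :
    ‖∫ t : ℝ, ((Real.exp (-t ^ 2 / T ^ 2) : ℝ) : ℂ) * cexp (-((t * l : ℝ) : ℂ) * I)‖ =
      √Real.pi * T * Real.exp (-(T ^ 2 * l ^ 2) / 4) := by
  have h := fourierIntegral_gaussian (b := ((1 / T ^ 2 : ℝ) : ℂ)) (by
    simp only [ofReal_re]; positivity) (-(l : ℂ))
  have e : ∀ t : ℝ, ((Real.exp (-t ^ 2 / T ^ 2) : ℝ) : ℂ) * cexp (-((t * l : ℝ) : ℂ) * I) =
      cexp (I * -(l : ℂ) * t) * cexp (-((1 / T ^ 2 : ℝ) : ℂ) * (t : ℂ) ^ 2) := by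
    intro t
    rw [Complex.ofReal_exp, ← Complex.exp_add, ← Complex.exp_add]
    congr 1
    push_cast
    ring
  simp_rw [e]
  rw [h, norm_mul]
  have hpi : (0 : ℝ) < Real.pi := Real.pi_pos
  congr 1
  · have e1 : (Real.pi : ℂ) / ((1 / T ^ 2 : ℝ) : ℂ) = ((Real.pi * T ^ 2 : ℝ) : ℂ) := by
      push_cast
      field_simp
    rw [e1, Complex.norm_cpow_eq_rpow_re_of_pos (by positivity)]
    have e2 : ((1 / 2 : ℂ)).re = 1 / 2 := by norm_num
    rw [e2, ← Real.sqrt_eq_rpow, Real.sqrt_mul hpi.le, Real.sqrt_sq hT.le]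
  · rw [Complex.norm_exp]
    congr 1
    have e3 : -(-(l : ℂ)) ^ 2 / (4 * ((1 / T ^ 2 : ℝ) : ℂ)) = ((-(T ^ 2 * l ^ 2) / 4 : ℝ) : ℂ) := by
      push_cast
      field_simp
    rw [e3, ofReal_re]

/-- the constant in the kernel bound -/
noncomputable def C0 : ℝ := 4 + 8 * Real.exp 8

theorem C0_pos : 0 < C0 := by
  unfold C0
  positivity

theorem ker_bound_aux {y L : ℝ} (hy : L ^ 2 ≤ y) :
    1 + y * Real.exp L ^ 2 ≤ C0 * Real.exp (y / 4) := by
  have hy0 : 0 ≤ y := (sq_nonneg L).trans hy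
  have h1 : Real.exp L ^ 2 ≤ Real.exp 8 * Real.exp (y / 8) := by
    rw [← Real.exp_nat_mul, ← Real.exp_add]
    apply Real.exp_le_exp.2
    push_cast
    nlinarith [sq_nonneg (L - 8)]
  have h2 : y ≤ 8 * Real.exp (y / 8) := by
    have := Real.add_one_le_exp (y / 8)
    linarith
  have h3 : (1 : ℝ) ≤ Real.exp (y / 4) := Real.one_le_exp (by positivity)
  have h4 : y * Real.exp L ^ 2 ≤ (8 * Real.exp (y / 8)) * (Real.exp 8 * Real.exp (y / 8)) :=
    mul_le_mul h2 h1 (by positivity) (by positivity)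
  have h5 : Real.exp (y / 8) * Real.exp (y / 8) = Real.exp (y / 4) := by
    rw [← Real.exp_add]
    congr 1
    ring
  have h6 : (8 * Real.exp (y / 8)) * (Real.exp 8 * Real.exp (y / 8)) =
      8 * Real.exp 8 * Real.exp (y / 4) := by
    rw [← h5]
    ring
  unfold C0
  nlinarith

theorem ker_bound {T : ℝ} (hT : 1 ≤ T) {m n : ℕ} (hm : 1 ≤ m) (hn : 1 ≤ n) :
    Real.exp (-(T ^ 2 * (Real.log m - Real.log n) ^ 2) / 4) ≤
      C0 * (1 / (1 + (T / m * |(n : ℝ) - m|) ^ 2)) := by
  have hm0 : (0 : ℝ) < m := by exact_mod_cast hm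
  have hn0 : (0 : ℝ) < n := by exact_mod_cast hn
  set y := T ^ 2 * (Real.log m - Real.log n) ^ 2 with hy
  have hy0 : 0 ≤ y := by positivity
  have key : 1 + (T / m * |(n : ℝ) - m|) ^ 2 ≤ C0 * Real.exp (y / 4) := by
    rcases le_total (m : ℝ) n with h | h
    · set L := Real.log n - Real.log m with hL
      have hL0 : 0 ≤ L := sub_nonneg.2 (Real.log_le_log hm0 h)
      have e1 : Real.exp L = n / m := by
        rw [hL, Real.exp_sub, Real.exp_log hn0, Real.exp_log hm0]
      have h1 : T / m * |(n : ℝ) - m| ≤ T * (L * Real.exp L) := by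
        rw [abs_of_nonneg (sub_nonneg.2 h)]
        have h2 : ((n : ℝ) - m) / m = Real.exp L - 1 := by
          rw [e1]
          field_simp
        have h3 : Real.exp L - 1 ≤ L * Real.exp L := by
          have := Real.add_one_le_exp (-L)
          have h4 : Real.exp (-L) * Real.exp L = 1 := by
            rw [← Real.exp_add]; simp
          nlinarith [Real.exp_pos L]
        calc T / m * ((n : ℝ) - m) = T * (((n : ℝ) - m) / m) := by ring
          _ ≤ T * (L * Real.exp L) := by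
            rw [h2]
            exact mul_le_mul_of_nonneg_left h3 (by linarith)
      have h5 : (T / m * |(n : ℝ) - m|) ^ 2 ≤ (T * (L * Real.exp L)) ^ 2 :=
        pow_le_pow_left₀ (by positivity) h1 2
      have h6 := ker_bound_aux (y := y) (L := L) (by
        rw [hy]
        have : (Real.log m - Real.log n) ^ 2 = L ^ 2 := by rw [hL]; ring
        rw [this]
        nlinarith [sq_nonneg L, one_le_pow₀ (n := 2) hT])
      refine le_trans ?_ h6
      have h7 : (T * (L * Real.exp L)) ^ 2 = y * Real.exp L ^ 2 := by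
        rw [hy, hL]; ring
      linarith
    · have h1 : (T / m * |(n : ℝ) - m|) ^ 2 ≤ y := by
        rw [hy, abs_of_nonpos (sub_nonpos.2 h)]
        have h2 : (m - n) / m ≤ Real.log m - Real.log n := by
          rw [← Real.log_div hm0.ne' hn0.ne']
          have := Real.one_sub_inv_le_log_of_pos (div_pos hm0 hn0)
          rw [inv_div] at this
          calc ((m : ℝ) - n) / m = 1 - n / m := by field_simp
            _ ≤ _ := this
        have h3 : 0 ≤ (m - n : ℝ) / m := div_nonneg (sub_nonneg.2 h) hm0.le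
        have h4 := pow_le_pow_left₀ h3 h2 2
        calc (T / m * -((n : ℝ) - m)) ^ 2 = T ^ 2 * ((m - n) / m) ^ 2 := by ring
          _ ≤ _ := mul_le_mul_of_nonneg_left h4 (by positivity)
      have h2 : y / 4 + 1 ≤ Real.exp (y / 4) := Real.add_one_le_exp _
      have h3 : (0 : ℝ) < Real.exp 8 := Real.exp_pos _
      have h4 : 4 * Real.exp (y / 4) ≤ C0 * Real.exp (y / 4) := by
        apply mul_le_mul_of_nonneg_right _ (Real.exp_pos _).le
        unfold C0
        linarith
      linarith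
  rw [mul_one_div, le_div_iff₀ (by positivity)]
  have e : -(y) / 4 = -(y / 4) := by ring
  rw [e, Real.exp_neg, inv_mul_le_iff₀ (Real.exp_pos _)]
  linarith

theorem sum_h {b : ℝ} (hb : 0 < b) (K : ℕ) :
    ∑ k ∈ range K, 1 / (1 + (b * (k : ℝ)) ^ 2) ≤ 1 + 2 / b := by
  suffices h : ∑ k ∈ range K, 1 / (1 + (b * (k : ℝ)) ^ 2) ≤
      1 + 2 / b * (1 - 1 / (1 + b * ((K : ℝ) - 1) )) ∨ K = 0 by
    rcases h with h | h
    · by_cases hK : K = 0
      · subst hK
        simp
        positivity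
      · refine h.trans ?_
        have h1 : (1 : ℝ) ≤ K := by exact_mod_cast Nat.one_le_iff_ne_zero.2 hK
        have h2 : 0 ≤ 1 / (1 + b * ((K : ℝ) - 1)) := by
          have : 0 ≤ b * ((K : ℝ) - 1) := mul_nonneg hb.le (by linarith)
          positivity
        have h3 : 0 < 2 / b := by positivity
        nlinarith
    · subst h
      simp
      positivity
  induction K with
  | zero => right; rfl
  | succ K ih =>
    left
    rw [sum_range_succ]
    by_cases hK : K = 0
    · subst hK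
      simp
    · have ih' := ih.resolve_right hK
      have h1 : (1 : ℝ) ≤ K := by exact_mod_cast Nat.one_le_iff_ne_zero.2 hK
      have hx : 0 < 1 + b * ((K : ℝ) - 1) := by
        have : 0 ≤ b * ((K : ℝ) - 1) := mul_nonneg hb.le (by linarith)
        linarith
      have hy : 0 < 1 + b * (K : ℝ) := by positivity
      have h2 : 1 / (1 + (b * (K : ℝ)) ^ 2) ≤
          2 / b * (1 / (1 + b * ((K : ℝ) - 1)) - 1 / (1 + b * (K : ℝ))) := by
        have e : 2 / b * (1 / (1 + b * ((K : ℝ) - 1)) - 1 / (1 + b * (K : ℝ))) =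
            2 / ((1 + b * ((K : ℝ) - 1)) * (1 + b * (K : ℝ))) := by
          field_simp
          ring
        rw [e, div_le_div_iff₀ (by positivity) (by positivity)]
        nlinarith [sq_nonneg (b * (K : ℝ) - 1), mul_pos hb hy]
      push_cast
      have e2 : (K : ℝ) + 1 - 1 = K := by ring
      rw [e2]
      have h3 : 2 / b * (1 / (1 + b * ((K : ℝ) - 1)) - 1 / (1 + b * (K : ℝ))) =
          2 / b * (1 - 1 / (1 + b * (K : ℝ))) - 2 / b * (1 - 1 / (1 + b * ((K : ℝ) - 1))) := by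
        ring
      rw [h3] at h2
      linarith

theorem sum_abs {b : ℝ} (hb : 0 < b) (S : Finset ℕ) (m : ℕ) :
    ∑ n ∈ S, 1 / (1 + (b * |(n : ℝ) - m|) ^ 2) ≤ 2 * (1 + 2 / b) := by
  classical
  obtain ⟨K, hK⟩ : ∃ K, ∀ n ∈ S, n < K := ⟨S.sup id + 1, fun n hn =>
    Nat.lt_succ_of_le (le_sup (f := id) hn)⟩
  rw [← sum_filter_add_sum_filter_not S (fun n => n ≤ m)]
  have hpos : ∀ k : ℕ, 0 ≤ 1 / (1 + (b * (k : ℝ)) ^ 2) := fun k => by positivity
  have h1 : ∑ n ∈ S.filter (fun n => n ≤ m), 1 / (1 + (b * |(n : ℝ) - m|) ^ 2) ≤ 1 + 2 / b := by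
    refine le_trans ?_ (sum_h hb (m + 1))
    have e : ∑ n ∈ S.filter (fun n => n ≤ m), 1 / (1 + (b * |(n : ℝ) - m|) ^ 2) =
        ∑ k ∈ (S.filter (fun n => n ≤ m)).image (fun n => m - n),
          1 / (1 + (b * (k : ℝ)) ^ 2) := by
      rw [sum_image]
      · refine sum_congr rfl fun n hn => ?_
        rw [mem_filter] at hn
        have h2 : ((m - n : ℕ) : ℝ) = m - n := Nat.cast_sub hn.2
        rw [h2, abs_sub_comm, abs_of_nonneg]
        exact sub_nonneg.2 (by exact_mod_cast hn.2)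
      · intro x hx y hy h
        simp only [coe_filter, Set.mem_ofPred_eq] at hx hy h
        omega
    rw [e]
    refine sum_le_sum_of_subset_of_nonneg ?_ fun k _ _ => hpos k
    intro k hk
    rw [mem_image] at hk
    obtain ⟨n, _, rfl⟩ := hk
    rw [mem_range]
    omega
  have h2 : ∑ n ∈ S.filter (fun n => ¬ n ≤ m), 1 / (1 + (b * |(n : ℝ) - m|) ^ 2) ≤ 1 + 2 / b := by
    refine le_trans ?_ (sum_h hb K)
    have e : ∑ n ∈ S.filter (fun n => ¬ n ≤ m), 1 / (1 + (b * |(n : ℝ) - m|) ^ 2) =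
        ∑ k ∈ (S.filter (fun n => ¬ n ≤ m)).image (fun n => n - m),
          1 / (1 + (b * (k : ℝ)) ^ 2) := by
      rw [sum_image]
      · refine sum_congr rfl fun n hn => ?_
        rw [mem_filter] at hn
        have h3 : m ≤ n := by omega
        have h2 : ((n - m : ℕ) : ℝ) = n - m := Nat.cast_sub h3
        rw [h2, abs_of_nonneg]
        exact sub_nonneg.2 (by exact_mod_cast h3)
      · intro x hx y hy h
        simp only [coe_filter, Set.mem_ofPred_eq] at hx hy h
        omega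
    rw [e]
    refine sum_le_sum_of_subset_of_nonneg ?_ fun k _ _ => hpos k
    intro k hk
    rw [mem_image] at hk
    obtain ⟨n, hn, rfl⟩ := hk
    rw [mem_range]
    have := hK n (mem_filter.1 hn).1
    omega
  linarith

theorem integrable_gaussT {T : ℝ} (hT : 0 < T) :
    Integrable fun t : ℝ => Real.exp (-t ^ 2 / T ^ 2) := by
  have := integrable_exp_neg_mul_sq (b := 1 / T ^ 2) (by positivity)
  refine this.congr (Eventually.of_forall fun t => ?_)
  simp only
  congr 1
  ring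

/-- the constant in the mean value theorem -/
noncomputable def C1 : ℝ := 4 * Real.exp 1 * √Real.pi * C0

theorem C1_pos : 0 < C1 := by
  unfold C1
  have := C0_pos
  have := Real.pi_pos
  positivity

/-- the mean value theorem for Dirichlet polynomials -/
theorem mvt_finset {T : ℝ} (hT : 1 ≤ T) (S : Finset ℕ) (hS : ∀ n ∈ S, 1 ≤ n) (a : ℕ → ℂ) :
    ∫ t in (-T)..T, ‖∑ n ∈ S, a n * en n t‖ ^ 2 ≤ C1 * ∑ n ∈ S, (T + n) * ‖a n‖ ^ 2 := by
  have hT0 : 0 < T := by linarith
  set f : ℝ → ℂ := fun t => ∑ n ∈ S, a n * en n t with hf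
  have hfc : Continuous f := by
    rw [hf]
    exact continuous_finsetSum _ fun n _ => continuous_const.mul (continuous_en n)
  have hfb : ∀ t, ‖f t‖ ≤ ∑ n ∈ S, ‖a n‖ := by
    intro t
    refine (norm_sum_le _ _).trans (sum_le_sum fun n _ => ?_)
    rw [norm_mul, norm_en, mul_one]
  have hint : Integrable fun t : ℝ => Real.exp (-t ^ 2 / T ^ 2) * ‖f t‖ ^ 2 := by
    refine (integrable_gaussT hT0).mul_bdd (c := (∑ n ∈ S, ‖a n‖) ^ 2) ?_ ?_
    · exact (hfc.norm.pow 2).aestronglyMeasurable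
    · refine Eventually.of_forall fun t => ?_
      rw [Real.norm_of_nonneg (by positivity)]
      exact pow_le_pow_left₀ (norm_nonneg _) (hfb t) 2
  -- step 1: smooth weight
  have s1 : ∫ t in (-T)..T, ‖f t‖ ^ 2 ≤
      Real.exp 1 * ∫ t : ℝ, Real.exp (-t ^ 2 / T ^ 2) * ‖f t‖ ^ 2 := by
    rw [intervalIntegral.integral_of_le (by linarith), ← integral_const_mul]
    refine le_trans ?_ (setIntegral_le_integral (s := Set.Ioc (-T) T) (hint.const_mul _)
      (Eventually.of_forall fun t => by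
        simp only [Pi.zero_apply]
        positivity))
    refine setIntegral_mono_on ?_ (hint.const_mul _).integrableOn measurableSet_Ioc ?_
    · exact ((hfc.norm.pow 2).integrableOn_Icc (a := -T) (b := T)).mono_set Set.Ioc_subset_Icc_self
    · intro t ht
      have h1 : t ^ 2 ≤ T ^ 2 := sq_le_sq' ht.1.le ht.2
      have h2 : (1 : ℝ) ≤ Real.exp 1 * Real.exp (-t ^ 2 / T ^ 2) := by
        rw [← Real.exp_add]
        apply Real.one_le_exp
        have : t ^ 2 / T ^ 2 ≤ 1 := (div_le_one (by positivity)).2 h1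
        have h3 : -t ^ 2 / T ^ 2 = -(t ^ 2 / T ^ 2) := by ring
        linarith
      have h3 : 0 ≤ ‖f t‖ ^ 2 := by positivity
      calc ‖f t‖ ^ 2 = 1 * ‖f t‖ ^ 2 := (one_mul _).symm
        _ ≤ (Real.exp 1 * Real.exp (-t ^ 2 / T ^ 2)) * ‖f t‖ ^ 2 :=
          mul_le_mul_of_nonneg_right h2 h3
        _ = _ := by ring
  -- step 2: expand
  have s2 : ∫ t : ℝ, Real.exp (-t ^ 2 / T ^ 2) * ‖f t‖ ^ 2 ≤
      ∑ m ∈ S, ∑ n ∈ S, ‖a m‖ * ‖a n‖ *
        (√Real.pi * T * Real.exp (-(T ^ 2 * (Real.log m - Real.log n) ^ 2) / 4)) := by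
    have e1 : ∀ t : ℝ, ((Real.exp (-t ^ 2 / T ^ 2) * ‖f t‖ ^ 2 : ℝ) : ℂ) =
        ∑ m ∈ S, ∑ n ∈ S, a m * starRingEnd ℂ (a n) *
          (((Real.exp (-t ^ 2 / T ^ 2) : ℝ) : ℂ) *
            cexp (-((t * (Real.log m - Real.log n) : ℝ) : ℂ) * I)) := by
      intro t
      have h1 : ((‖f t‖ ^ 2 : ℝ) : ℂ) = f t * starRingEnd ℂ (f t) := by
        rw [Complex.mul_conj, Complex.normSq_eq_norm_sq]
      rw [ofReal_mul, h1, hf]
      simp only
      rw [map_sum, sum_mul_sum, mul_sum]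
      refine sum_congr rfl fun m _ => ?_
      rw [mul_sum]
      refine sum_congr rfl fun n _ => ?_
      rw [map_mul]
      have h2 : en m t * starRingEnd ℂ (en n t) =
          cexp (-((t * (Real.log m - Real.log n) : ℝ) : ℂ) * I) := by
        unfold en
        rw [← Complex.exp_conj, ← Complex.exp_add]
        congr 1
        simp only [map_mul, map_neg, conj_ofReal, conj_I]
        push_cast
        ring
      rw [← h2]
      ring
    have hint2 : ∀ m n : ℕ, Integrable fun t : ℝ => ((Real.exp (-t ^ 2 / T ^ 2) : ℝ) : ℂ) *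
        cexp (-((t * (Real.log m - Real.log n) : ℝ) : ℂ) * I) := by
      intro m n
      refine (integrable_gaussT hT0).ofReal.mul_bdd (c := 1) ?_ (Eventually.of_forall fun t => ?_)
      · exact (by fun_prop : Continuous fun t : ℝ =>
          cexp (-((t * (Real.log m - Real.log n) : ℝ) : ℂ) * I)).aestronglyMeasurable
      · rw [← ofReal_neg, Complex.norm_exp_ofReal_mul_I]
    have e2 : ((∫ t : ℝ, Real.exp (-t ^ 2 / T ^ 2) * ‖f t‖ ^ 2 : ℝ) : ℂ) =
        ∑ m ∈ S, ∑ n ∈ S, a m * starRingEnd ℂ (a n) *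
          ∫ t : ℝ, (((Real.exp (-t ^ 2 / T ^ 2) : ℝ) : ℂ) *
            cexp (-((t * (Real.log m - Real.log n) : ℝ) : ℂ) * I)) := by
      rw [← integral_complex_ofReal]
      simp_rw [e1]
      rw [integral_finsetSum]
      · refine sum_congr rfl fun m _ => ?_
        rw [integral_finsetSum]
        · refine sum_congr rfl fun n _ => ?_
          rw [integral_const_mul]
        · intro n _
          exact (hint2 m n).const_mul _
      · intro m _
        exact integrable_finsetSum _ fun n _ => (hint2 m n).const_mul _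
    have h3 : ∫ t : ℝ, Real.exp (-t ^ 2 / T ^ 2) * ‖f t‖ ^ 2 ≤
        ‖((∫ t : ℝ, Real.exp (-t ^ 2 / T ^ 2) * ‖f t‖ ^ 2 : ℝ) : ℂ)‖ := by
      rw [Complex.norm_real]
      exact le_abs_self _
    refine h3.trans ?_
    rw [e2]
    refine (norm_sum_le _ _).trans (sum_le_sum fun m _ => ?_)
    refine (norm_sum_le _ _).trans (sum_le_sum fun n _ => ?_)
    rw [norm_mul, norm_mul, RCLike.norm_conj, gauss_ft hT0]
  -- step 3: Schur
  have s3 : ∑ m ∈ S, ∑ n ∈ S, ‖a m‖ * ‖a n‖ *
        (√Real.pi * T * Real.exp (-(T ^ 2 * (Real.log m - Real.log n) ^ 2) / 4)) ≤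
      ∑ m ∈ S, ‖a m‖ ^ 2 * (√Real.pi * T *
        ∑ n ∈ S, Real.exp (-(T ^ 2 * (Real.log m - Real.log n) ^ 2) / 4)) := by
    set k : ℕ → ℕ → ℝ := fun m n =>
      √Real.pi * T * Real.exp (-(T ^ 2 * (Real.log m - Real.log n) ^ 2) / 4) with hk
    have hk0 : ∀ m n, 0 ≤ k m n := fun m n => by
      simp only [hk]; positivity
    have hks : ∀ m n, k m n = k n m := fun m n => by
      simp only [hk]
      have : (Real.log m - Real.log n) ^ 2 = (Real.log n - Real.log m) ^ 2 := by ring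
      rw [this]
    have h1 : ∑ m ∈ S, ∑ n ∈ S, ‖a m‖ * ‖a n‖ * k m n ≤
        ∑ m ∈ S, ∑ n ∈ S, (‖a m‖ ^ 2 / 2 * k m n + ‖a n‖ ^ 2 / 2 * k m n) := by
      refine sum_le_sum fun m _ => sum_le_sum fun n _ => ?_
      have := hk0 m n
      nlinarith [sq_nonneg (‖a m‖ - ‖a n‖)]
    have h2 : ∑ m ∈ S, ∑ n ∈ S, (‖a m‖ ^ 2 / 2 * k m n + ‖a n‖ ^ 2 / 2 * k m n) =
        ∑ m ∈ S, ∑ n ∈ S, ‖a m‖ ^ 2 * k m n := by
      have h3 : ∑ m ∈ S, ∑ n ∈ S, ‖a n‖ ^ 2 / 2 * k m n =
          ∑ m ∈ S, ∑ n ∈ S, ‖a m‖ ^ 2 / 2 * k m n := by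
        rw [sum_comm]
        refine sum_congr rfl fun m _ => sum_congr rfl fun n _ => ?_
        rw [hks]
      simp_rw [sum_add_distrib]
      rw [h3, ← sum_add_distrib]
      refine sum_congr rfl fun m _ => ?_
      rw [← sum_add_distrib]
      refine sum_congr rfl fun n _ => ?_
      ring
    refine h1.trans (le_of_eq ?_)
    rw [h2]
    refine sum_congr rfl fun m _ => ?_
    rw [← mul_sum]
    congr 1
    simp only [hk]
    rw [← mul_sum]
  have s4 : ∑ m ∈ S, ‖a m‖ ^ 2 * (√Real.pi * T *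
        ∑ n ∈ S, Real.exp (-(T ^ 2 * (Real.log m - Real.log n) ^ 2) / 4)) ≤
      4 * √Real.pi * C0 * ∑ m ∈ S, (T + m) * ‖a m‖ ^ 2 := by
    rw [mul_sum]
    refine sum_le_sum fun m hm => ?_
    have hm1 := hS m hm
    have hm0 : (0 : ℝ) < m := by exact_mod_cast hm1
    have h1 : ∑ n ∈ S, Real.exp (-(T ^ 2 * (Real.log m - Real.log n) ^ 2) / 4) ≤
        C0 * (2 * (1 + 2 / (T / m))) := by
      refine (sum_le_sum fun n hn => ker_bound hT hm1 (hS n hn)).trans ?_
      rw [← mul_sum]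
      exact mul_le_mul_of_nonneg_left (sum_abs (by positivity) S m) C0_pos.le
    have h2 : T * (C0 * (2 * (1 + 2 / (T / m)))) ≤ 4 * C0 * (T + m) := by
      have e : T * (C0 * (2 * (1 + 2 / (T / m)))) = C0 * (2 * T + 4 * m) := by
        field_simp
        ring
      rw [e]
      have := C0_pos
      nlinarith
    calc ‖a m‖ ^ 2 * (√Real.pi * T *
          ∑ n ∈ S, Real.exp (-(T ^ 2 * (Real.log m - Real.log n) ^ 2) / 4))
        = ‖a m‖ ^ 2 * √Real.pi * (T *
          ∑ n ∈ S, Real.exp (-(T ^ 2 * (Real.log m - Real.log n) ^ 2) / 4)) := by ring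
      _ ≤ ‖a m‖ ^ 2 * √Real.pi * (T * (C0 * (2 * (1 + 2 / (T / m))))) := by gcongr
      _ ≤ ‖a m‖ ^ 2 * √Real.pi * (4 * C0 * (T + m)) := by gcongr
      _ = _ := by ring
  calc ∫ t in (-T)..T, ‖f t‖ ^ 2 ≤ _ := s1
    _ ≤ Real.exp 1 * (4 * √Real.pi * C0 * ∑ m ∈ S, (T + m) * ‖a m‖ ^ 2) :=
        mul_le_mul_of_nonneg_left (s2.trans (s3.trans s4)) (Real.exp_pos _).le
    _ = _ := by unfold C1; ring

/-- the mean value theorem for absolutely convergent series -/
theorem mvt_tsum {T : ℝ} (hT : 1 ≤ T) (a : ℕ → ℂ) (h0 : a 0 = 0) (ha : Summable fun n => ‖a n‖)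
    (h2 : Summable fun n : ℕ => (T + n) * ‖a n‖ ^ 2) :
    ∫ t in (-T)..T, ‖∑' n, a n * en n t‖ ^ 2 ≤ C1 * ∑' n : ℕ, (T + n) * ‖a n‖ ^ 2 := by
  have hsum : ∀ t, Summable fun n => a n * en n t := by
    intro t
    refine Summable.of_norm ?_
    simpa only [norm_mul, norm_en, mul_one] using ha
  have hlim : Tendsto (fun N : ℕ => ∫ t in (-T)..T, ‖∑ n ∈ range N, a n * en n t‖ ^ 2) atTop
      (𝓝 (∫ t in (-T)..T, ‖∑' n, a n * en n t‖ ^ 2)) := by
    refine intervalIntegral.tendsto_integral_filter_of_dominated_convergence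
      (fun _ => (∑' n, ‖a n‖) ^ 2) ?_ ?_ ?_ ?_
    · refine Eventually.of_forall fun N => ?_
      refine Continuous.aestronglyMeasurable ?_
      exact (continuous_finsetSum _ fun n _ => continuous_const.mul (continuous_en n)).norm.pow 2
    · refine Eventually.of_forall fun N => Eventually.of_forall fun t _ => ?_
      rw [Real.norm_of_nonneg (by positivity)]
      refine pow_le_pow_left₀ (norm_nonneg _) ?_ 2
      refine (norm_sum_le _ _).trans ?_
      simp only [norm_mul, norm_en, mul_one]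
      exact ha.sum_le_tsum _ fun n _ => norm_nonneg _
    · exact intervalIntegrable_const
    · refine Eventually.of_forall fun t _ => ?_
      exact ((hsum t).hasSum.tendsto_sum_nat.norm).pow 2
  refine le_of_tendsto hlim (Eventually.of_forall fun N => ?_)
  have h3 : ∀ t, ∑ n ∈ range N, a n * en n t = ∑ n ∈ (range N).filter (fun n => 1 ≤ n),
      a n * en n t := by
    intro t
    rw [sum_filter]
    refine sum_congr rfl fun n _ => ?_
    split_ifs with h
    · rfl
    · have : n = 0 := by omega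
      rw [this, h0, zero_mul]
  simp_rw [h3]
  refine (mvt_finset hT _ (fun n hn => (mem_filter.1 hn).2) a).trans ?_
  refine mul_le_mul_of_nonneg_left ?_ C1_pos.le
  exact h2.sum_le_tsum _ fun n _ => by positivity

end Pool.Agent.ZP
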