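import Pool.Agent.Lib_helper50.ZP.Gr
import Pool.Agent.Lib_helper50.ZP.MVT

/-!
# An approximate functional equation, as an inequality
-/

set_option autoImplicit false

namespace Pool.Agent.ZP

open Complex MeasureTheory Filter Topology Finset

/-- `∑ c n n ^ (- i u)` -/
noncomputable def Sm (c : ℕ → ℂ) (u : ℝ) : ℂ := ∑' n, c n * en n u

/-- the part `n ≤ N`, on the line `1 / 2 + η` -/
noncomputable def headS (a : ℕ → ℂ) (N : ℕ) (σ : ℝ) (n : ℕ) : ℂ :=
  if n ∈ Finset.Icc 1 N then a n * (((n : ℝ) ^ (-σ) : ℝ) : ℂ) else 0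

/-- the part `n > N`, on the line `3 / 2` -/
noncomputable def tailS (a : ℕ → ℂ) (N : ℕ) (n : ℕ) : ℂ :=
  if n ≤ N then 0 else a n * (((n : ℝ) ^ (-(3 / 2) : ℝ) : ℝ) : ℂ)

/-- A functional equation. -/
structure FEData (m : ℕ) (D Y : ℂ → ℂ) (a b : ℕ → ℂ) : Prop where
  diff : Differentiable ℂ D
  growth : Gr (-1 / 2) (3 / 2) D
  a0 : a 0 = 0
  b0 : b 0 = 0
  aS : Summable fun n : ℕ => ‖a n‖ * (n : ℝ) ^ (-(3 / 2) : ℝ)
  bS : Summable fun n : ℕ => ‖b n‖ * (n : ℝ) ^ (-(3 / 2) : ℝ)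
  right : ∀ u : ℝ, D (3 / 2 + u * I) = (1 / 2 + u * I) ^ m *
    Sm (fun n => a n * (((n : ℝ) ^ (-(3 / 2) : ℝ) : ℝ) : ℂ)) u
  left : ∀ u : ℝ, D (-1 / 2 + u * I) = (-3 / 2 + u * I) ^ m * Y (-1 / 2 + u * I) *
    Sm (fun n => b n * (((n : ℝ) ^ (-(3 / 2) : ℝ) : ℝ) : ℂ)) (-u)
  Ydiff : ∀ z : ℂ, z.re < 1 → DifferentiableAt ℂ Y z
  Ygrowth : Gr (-1 / 2) (1 / 2) Y

/-- the weight -/
noncomputable def Gw (m : ℕ) (v : ℝ) : ℝ := (1 + |v|) ^ m * Real.exp (-v ^ 2)

theorem Gw_nonneg (m : ℕ) (v : ℝ) : 0 ≤ Gw m v := by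
  unfold Gw
  positivity

theorem Gw_continuous (m : ℕ) : Continuous (Gw m) := by
  unfold Gw
  fun_prop

theorem one_add_pow_le (m : ℕ) (v : ℝ) : (1 + |v|) ^ m ≤ Real.exp (m * |v|) := by
  rw [Real.exp_nat_mul]
  refine pow_le_pow_left₀ (by positivity) ?_ m
  have := Real.add_one_le_exp |v|
  linarith

theorem Gw_integrable_mul (m : ℕ) {g : ℝ → ℝ} (hg : Continuous g) {C : ℝ}
    (hb : ∀ v, |g v| ≤ C * Real.exp (C * |v|)) : Integrable fun v => Gw m v * g v := by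
  have hC : 0 ≤ C := by
    have := (abs_nonneg _).trans (hb 0)
    simpa using this
  refine (integrable_gauss_half.const_mul (C * Real.exp ((m + C) ^ 2 / 2))).mono'
    ((Gw_continuous m).mul hg).aestronglyMeasurable (Eventually.of_forall fun v => ?_)
  rw [norm_mul, Real.norm_of_nonneg (Gw_nonneg m v), Real.norm_eq_abs]
  unfold Gw
  calc (1 + |v|) ^ m * Real.exp (-v ^ 2) * |g v|
      ≤ Real.exp (m * |v|) * Real.exp (-v ^ 2) * (C * Real.exp (C * |v|)) := by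
        refine mul_le_mul ?_ (hb v) (abs_nonneg _) (by positivity)
        exact mul_le_mul_of_nonneg_right (one_add_pow_le m v) (Real.exp_pos _).le
    _ = C * (Real.exp ((m + C) * |v|) * Real.exp (-v ^ 2)) := by
        rw [add_mul, Real.exp_add]
        ring
    _ ≤ C * (Real.exp ((m + C) ^ 2 / 2) * Real.exp (-v ^ 2 / 2)) :=
        mul_le_mul_of_nonneg_left (exp_lin_sq _ v) hC
    _ = _ := by ring

theorem Sm_summable {c : ℕ → ℂ} (hc : Summable fun n => ‖c n‖) (u : ℝ) :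
    Summable fun n => c n * en n u := by
  refine Summable.of_norm ?_
  simpa only [norm_mul, norm_en, mul_one] using hc

theorem Sm_continuous {c : ℕ → ℂ} (hc : Summable fun n => ‖c n‖) : Continuous (Sm c) := by
  unfold Sm
  refine continuous_tsum (fun n => continuous_const.mul (continuous_en n)) hc fun n u => ?_
  rw [norm_mul, norm_en, mul_one]

theorem norm_Sm_le {c : ℕ → ℂ} (hc : Summable fun n => ‖c n‖) (u : ℝ) :
    ‖Sm c u‖ ≤ ∑' n, ‖c n‖ := by
  unfold Sm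
  refine (norm_tsum_le_tsum_norm ?_).trans (le_of_eq ?_)
  · simpa only [norm_mul, norm_en, mul_one] using hc
  · simp only [norm_mul, norm_en, mul_one]

theorem headS_summable (a : ℕ → ℂ) (N : ℕ) (σ : ℝ) : Summable fun n => ‖headS a N σ n‖ := by
  refine summable_of_ne_finset_zero (s := Finset.Icc 1 N) fun n hn => ?_
  unfold headS
  rw [if_neg hn, norm_zero]

theorem full_summable {a : ℕ → ℂ} (ha : Summable fun n : ℕ => ‖a n‖ * (n : ℝ) ^ (-(3 / 2) : ℝ)) :
    Summable fun n => ‖a n * (((n : ℝ) ^ (-(3 / 2) : ℝ) : ℝ) : ℂ)‖ := by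
  refine ha.congr fun n => ?_
  rw [norm_mul, Complex.norm_real, Real.norm_of_nonneg (by positivity)]

theorem tailS_summable {a : ℕ → ℂ} (ha : Summable fun n : ℕ => ‖a n‖ * (n : ℝ) ^ (-(3 / 2) : ℝ))
    (N : ℕ) : Summable fun n => ‖tailS a N n‖ := by
  refine (full_summable ha).of_nonneg_of_le (fun n => norm_nonneg _) fun n => ?_
  unfold tailS
  split_ifs
  · rw [norm_zero]; positivity
  · exact le_rfl

theorem Sm_split {a : ℕ → ℂ} (h0 : a 0 = 0)
    (ha : Summable fun n : ℕ => ‖a n‖ * (n : ℝ) ^ (-(3 / 2) : ℝ)) (N : ℕ) (u : ℝ) :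
    Sm (fun n => a n * (((n : ℝ) ^ (-(3 / 2) : ℝ) : ℝ) : ℂ)) u =
      Sm (headS a N (3 / 2)) u + Sm (tailS a N) u := by
  unfold Sm
  rw [← (Sm_summable (headS_summable a N (3 / 2)) u).tsum_add
    (Sm_summable (tailS_summable ha N) u)]
  refine tsum_congr fun n => ?_
  unfold headS tailS
  by_cases hn : n ≤ N
  · rw [if_pos hn]
    by_cases h1 : n ∈ Finset.Icc 1 N
    · rw [if_pos h1]
      ring
    · rw [if_neg h1]
      have : n = 0 := by
        rw [Finset.mem_Icc] at h1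
        omega
      subst this
      simp only [h0]
      ring
  · rw [if_neg hn, if_neg (by rw [Finset.mem_Icc]; omega)]
    ring

theorem Sm_head (a : ℕ → ℂ) (N : ℕ) (σ u : ℝ) :
    Sm (headS a N σ) u = ∑ n ∈ Finset.Icc 1 N, a n * (n : ℂ) ^ (-((σ : ℂ) + u * I)) := by
  unfold Sm
  rw [tsum_eq_sum (s := Finset.Icc 1 N)]
  · refine Finset.sum_congr rfl fun n hn => ?_
    unfold headS
    rw [if_pos hn, cpow_eq_en (by rw [Finset.mem_Icc] at hn; omega)]
    ring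
  · intro n hn
    unfold headS
    rw [if_neg hn, zero_mul]

theorem pole_bound {x : ℝ} (hx : |x| ≤ 1) (m : ℕ) (t v : ℝ) :
    ‖(((-1 / 2 + x : ℝ) : ℂ) + ((t + v : ℝ) : ℂ) * I) ^ m‖ ≤
      ‖(-1 / 2 + t * I : ℂ)‖ ^ m * (3 ^ m * (1 + |v|) ^ m) := by
  rw [norm_pow, ← mul_pow, ← mul_pow]
  refine pow_le_pow_left₀ (norm_nonneg _) ?_ m
  have e : (((-1 / 2 + x : ℝ) : ℂ) + ((t + v : ℝ) : ℂ) * I) =
      (-1 / 2 + t * I : ℂ) + ((x : ℂ) + v * I) := by
    push_cast
    ring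
  have h1 : ‖(x : ℂ) + v * I‖ ≤ 1 + |v| := by
    refine (norm_add_le _ _).trans ?_
    have h2 : ‖(x : ℂ)‖ = |x| := Complex.norm_real x
    have h3 : ‖(v : ℂ) * I‖ = |v| := by simp
    rw [h2, h3]
    linarith
  have h2 : 1 / 2 ≤ ‖(-1 / 2 + t * I : ℂ)‖ := by
    have := Complex.abs_re_le_norm (-1 / 2 + t * I : ℂ)
    have e1 : (-1 / 2 + t * I : ℂ).re = -1 / 2 := by simp
    rw [e1, abs_of_neg (by norm_num)] at this
    linarith
  rw [e]
  refine (norm_add_le _ _).trans ?_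
  have h3 := abs_nonneg v
  nlinarith [norm_nonneg (-1 / 2 + t * I : ℂ)]

theorem piece_bound {m : ℕ} {f : ℂ → ℂ} {x d K t : ℝ} {s : ℝ → ℝ} (hd : 0 < d) (hx : d ≤ |x|)
    (hx1 : |x| ≤ 1) (hs : Continuous s) (hs0 : ∀ v, 0 ≤ s v) {C : ℝ}
    (hsb : ∀ v, |s v| ≤ C * Real.exp (C * |v|)) (hK : 0 ≤ K)
    (hf : ∀ v : ℝ, ‖f (x + v * I)‖ ≤
      ‖(((-1 / 2 + x : ℝ) : ℂ) + ((t + v : ℝ) : ℂ) * I) ^ m‖ * (K * s v)) :
    ‖∫ v : ℝ, f (x + v * I) * ker (x + v * I)‖ ≤
      ‖(-1 / 2 + t * I : ℂ)‖ ^ m * (3 ^ m * Real.exp 1) * (K / d * ∫ v : ℝ, Gw m v * s v) := by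
  have hint := Gw_integrable_mul m hs hsb
  have hx2 : x ^ 2 ≤ 1 := by
    rw [← sq_abs]
    have := abs_nonneg x
    nlinarith
  have e : ‖(-1 / 2 + t * I : ℂ)‖ ^ m * (3 ^ m * Real.exp 1) * (K / d * ∫ v : ℝ, Gw m v * s v) =
      ∫ v : ℝ, (‖(-1 / 2 + t * I : ℂ)‖ ^ m * (3 ^ m * Real.exp 1) * (K / d)) * (Gw m v * s v) := by
    rw [integral_const_mul]
    ring
  rw [e]
  refine norm_integral_le_of_norm_le (hint.const_mul _) (Eventually.of_forall fun v => ?_)
  rw [norm_mul]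
  have h1 := norm_ker_le hd hx v
  have h2 := pole_bound hx1 m t v
  have h3 : Real.exp (x ^ 2) ≤ Real.exp 1 := Real.exp_le_exp.2 hx2
  have hsv : 0 ≤ K * s v := mul_nonneg hK (hs0 v)
  have h4 : ‖ker (x + v * I)‖ ≤ Real.exp 1 * Real.exp (-v ^ 2) / d :=
    h1.trans (by gcongr)
  calc ‖f (x + v * I)‖ * ‖ker (x + v * I)‖
      ≤ (‖(-1 / 2 + t * I : ℂ)‖ ^ m * (3 ^ m * (1 + |v|) ^ m) * (K * s v)) *
        (Real.exp 1 * Real.exp (-v ^ 2) / d) := by
        refine mul_le_mul ((hf v).trans ?_) h4 (norm_nonneg _) (by positivity)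
        exact mul_le_mul_of_nonneg_right h2 hsv
    _ = _ := by
        unfold Gw
        ring

theorem cpow_line {T : ℝ} (hT : 0 < T) (x v : ℝ) : ‖(T : ℂ) ^ ((x : ℂ) + v * I)‖ = T ^ x := by
  rw [Complex.norm_cpow_eq_rpow_re_of_pos hT]
  simp

theorem afe {m : ℕ} {D Y : ℂ → ℂ} {a b : ℕ → ℂ} (h : FEData m D Y a b) {T η : ℝ} (hT : 1 ≤ T)
    (hη : 0 < η) (hη1 : η ≤ 1 / 2) (N : ℕ) (t : ℝ) :
    2 * Real.pi * ‖D (1 / 2 + t * I)‖ ≤ ‖(-1 / 2 + t * I : ℂ)‖ ^ m * (3 ^ m * Real.exp 1) *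
      (T ^ η / η * (∫ v, Gw m v * ‖Sm (headS a N (1 / 2 + η)) (t + v)‖) +
       T * (∫ v, Gw m v * ‖Sm (tailS a N) (t + v)‖) +
       T ^ (-η) / η * (∫ v, Gw m v * (‖Y (((1 / 2 - η : ℝ) : ℂ) + ((t + v : ℝ) : ℂ) * I)‖ *
         ‖Sm (headS b N (1 / 2 + η)) (-(t + v))‖)) +
       T⁻¹ * (∫ v, Gw m v * (‖Y (((-1 / 2 : ℝ) : ℂ) + ((t + v : ℝ) : ℂ) * I)‖ *
         ‖Sm (tailS b N) (-(t + v))‖))) := by
  have hT0 : 0 < T := by linarith
  have hTc : (T : ℂ) ≠ 0 := by exact_mod_cast hT0.ne'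
  set z₀ : ℂ := 1 / 2 + t * I with hz₀
  have hz₀re : z₀.re = 1 / 2 := by simp [hz₀]
  have hz₀im : z₀.im = t := by simp [hz₀]
  set F : ℂ → ℂ := fun w => D (z₀ + w) * (T : ℂ) ^ w with hF
  have hFd : Differentiable ℂ F := by
    intro w
    refine DifferentiableAt.mul ?_ ?_
    · exact (h.diff _).comp w (f := fun w => z₀ + w) (by fun_prop)
    · exact DifferentiableAt.const_cpow (by fun_prop) (Or.inl hTc)
  have hFg : Gr (-1) 1 F := by
    refine Gr.mul (Gr.comp_add z₀ ?_) (Gr.rpow hT0)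
    rw [hz₀re]
    exact h.growth.mono (by norm_num) (by norm_num)
  have hres := residue_ker hFd hFg
  have hF0 : F 0 = D z₀ := by simp [hF]
  rw [hF0] at hres
  have hpole : ∀ α β : ℝ, Gr α β fun w => (z₀ + w - 1) ^ m := by
    intro α β
    refine Gr.pow ?_ m
    refine ((Gr.const (a := α) (b := β) (z₀ - 1)).add Gr.id).congr ?_
    intro w
    ring
  have hlinec : ∀ (f : ℂ → ℂ) (x : ℝ), (∀ w : ℂ, w.re = x → DifferentiableAt ℂ f w) →
      Continuous fun v : ℝ => f (x + v * I) := by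
    intro f x hf
    rw [continuous_iff_continuousAt]
    intro v
    exact ContinuousAt.comp (f := fun v : ℝ => (x : ℂ) + v * I)
      (hf _ (by simp)).continuousAt (by fun_prop)
  -- the right line
  set HR : ℂ → ℂ := fun w => (z₀ + w - 1) ^ m *
    (∑ n ∈ Finset.Icc 1 N, a n * (n : ℂ) ^ (-(z₀ + w))) * (T : ℂ) ^ w with hHR
  set TR : ℂ → ℂ := fun w => (z₀ + w - 1) ^ m * Sm (tailS a N) (t + w.im) * (T : ℂ) ^ w with hTR
  have hHRd : ∀ w, DifferentiableAt ℂ HR w := by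
    intro w
    refine ((DifferentiableAt.pow (by fun_prop) m).mul ?_).mul ?_
    · refine DifferentiableAt.fun_sum fun n hn => ?_
      refine DifferentiableAt.const_mul ?_ _
      refine DifferentiableAt.const_cpow (by fun_prop) (Or.inl ?_)
      have := (Finset.mem_Icc.1 hn).1
      exact_mod_cast (by omega : n ≠ 0)
    · exact DifferentiableAt.const_cpow (by fun_prop) (Or.inl hTc)
  have hHRg : Gr η 1 HR := by
    refine ((hpole _ _).mul ?_).mul (Gr.rpow hT0)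
    have : ∀ w, ∑ n ∈ Finset.Icc 1 N, a n * (n : ℂ) ^ (-(z₀ + w)) =
        ∑ n ∈ Finset.Icc 1 N, (fun n w => if 1 ≤ n then a n * (n : ℂ) ^ (-(z₀ + w)) else 0) n w := by
      intro w
      refine Finset.sum_congr rfl fun n hn => ?_
      simp only [if_pos (Finset.mem_Icc.1 hn).1]
    refine Gr.congr ?_ fun w => (this w).symm
    refine Gr.sum _ fun n => ?_
    by_cases hn : 1 ≤ n
    · simp only [if_pos hn]
      refine (Gr.const _).mul ?_
      have h1 : (0 : ℝ) < n := by exact_mod_cast hn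
      refine Gr.congr (Gr.cpow_of (c := n) (K := 1 / 2 + (|η| + |1|)) h1 (g := fun w => -(z₀ + w))
        fun w h2 h3 => ?_) fun w => by simp
      rw [neg_re, add_re, abs_neg, hz₀re]
      refine (abs_add_le _ _).trans ?_
      rw [abs_of_pos (by norm_num : (0 : ℝ) < 1 / 2)]
      exact add_le_add le_rfl (abs_re_le h2 h3)
    · simp only [if_neg hn]
      exact Gr.const 0
  have hHR1 : ∀ x v : ℝ, HR (x + v * I) =
      (((-1 / 2 + x : ℝ) : ℂ) + ((t + v : ℝ) : ℂ) * I) ^ m *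
        Sm (headS a N (1 / 2 + x)) (t + v) * (T : ℂ) ^ ((x : ℂ) + v * I) := by
    intro x v
    simp only [hHR, hz₀]
    rw [Sm_head]
    congr 2
    · congr 1
      push_cast
      ring
    · refine Finset.sum_congr rfl fun n _ => ?_
      congr 2
      push_cast
      ring
  have hTR1 : ∀ x v : ℝ, TR (x + v * I) =
      (((-1 / 2 + x : ℝ) : ℂ) + ((t + v : ℝ) : ℂ) * I) ^ m *
        Sm (tailS a N) (t + v) * (T : ℂ) ^ ((x : ℂ) + v * I) := by
    intro x v
    simp only [hTR, hz₀]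
    congr 2
    · congr 1
      push_cast
      ring
    · simp
  have hF1 : ∀ v : ℝ, F (1 + v * I) = HR (1 + v * I) + TR (1 + v * I) := by
    intro v
    have h1 := hHR1 1 v
    have h2 := hTR1 1 v
    rw [ofReal_one] at h1 h2
    rw [h1, h2]
    have h3 := h.right (t + v)
    rw [Sm_split h.a0 h.aS N] at h3
    simp only [hF]
    have e1 : z₀ + (1 + v * I) = 3 / 2 + ((t + v : ℝ) : ℂ) * I := by
      rw [hz₀]; push_cast; ring
    have e2 : (((-1 / 2 + 1 : ℝ) : ℂ) + ((t + v : ℝ) : ℂ) * I) =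
        1 / 2 + ((t + v : ℝ) : ℂ) * I := by
      push_cast; ring
    have e3 : (1 / 2 + 1 : ℝ) = 3 / 2 := by norm_num
    rw [e1, h3, e2, e3]
    ring
  have iF1 : Integrable fun v : ℝ => F (1 + v * I) * ker (1 + v * I) := by
    have := ker_integrable hFg (x := 1) (by norm_num) le_rfl one_ne_zero
      (hlinec F 1 fun w _ => hFd w)
    simpa using this
  have iHR : ∀ x : ℝ, η ≤ x → x ≤ 1 → Integrable fun v : ℝ => HR (x + v * I) * ker (x + v * I) :=
    fun x h1 h2 => ker_integrable hHRg h1 h2 (by linarith) (hlinec HR x fun w _ => hHRd w)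
  have iHR1 : Integrable fun v : ℝ => HR (1 + v * I) * ker (1 + v * I) := by
    simpa using iHR 1 (by linarith) le_rfl
  have iTR : Integrable fun v : ℝ => TR (1 + v * I) * ker (1 + v * I) := by
    refine (iF1.sub iHR1).congr (Eventually.of_forall fun v => ?_)
    simp only [Pi.sub_apply]
    rw [hF1]
    ring
  have hR : ∫ v : ℝ, F (1 + v * I) * ker (1 + v * I) =
      (∫ v : ℝ, HR (η + v * I) * ker (η + v * I)) + ∫ v : ℝ, TR (1 + v * I) * ker (1 + v * I) := by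
    have h1 := shift_ker (f := HR) (a := η) (b := 1) (by linarith) (Or.inl hη)
      (fun z _ _ => hHRd z) hHRg
    rw [h1]
    simp only [ofReal_one]
    rw [← integral_add iHR1 iTR]
    refine integral_congr_ae (Eventually.of_forall fun v => ?_)
    simp only
    rw [hF1]
    ring
  -- the left line
  set HL : ℂ → ℂ := fun w => (z₀ + w - 1) ^ m * Y (z₀ + w) *
    (∑ n ∈ Finset.Icc 1 N, b n * (n : ℂ) ^ (z₀ + w - 1)) * (T : ℂ) ^ w with hHL
  set TL : ℂ → ℂ := fun w => (z₀ + w - 1) ^ m * Y (z₀ + w) * Sm (tailS b N) (-(t + w.im)) *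
    (T : ℂ) ^ w with hTL
  have hHLd : ∀ w : ℂ, w.re < 1 / 2 → DifferentiableAt ℂ HL w := by
    intro w hw
    refine (((DifferentiableAt.pow (by fun_prop) m).mul ?_).mul ?_).mul ?_
    · exact (h.Ydiff _ (by rw [add_re, hz₀re]; linarith)).comp w (f := fun w => z₀ + w)
        (by fun_prop)
    · refine DifferentiableAt.fun_sum fun n hn => ?_
      refine DifferentiableAt.const_mul ?_ _
      refine DifferentiableAt.const_cpow (by fun_prop) (Or.inl ?_)
      have := (Finset.mem_Icc.1 hn).1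
      exact_mod_cast (by omega : n ≠ 0)
    · exact DifferentiableAt.const_cpow (by fun_prop) (Or.inl hTc)
  have hHLg : Gr (-1) (-η) HL := by
    refine (((hpole _ _).mul (Gr.comp_add z₀ ?_)).mul ?_).mul (Gr.rpow hT0)
    · rw [hz₀re]
      exact h.Ygrowth.mono (by norm_num) (by linarith)
    have : ∀ w, ∑ n ∈ Finset.Icc 1 N, b n * (n : ℂ) ^ (z₀ + w - 1) =
        ∑ n ∈ Finset.Icc 1 N, (fun n w => if 1 ≤ n then b n * (n : ℂ) ^ (z₀ + w - 1) else 0) n w := by
      intro w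
      refine Finset.sum_congr rfl fun n hn => ?_
      simp only [if_pos (Finset.mem_Icc.1 hn).1]
    refine Gr.congr ?_ fun w => (this w).symm
    refine Gr.sum _ fun n => ?_
    by_cases hn : 1 ≤ n
    · simp only [if_pos hn]
      refine (Gr.const _).mul ?_
      have h1 : (0 : ℝ) < n := by exact_mod_cast hn
      refine Gr.congr (Gr.cpow_of (c := n) (K := 1 / 2 + (|(-1)| + |(-η)|)) h1
        (g := fun w => z₀ + w - 1) fun w h2 h3 => ?_) fun w => by simp
      rw [sub_re, add_re, hz₀re, one_re]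
      have h5 : (1 / 2 + w.re - 1 : ℝ) = -(1 / 2) + w.re := by ring
      rw [h5]
      refine (abs_add_le _ _).trans ?_
      rw [abs_neg, abs_of_pos (by norm_num : (0 : ℝ) < 1 / 2)]
      exact add_le_add le_rfl (abs_re_le h2 h3)
    · simp only [if_neg hn]
      exact Gr.const 0
  have hHL1 : ∀ x v : ℝ, HL (x + v * I) =
      (((-1 / 2 + x : ℝ) : ℂ) + ((t + v : ℝ) : ℂ) * I) ^ m *
        Y (((1 / 2 + x : ℝ) : ℂ) + ((t + v : ℝ) : ℂ) * I) *
        Sm (headS b N (1 / 2 - x)) (-(t + v)) * (T : ℂ) ^ ((x : ℂ) + v * I) := by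
    intro x v
    simp only [hHL, hz₀]
    rw [Sm_head]
    congr 2
    · congr 1
      · congr 1
        push_cast
        ring
      · congr 1
        push_cast
        ring
    · refine Finset.sum_congr rfl fun n _ => ?_
      congr 2
      push_cast
      ring
  have hTL1 : ∀ x v : ℝ, TL (x + v * I) =
      (((-1 / 2 + x : ℝ) : ℂ) + ((t + v : ℝ) : ℂ) * I) ^ m *
        Y (((1 / 2 + x : ℝ) : ℂ) + ((t + v : ℝ) : ℂ) * I) *
        Sm (tailS b N) (-(t + v)) * (T : ℂ) ^ ((x : ℂ) + v * I) := by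
    intro x v
    simp only [hTL, hz₀]
    congr 2
    · congr 1
      · congr 1
        push_cast
        ring
      · congr 1
        push_cast
        ring
    · simp
  have hF2 : ∀ v : ℝ, F (-1 + v * I) = HL (-1 + v * I) + TL (-1 + v * I) := by
    intro v
    have h1 := hHL1 (-1) v
    have h2 := hTL1 (-1) v
    rw [ofReal_neg, ofReal_one] at h1 h2
    rw [h1, h2]
    have h3 := h.left (t + v)
    rw [Sm_split h.b0 h.bS N] at h3
    simp only [hF]
    have e1 : z₀ + (-1 + v * I) = -1 / 2 + ((t + v : ℝ) : ℂ) * I := by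
      rw [hz₀]; push_cast; ring
    have e2 : (((-1 / 2 + -1 : ℝ) : ℂ) + ((t + v : ℝ) : ℂ) * I) =
        -3 / 2 + ((t + v : ℝ) : ℂ) * I := by
      push_cast; ring
    have e3 : (1 / 2 - -1 : ℝ) = 3 / 2 := by norm_num
    have e4 : (((1 / 2 + -1 : ℝ) : ℂ) + ((t + v : ℝ) : ℂ) * I) =
        -1 / 2 + ((t + v : ℝ) : ℂ) * I := by
      push_cast; ring
    rw [e1, h3, e2, e3, e4]
    ring
  have iF2 : Integrable fun v : ℝ => F (-1 + v * I) * ker (-1 + v * I) := by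
    have := ker_integrable hFg (x := -1) le_rfl (by norm_num) (by norm_num)
      (hlinec F (-1) fun w _ => hFd w)
    simpa using this
  have iHL1 : Integrable fun v : ℝ => HL (-1 + v * I) * ker (-1 + v * I) := by
    have := ker_integrable hHLg (x := -1) le_rfl (by linarith) (by norm_num)
      (hlinec HL (-1) fun w hw => hHLd w (by rw [hw]; norm_num))
    simpa using this
  have iTL : Integrable fun v : ℝ => TL (-1 + v * I) * ker (-1 + v * I) := by
    refine (iF2.sub iHL1).congr (Eventually.of_forall fun v => ?_)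
    simp only [Pi.sub_apply]
    rw [hF2]
    ring
  have hL : ∫ v : ℝ, F (-1 + v * I) * ker (-1 + v * I) =
      (∫ v : ℝ, HL (((-η : ℝ) : ℂ) + v * I) * ker (((-η : ℝ) : ℂ) + v * I)) +
        ∫ v : ℝ, TL (-1 + v * I) * ker (-1 + v * I) := by
    have h1 := shift_ker (f := HL) (a := -1) (b := -η) (by linarith) (Or.inr (by linarith))
      (fun z _ h2 => hHLd z (by linarith)) hHLg
    rw [← h1]
    simp only [ofReal_neg, ofReal_one]
    rw [← integral_add iHL1 iTL]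
    refine integral_congr_ae (Eventually.of_forall fun v => ?_)
    simp only
    rw [hF2]
    ring
  -- the bounds
  have hsb : ∀ (c : ℕ → ℂ), (Summable fun n => ‖c n‖) → ∀ (ι : ℝ → ℝ) (v : ℝ),
      |‖Sm c (ι v)‖| ≤ (∑' n, ‖c n‖) * Real.exp ((∑' n, ‖c n‖) * |v|) := by
    intro c hc ι v
    rw [abs_of_nonneg (norm_nonneg _)]
    have h1 := norm_Sm_le hc (ι v)
    have h2 : 0 ≤ ∑' n, ‖c n‖ := tsum_nonneg fun n => norm_nonneg _
    have h3 : (1 : ℝ) ≤ Real.exp ((∑' n, ‖c n‖) * |v|) := Real.one_le_exp (by positivity)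
    nlinarith
  have hYc : ∀ x : ℝ, x < 1 → Continuous fun v : ℝ =>
      ‖Y ((x : ℂ) + ((t + v : ℝ) : ℂ) * I)‖ := by
    intro x hx
    refine Continuous.norm ?_
    rw [continuous_iff_continuousAt]
    intro v
    exact ContinuousAt.comp (f := fun v : ℝ => (x : ℂ) + ((t + v : ℝ) : ℂ) * I)
      (h.Ydiff _ (by simpa using hx)).continuousAt (by fun_prop)
  have hYb : ∀ (c : ℕ → ℂ), (Summable fun n => ‖c n‖) → ∀ (ι : ℝ → ℝ) (x : ℝ), -1 / 2 ≤ x →
      x ≤ 1 / 2 → ∃ C : ℝ, ∀ v : ℝ, |‖Y ((x : ℂ) + ((t + v : ℝ) : ℂ) * I)‖ * ‖Sm c (ι v)‖| ≤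
        C * Real.exp (C * |v|) := by
    intro c hc ι x h1 h2
    obtain ⟨C, hC, hY⟩ := h.Ygrowth
    have h0 : 0 ≤ ∑' n, ‖c n‖ := tsum_nonneg fun n => norm_nonneg _
    refine ⟨C * Real.exp (C * |t|) * (∑' n, ‖c n‖) + C, fun v => ?_⟩
    rw [abs_of_nonneg (by positivity)]
    have h3 := hY ((x : ℂ) + ((t + v : ℝ) : ℂ) * I) (by simpa using h1) (by simpa using h2)
    have h4 : ((x : ℂ) + ((t + v : ℝ) : ℂ) * I).im = t + v := by simp
    rw [h4] at h3
    have h5 : Real.exp (C * |t + v|) ≤ Real.exp (C * |t|) * Real.exp (C * |v|) := by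
      rw [← Real.exp_add, ← mul_add]
      exact Real.exp_le_exp.2 (mul_le_mul_of_nonneg_left (abs_add_le _ _) hC)
    have h6 := norm_Sm_le hc (ι v)
    have h7 : Real.exp (C * |v|) ≤
        Real.exp ((C * Real.exp (C * |t|) * (∑' n, ‖c n‖) + C) * |v|) := by
      apply Real.exp_le_exp.2
      refine mul_le_mul_of_nonneg_right ?_ (abs_nonneg _)
      have : 0 ≤ C * Real.exp (C * |t|) * (∑' n, ‖c n‖) := by positivity
      linarith
    calc ‖Y ((x : ℂ) + ((t + v : ℝ) : ℂ) * I)‖ * ‖Sm c (ι v)‖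
        ≤ (C * (Real.exp (C * |t|) * Real.exp (C * |v|))) * (∑' n, ‖c n‖) :=
          mul_le_mul (h3.trans (mul_le_mul_of_nonneg_left h5 hC)) h6 (norm_nonneg _)
            (by positivity)
      _ = (C * Real.exp (C * |t|) * (∑' n, ‖c n‖)) * Real.exp (C * |v|) := by ring
      _ ≤ (C * Real.exp (C * |t|) * (∑' n, ‖c n‖) + C) *
          Real.exp ((C * Real.exp (C * |t|) * (∑' n, ‖c n‖) + C) * |v|) := by
          refine mul_le_mul (by linarith) h7 (Real.exp_pos _).le (by positivity)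
  have hS : ∀ c : ℕ → ℂ, (Summable fun n => ‖c n‖) → Continuous (fun v : ℝ => ‖Sm c (t + v)‖) :=
    fun c hc => ((Sm_continuous hc).comp (by fun_prop)).norm
  have hS' : ∀ c : ℕ → ℂ, (Summable fun n => ‖c n‖) →
      Continuous (fun v : ℝ => ‖Sm c (-(t + v))‖) :=
    fun c hc => ((Sm_continuous hc).comp (by fun_prop)).norm
  have sH := headS_summable a N (1 / 2 + η)
  have sT := tailS_summable h.aS N
  have sH' := headS_summable b N (1 / 2 + η)
  have sT' := tailS_summable h.bS N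
  have b1 : ‖∫ v : ℝ, HR (η + v * I) * ker (η + v * I)‖ ≤
      ‖(-1 / 2 + t * I : ℂ)‖ ^ m * (3 ^ m * Real.exp 1) *
        (T ^ η / η * ∫ v : ℝ, Gw m v * ‖Sm (headS a N (1 / 2 + η)) (t + v)‖) := by
    refine piece_bound (s := fun v => ‖Sm (headS a N (1 / 2 + η)) (t + v)‖) hη (le_abs_self _)
      (by rw [abs_of_pos hη]; linarith) (hS _ sH)
      (fun v => norm_nonneg _) (hsb _ sH fun v => t + v) (by positivity) fun v => ?_
    rw [hHR1, norm_mul, norm_mul, cpow_line hT0]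
    apply le_of_eq
    ring
  have b2 : ‖∫ v : ℝ, TR (1 + v * I) * ker (1 + v * I)‖ ≤
      ‖(-1 / 2 + t * I : ℂ)‖ ^ m * (3 ^ m * Real.exp 1) *
        (T / 1 * ∫ v : ℝ, Gw m v * ‖Sm (tailS a N) (t + v)‖) := by
    have := piece_bound (m := m) (f := TR) (x := 1) (d := 1) (K := T) (t := t)
      (s := fun v => ‖Sm (tailS a N) (t + v)‖) one_pos (by norm_num)
      (by norm_num) (hS _ sT) (fun v => norm_nonneg _) (hsb _ sT fun v => t + v) hT0.le
      fun v => by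
        rw [hTR1, norm_mul, norm_mul, cpow_line hT0, Real.rpow_one]
        apply le_of_eq
        ring
    simpa only [ofReal_one] using this
  obtain ⟨C3, hC3⟩ := hYb _ sH' (fun v => -(t + v)) (1 / 2 - η) (by linarith) (by linarith)
  obtain ⟨C4, hC4⟩ := hYb _ sT' (fun v => -(t + v)) (-1 / 2) (by linarith) (by linarith)
  have b3 : ‖∫ v : ℝ, HL (((-η : ℝ) : ℂ) + v * I) * ker (((-η : ℝ) : ℂ) + v * I)‖ ≤
      ‖(-1 / 2 + t * I : ℂ)‖ ^ m * (3 ^ m * Real.exp 1) *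
        (T ^ (-η) / η * ∫ v : ℝ, Gw m v * (‖Y (((1 / 2 - η : ℝ) : ℂ) + ((t + v : ℝ) : ℂ) * I)‖ *
         ‖Sm (headS b N (1 / 2 + η)) (-(t + v))‖)) := by
    refine piece_bound (s := fun v => ‖Y (((1 / 2 - η : ℝ) : ℂ) + ((t + v : ℝ) : ℂ) * I)‖ *
         ‖Sm (headS b N (1 / 2 + η)) (-(t + v))‖) hη (by rw [abs_neg]; exact le_abs_self _)
      (by rw [abs_neg, abs_of_pos hη]; linarith)
      ((hYc _ (by linarith)).mul (hS' _ sH'))
      (fun v => by positivity) hC3 (by positivity) fun v => ?_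
    rw [hHL1, norm_mul, norm_mul, norm_mul, cpow_line hT0]
    have e1 : (1 / 2 + -η : ℝ) = 1 / 2 - η := by ring
    have e2 : (1 / 2 - -η : ℝ) = 1 / 2 + η := by ring
    rw [e1, e2]
    apply le_of_eq
    ring
  have b4 : ‖∫ v : ℝ, TL (-1 + v * I) * ker (-1 + v * I)‖ ≤
      ‖(-1 / 2 + t * I : ℂ)‖ ^ m * (3 ^ m * Real.exp 1) *
        (T⁻¹ / 1 * ∫ v : ℝ, Gw m v * (‖Y (((-1 / 2 : ℝ) : ℂ) + ((t + v : ℝ) : ℂ) * I)‖ *
         ‖Sm (tailS b N) (-(t + v))‖)) := by
    have := piece_bound (m := m) (f := TL) (x := -1) (d := 1) (K := T⁻¹) (t := t)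
      (s := fun v => ‖Y (((-1 / 2 : ℝ) : ℂ) + ((t + v : ℝ) : ℂ) * I)‖ *
         ‖Sm (tailS b N) (-(t + v))‖) one_pos (by norm_num)
      (by norm_num) ((hYc _ (by norm_num)).mul (hS' _ sT')) (fun v => by positivity) hC4
      (by positivity) fun v => by
        rw [hTL1, norm_mul, norm_mul, norm_mul, cpow_line hT0, Real.rpow_neg_one]
        have e1 : (1 / 2 + -1 : ℝ) = -1 / 2 := by norm_num
        rw [e1]
        apply le_of_eq
        ring
    simpa only [ofReal_neg, ofReal_one] using this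
  have hn : 2 * Real.pi * ‖D z₀‖ = ‖2 * (Real.pi : ℂ) * D z₀‖ := by
    rw [norm_mul, norm_mul, Complex.norm_real, Real.norm_of_nonneg Real.pi_pos.le]
    norm_num
  rw [hn, hres, hR, hL]
  refine (norm_sub_le _ _).trans ?_
  refine (add_le_add (norm_add_le _ _) (norm_add_le _ _)).trans ?_
  refine (add_le_add (add_le_add b1 b2) (add_le_add b3 b4)).trans (le_of_eq ?_)
  rw [div_one, div_one]
  ring

end Pool.Agent.ZP
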