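import Pool.Agent.Lib_helper50.ZP.Afe

/-!
# Mean squares of smoothed Dirichlet series
-/

set_option autoImplicit false

namespace Pool.Agent.ZP

open Complex MeasureTheory Filter Topology Finset

theorem Gw_integrable (m : ℕ) : Integrable (Gw m) := by
  have := Gw_integrable_mul m (g := fun _ => 1) continuous_const (C := 1) fun v => by
    have : (1 : ℝ) ≤ Real.exp (1 * |v|) := Real.one_le_exp (by positivity)
    rw [abs_one, one_mul]
    exact this
  simpa using this

theorem Gw_mul (m k : ℕ) (v : ℝ) : Gw m v * (1 + |v|) ^ k = Gw (m + k) v := by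
  unfold Gw
  rw [pow_add]
  ring

/-- `∫ Gw` -/
noncomputable def Wt (m : ℕ) : ℝ := ∫ v, Gw m v

theorem Wt_pos (m : ℕ) : 0 < Wt m := by
  unfold Wt
  rw [integral_pos_iff_support_of_nonneg (Gw_nonneg m) (Gw_integrable m)]
  have : Function.support (Gw m) = Set.univ := by
    ext v
    simp only [Function.mem_support, Set.mem_univ, iff_true]
    unfold Gw
    positivity
  rw [this]
  simp

/-- Cauchy-Schwarz with a weight -/
theorem cs_weight (m : ℕ) {s : ℝ → ℝ} (h1 : Integrable fun v => Gw m v * s v)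
    (h2 : Integrable fun v => Gw m v * s v ^ 2) :
    (∫ v, Gw m v * s v) ^ 2 ≤ Wt m * ∫ v, Gw m v * s v ^ 2 := by
  have hW := Wt_pos m
  set J := ∫ v, Gw m v * s v with hJ
  set l := J / Wt m with hl
  have h3 : 0 ≤ ∫ v, Gw m v * (s v - l) ^ 2 :=
    integral_nonneg fun v => mul_nonneg (Gw_nonneg m v) (sq_nonneg _)
  have h4 : ∫ v, Gw m v * (s v - l) ^ 2 =
      (∫ v, Gw m v * s v ^ 2) - 2 * l * J + l ^ 2 * Wt m := by
    have e : ∀ v, Gw m v * (s v - l) ^ 2 =
        (Gw m v * s v ^ 2 - 2 * l * (Gw m v * s v)) + l ^ 2 * Gw m v := fun v => by ring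
    simp_rw [e]
    have i3 : Integrable fun v => Gw m v * s v ^ 2 - 2 * l * (Gw m v * s v) :=
      h2.sub (h1.const_mul _)
    rw [integral_add i3 ((Gw_integrable m).const_mul _),
      integral_sub h2 (h1.const_mul _), integral_const_mul, integral_const_mul]
    rfl
  rw [h4] at h3
  have h5 : l * Wt m = J := by
    rw [hl]
    field_simp
  have h6 : (∫ v, Gw m v * s v ^ 2) - 2 * l * J + l ^ 2 * Wt m =
      (∫ v, Gw m v * s v ^ 2) - l * J := by
    have : l ^ 2 * Wt m = l * J := by rw [← h5]; ring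
    rw [this]
    ring
  rw [h6] at h3
  have h7 : l * J * Wt m = J ^ 2 := by
    rw [← h5]
    ring
  nlinarith

theorem en_neg (n : ℕ) (u : ℝ) : en n (-u) = starRingEnd ℂ (en n u) := by
  unfold en
  rw [← Complex.exp_conj]
  congr 1
  simp only [map_mul, map_neg, conj_ofReal, conj_I]
  push_cast
  ring

theorem norm_Sm_neg (c : ℕ → ℂ) (u : ℝ) :
    ‖Sm c (-u)‖ = ‖Sm (fun n => starRingEnd ℂ (c n)) u‖ := by
  unfold Sm
  rw [← RCLike.norm_conj, Complex.conj_tsum]
  congr 1
  refine tsum_congr fun n => ?_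
  rw [map_mul, en_neg, Complex.conj_conj]

/-- mean square of a smoothed series -/
theorem conv_bound (m : ℕ) {c : ℕ → ℂ} (h0 : c 0 = 0) (hc : Summable fun n => ‖c n‖)
    (h2 : Summable fun n : ℕ => (n : ℝ) * ‖c n‖ ^ 2) {T : ℝ} (hT : 1 ≤ T) :
    ∫ t in (-T)..T, (∫ v, Gw m v * ‖Sm c (t + v)‖) ^ 2 ≤
      Wt m * Wt (m + 1) * C1 * ∑' n : ℕ, (T + n) * ‖c n‖ ^ 2 := by
  set B := ∑' n, ‖c n‖ with hB
  have hB0 : 0 ≤ B := tsum_nonneg fun n => norm_nonneg _
  have hSc := Sm_continuous hc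
  have hSb : ∀ u, ‖Sm c u‖ ≤ B := norm_Sm_le hc
  have hsq : Summable fun n : ℕ => ‖c n‖ ^ 2 := by
    have h3 : Summable fun n : ℕ => B * ‖c n‖ := hc.mul_left B
    refine h3.of_nonneg_of_le (fun n => by positivity) fun n => ?_
    rw [sq]
    exact mul_le_mul_of_nonneg_right (hc.le_tsum n fun _ _ => norm_nonneg _) (norm_nonneg _)
  have hTs : ∀ U : ℝ, Summable fun n : ℕ => (U + n) * ‖c n‖ ^ 2 := by
    intro U
    simp_rw [add_mul]
    exact (hsq.mul_left U).add h2
  set Q := ∑' n : ℕ, (T + n) * ‖c n‖ ^ 2 with hQ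
  -- integrability in `v`
  have i1 : ∀ t : ℝ, Integrable fun v => Gw m v * ‖Sm c (t + v)‖ := by
    intro t
    refine (Gw_integrable m).mul_bdd (c := B) ?_ (Eventually.of_forall fun v => ?_)
    · exact (hSc.comp (by fun_prop : Continuous fun v : ℝ => t + v)).norm.aestronglyMeasurable
    · rw [norm_norm]; exact hSb _
  have i2 : ∀ t : ℝ, Integrable fun v => Gw m v * ‖Sm c (t + v)‖ ^ 2 := by
    intro t
    refine (Gw_integrable m).mul_bdd (c := B ^ 2) ?_ (Eventually.of_forall fun v => ?_)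
    · exact ((hSc.comp (by fun_prop : Continuous fun v : ℝ => t + v)).norm.pow
        2).aestronglyMeasurable
    · rw [norm_pow, norm_norm]
      exact pow_le_pow_left₀ (norm_nonneg _) (hSb _) 2
  -- the product
  have hprod : Integrable (fun p : ℝ × ℝ => Gw m p.2 * ‖Sm c (p.1 + p.2)‖ ^ 2)
      ((volume.restrict (Set.Ioc (-T) T)).prod volume) := by
    have h3 : Integrable (fun _ : ℝ => (1 : ℝ)) (volume.restrict (Set.Ioc (-T) T)) := by
      refine integrable_const_iff.2 (Or.inr ?_)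
      exact ⟨by simp⟩
    have h4 := h3.mul_prod ((Gw_integrable m).mul_const (B ^ 2))
    refine h4.mono' ?_ (Eventually.of_forall fun p => ?_)
    · refine Continuous.aestronglyMeasurable ?_
      exact ((Gw_continuous m).comp continuous_snd).mul
        ((hSc.comp (continuous_fst.add continuous_snd)).norm.pow 2)
    · rw [norm_mul, Real.norm_of_nonneg (Gw_nonneg m _), norm_pow, norm_norm, one_mul]
      exact mul_le_mul_of_nonneg_left (pow_le_pow_left₀ (norm_nonneg _) (hSb _) 2)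
        (Gw_nonneg m _)
  have hTT : -T ≤ T := by linarith
  rw [intervalIntegral.integral_of_le hTT]
  have s1 : ∫ t in Set.Ioc (-T) T, (∫ v, Gw m v * ‖Sm c (t + v)‖) ^ 2 ≤
      ∫ t in Set.Ioc (-T) T, Wt m * ∫ v, Gw m v * ‖Sm c (t + v)‖ ^ 2 := by
    refine integral_mono_of_nonneg (Eventually.of_forall fun t => by positivity) ?_
      (Eventually.of_forall fun t => cs_weight m (i1 t) (i2 t))
    exact (hprod.integral_prod_left).const_mul _
  refine s1.trans ?_
  rw [integral_const_mul]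
  have s2 : ∫ t in Set.Ioc (-T) T, ∫ v, Gw m v * ‖Sm c (t + v)‖ ^ 2 =
      ∫ v, ∫ t in Set.Ioc (-T) T, Gw m v * ‖Sm c (t + v)‖ ^ 2 :=
    integral_integral_swap hprod
  rw [s2]
  have s3 : ∀ v : ℝ, ∫ t in Set.Ioc (-T) T, Gw m v * ‖Sm c (t + v)‖ ^ 2 ≤
      C1 * Q * Gw (m + 1) v := by
    intro v
    rw [integral_const_mul, ← intervalIntegral.integral_of_le hTT]
    have h3 : ∫ t in (-T)..T, ‖Sm c (t + v)‖ ^ 2 = ∫ u in (-T + v)..(T + v), ‖Sm c u‖ ^ 2 :=
      intervalIntegral.integral_comp_add_right (fun u => ‖Sm c u‖ ^ 2) v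
    have h4 : ∫ u in (-T + v)..(T + v), ‖Sm c u‖ ^ 2 ≤
        ∫ u in (-(T + |v|))..(T + |v|), ‖Sm c u‖ ^ 2 := by
      refine intervalIntegral.integral_mono_interval ?_ ?_ ?_
        (Eventually.of_forall fun u => by simp only [Pi.zero_apply]; positivity) ?_
      · have := neg_abs_le v; linarith
      · linarith
      · have := le_abs_self v; linarith
      · exact (hSc.norm.pow 2).intervalIntegrable _ _
    have h5 := mvt_tsum (T := T + |v|) (by have := abs_nonneg v; linarith) c h0 hc (hTs _)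
    have h6 : ∑' n : ℕ, (T + |v| + n) * ‖c n‖ ^ 2 ≤ (1 + |v|) * Q := by
      rw [hQ, ← tsum_mul_left]
      refine (hTs _).tsum_le_tsum (fun n => ?_) ((hTs T).mul_left _)
      rw [← mul_assoc]
      refine mul_le_mul_of_nonneg_right ?_ (by positivity)
      have h7 := abs_nonneg v
      have h8 : (0 : ℝ) ≤ n := Nat.cast_nonneg n
      nlinarith
    have h7 : ∫ t in (-T)..T, ‖Sm c (t + v)‖ ^ 2 ≤ C1 * ((1 + |v|) * Q) := by
      rw [h3]
      refine h4.trans (h5.trans ?_)
      exact mul_le_mul_of_nonneg_left h6 C1_pos.le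
    calc Gw m v * ∫ t in (-T)..T, ‖Sm c (t + v)‖ ^ 2
        ≤ Gw m v * (C1 * ((1 + |v|) * Q)) := mul_le_mul_of_nonneg_left h7 (Gw_nonneg m v)
      _ = C1 * Q * (Gw m v * (1 + |v|) ^ 1) := by ring
      _ = _ := by rw [Gw_mul]
  have s4 : ∫ v, ∫ t in Set.Ioc (-T) T, Gw m v * ‖Sm c (t + v)‖ ^ 2 ≤ C1 * Q * Wt (m + 1) := by
    unfold Wt
    rw [← integral_const_mul]
    refine integral_mono_of_nonneg (Eventually.of_forall fun v => ?_)
      ((Gw_integrable (m + 1)).const_mul _) (Eventually.of_forall s3)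
    simp only [Pi.zero_apply]
    exact integral_nonneg fun t => mul_nonneg (Gw_nonneg m v) (by positivity)
  calc Wt m * ∫ v, ∫ t in Set.Ioc (-T) T, Gw m v * ‖Sm c (t + v)‖ ^ 2
      ≤ Wt m * (C1 * Q * Wt (m + 1)) := mul_le_mul_of_nonneg_left s4 (Wt_pos m).le
    _ = _ := by ring

end Pool.Agent.ZP
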