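import Mathlib

/-!
# The inequality of Weyl and van der Corput
-/

set_option autoImplicit false

namespace Pool.Agent.ZP

open Complex Finset

/-- the correlation -/
noncomputable def corr (z : ℕ → ℂ) (L r : ℕ) : ℝ :=
  ‖∑ n ∈ range (L - r), z (n + r) * starRingEnd ℂ (z n)‖

/-- the shifted sequence -/
noncomputable def Yv (z : ℕ → ℂ) (L m h : ℕ) : ℂ :=
  if h ≤ m ∧ m < h + L then z (m - h) else 0

theorem sum_shift (F : ℕ → ℂ) (K h N : ℕ) (hN : h + K ≤ N) :
    ∑ m ∈ range N, (if h ≤ m ∧ m < h + K then F (m - h) else 0) = ∑ n ∈ range K, F n := by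
  rw [← sum_filter]
  symm
  refine sum_bij (fun n _ => h + n) ?_ ?_ ?_ ?_
  · intro n hn
    rw [mem_range] at hn
    rw [mem_filter, mem_range]
    omega
  · intro x _ y _ hxy
    omega
  · intro m hm
    rw [mem_filter, mem_range] at hm
    refine ⟨m - h, ?_, ?_⟩
    · rw [mem_range]; omega
    · omega
  · intro n _
    rw [Nat.add_sub_cancel_left]

theorem sum_Yv (z : ℕ → ℂ) (L H h : ℕ) (hh : h < H) :
    ∑ m ∈ range (L + H), Yv z L m h = ∑ n ∈ range L, z n := by
  unfold Yv
  exact sum_shift z L h (L + H) (by omega)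

theorem Yv_corr (z : ℕ → ℂ) (L H h h' : ℕ) (hh : h < H) (h1 : h' ≤ h) :
    ‖∑ m ∈ range (L + H), Yv z L m h * starRingEnd ℂ (Yv z L m h')‖ = corr z L (h - h') := by
  have e : ∀ m, Yv z L m h * starRingEnd ℂ (Yv z L m h') =
      if h ≤ m ∧ m < h + (L - (h - h')) then
        (fun n => z n * starRingEnd ℂ (z (n + (h - h')))) (m - h) else 0 := by
    intro m
    unfold Yv
    by_cases h2 : h ≤ m ∧ m < h + (L - (h - h'))
    · rw [if_pos h2, if_pos (by omega), if_pos (by omega)]
      simp only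
      congr 3
      omega
    · rw [if_neg h2]
      by_cases h3 : h ≤ m ∧ m < h + L
      · have h4 : ¬ (h' ≤ m ∧ m < h' + L) := by omega
        rw [if_neg h4, map_zero, mul_zero]
      · rw [if_neg h3, zero_mul]
  simp_rw [e]
  rw [sum_shift (fun n => z n * starRingEnd ℂ (z (n + (h - h')))) _ h _ (by omega)]
  unfold corr
  rw [← RCLike.norm_conj, map_sum]
  congr 1
  refine sum_congr rfl fun n _ => ?_
  rw [map_mul, Complex.conj_conj, mul_comm]

theorem Yv_corr' (z : ℕ → ℂ) (L H h h' : ℕ) (hh : h < H) (hh' : h' < H) :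
    ‖∑ m ∈ range (L + H), Yv z L m h * starRingEnd ℂ (Yv z L m h')‖ =
      corr z L (max h h' - min h h') := by
  rcases le_total h' h with h1 | h1
  · rw [max_eq_left h1, min_eq_right h1]
    exact Yv_corr z L H h h' hh h1
  · rw [max_eq_right h1, min_eq_left h1, ← Yv_corr z L H h' h hh' h1, ← RCLike.norm_conj, map_sum]
    congr 1
    refine sum_congr rfl fun n _ => ?_
    rw [map_mul, Complex.conj_conj, mul_comm]

theorem sum_dist (g : ℕ → ℝ) (hg : ∀ r, 0 ≤ g r) (H h : ℕ) (hh : h < H) :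
    ∑ h' ∈ range H, g (max h h' - min h h') ≤ g 0 + 2 * ∑ r ∈ Ico 1 H, g r := by
  rw [← sum_filter_add_sum_filter_not (range H) fun h' => h' = h,
    ← sum_filter_add_sum_filter_not ((range H).filter fun h' => ¬ h' = h) fun h' => h' < h]
  have h1 : ∑ h' ∈ (range H).filter (fun h' => h' = h), g (max h h' - min h h') = g 0 := by
    rw [sum_filter, sum_ite_eq' (range H) h, if_pos (mem_range.2 hh)]
    simp
  have h2 : ∑ h' ∈ ((range H).filter fun h' => ¬ h' = h).filter (fun h' => h' < h),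
      g (max h h' - min h h') ≤ ∑ r ∈ Ico 1 H, g r := by
    have e : ∑ h' ∈ ((range H).filter fun h' => ¬ h' = h).filter (fun h' => h' < h),
        g (max h h' - min h h') =
        ∑ r ∈ (((range H).filter fun h' => ¬ h' = h).filter (fun h' => h' < h)).image
          (fun h' => h - h'), g r := by
      rw [sum_image]
      · refine sum_congr rfl fun h' hh' => ?_
        have := (mem_filter.1 hh').2
        rw [max_eq_left this.le, min_eq_right this.le]
      · intro x hx y hy hxy
        have hx' := (mem_filter.1 (mem_coe.1 hx)).2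
        have hy' := (mem_filter.1 (mem_coe.1 hy)).2
        simp only at hxy
        omega
    rw [e]
    refine sum_le_sum_of_subset_of_nonneg ?_ fun r _ _ => hg r
    intro r hr
    rw [mem_image] at hr
    obtain ⟨h', hh', rfl⟩ := hr
    have := (mem_filter.1 hh').2
    rw [mem_Ico]
    omega
  have h3 : ∑ h' ∈ ((range H).filter fun h' => ¬ h' = h).filter (fun h' => ¬ h' < h),
      g (max h h' - min h h') ≤ ∑ r ∈ Ico 1 H, g r := by
    have e : ∑ h' ∈ ((range H).filter fun h' => ¬ h' = h).filter (fun h' => ¬ h' < h),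
        g (max h h' - min h h') =
        ∑ r ∈ (((range H).filter fun h' => ¬ h' = h).filter (fun h' => ¬ h' < h)).image
          (fun h' => h' - h), g r := by
      rw [sum_image]
      · refine sum_congr rfl fun h' hh' => ?_
        have := (mem_filter.1 hh').2
        rw [max_eq_right (by omega), min_eq_left (by omega)]
      · intro x hx y hy hxy
        have hx' := (mem_filter.1 (mem_coe.1 hx)).2
        have hy' := (mem_filter.1 (mem_coe.1 hy)).2
        simp only at hxy
        omega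
    rw [e]
    refine sum_le_sum_of_subset_of_nonneg ?_ fun r _ _ => hg r
    intro r hr
    rw [mem_image] at hr
    obtain ⟨h', hh', rfl⟩ := hr
    have h4 := (mem_filter.1 hh').2
    have h5 := (mem_filter.1 (mem_filter.1 hh').1)
    have h6 := mem_range.1 h5.1
    have h7 := h5.2
    rw [mem_Ico]
    omega
  linarith

/-- The inequality of Weyl and van der Corput. -/
theorem vdc_ineq (z : ℕ → ℂ) (hz : ∀ n, ‖z n‖ ≤ 1) (L H : ℕ) (hH : 1 ≤ H) :
    (H : ℝ) * ‖∑ n ∈ range L, z n‖ ^ 2 ≤ (L + H) * (L + 2 * ∑ r ∈ Ico 1 H, corr z L r) := by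
  set S := ∑ n ∈ range L, z n with hS
  have hH0 : (0 : ℝ) < H := by exact_mod_cast hH
  have h1 : (H : ℂ) * S = ∑ m ∈ range (L + H), ∑ h ∈ range H, Yv z L m h := by
    rw [sum_comm, sum_congr rfl fun h hh => sum_Yv z L H h (mem_range.1 hh), sum_const, card_range,
      nsmul_eq_mul]
  have h2 : (H : ℝ) * ‖S‖ ≤ ∑ m ∈ range (L + H), ‖∑ h ∈ range H, Yv z L m h‖ := by
    have : (H : ℝ) * ‖S‖ = ‖(H : ℂ) * S‖ := by
      rw [norm_mul, Complex.norm_natCast]
    rw [this, h1]
    exact norm_sum_le _ _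
  have h3 : ((H : ℝ) * ‖S‖) ^ 2 ≤
      ((L : ℝ) + H) * ∑ m ∈ range (L + H), ‖∑ h ∈ range H, Yv z L m h‖ ^ 2 := by
    refine (pow_le_pow_left₀ (by positivity) h2 2).trans ?_
    have := sq_sum_le_card_mul_sum_sq (s := range (L + H))
      (f := fun m => ‖∑ h ∈ range H, Yv z L m h‖)
    rw [card_range] at this
    push_cast at this
    exact this
  have h4 : ∑ m ∈ range (L + H), ‖∑ h ∈ range H, Yv z L m h‖ ^ 2 ≤
      ∑ h ∈ range H, ∑ h' ∈ range H,
        ‖∑ m ∈ range (L + H), Yv z L m h * starRingEnd ℂ (Yv z L m h')‖ := by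
    have e : ((∑ m ∈ range (L + H), ‖∑ h ∈ range H, Yv z L m h‖ ^ 2 : ℝ) : ℂ) =
        ∑ h ∈ range H, ∑ h' ∈ range H,
          ∑ m ∈ range (L + H), Yv z L m h * starRingEnd ℂ (Yv z L m h') := by
      rw [ofReal_sum]
      have e1 : ∀ m, ((‖∑ h ∈ range H, Yv z L m h‖ ^ 2 : ℝ) : ℂ) =
          ∑ h ∈ range H, ∑ h' ∈ range H, Yv z L m h * starRingEnd ℂ (Yv z L m h') := by
        intro m
        rw [← Complex.normSq_eq_norm_sq, ← Complex.mul_conj, map_sum, sum_mul_sum]
      simp_rw [e1]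
      rw [sum_comm]
      refine sum_congr rfl fun h _ => ?_
      rw [sum_comm]
    have h5 : ∑ m ∈ range (L + H), ‖∑ h ∈ range H, Yv z L m h‖ ^ 2 ≤
        ‖((∑ m ∈ range (L + H), ‖∑ h ∈ range H, Yv z L m h‖ ^ 2 : ℝ) : ℂ)‖ := by
      rw [Complex.norm_real]
      exact le_abs_self _
    refine h5.trans ?_
    rw [e]
    exact (norm_sum_le _ _).trans (sum_le_sum fun h _ => norm_sum_le _ _)
  have h5 : ∑ h ∈ range H, ∑ h' ∈ range H,
        ‖∑ m ∈ range (L + H), Yv z L m h * starRingEnd ℂ (Yv z L m h')‖ ≤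
      H * (L + 2 * ∑ r ∈ Ico 1 H, corr z L r) := by
    have h6 : ∀ h ∈ range H, ∑ h' ∈ range H,
        ‖∑ m ∈ range (L + H), Yv z L m h * starRingEnd ℂ (Yv z L m h')‖ ≤
        L + 2 * ∑ r ∈ Ico 1 H, corr z L r := by
      intro h hh
      rw [mem_range] at hh
      rw [sum_congr rfl fun h' hh' => Yv_corr' z L H h h' hh (mem_range.1 hh')]
      refine (sum_dist (fun r => corr z L r) (fun r => norm_nonneg _) H h hh).trans ?_
      have h7 : corr z L 0 ≤ L := by
        unfold corr
        refine (norm_sum_le _ _).trans ?_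
        have : ∀ n ∈ range (L - 0), ‖z (n + 0) * starRingEnd ℂ (z n)‖ ≤ 1 := by
          intro n _
          rw [norm_mul, RCLike.norm_conj, add_zero]
          have := hz n
          nlinarith [norm_nonneg (z n)]
        refine (sum_le_sum this).trans ?_
        simp
      linarith
    refine (sum_le_sum h6).trans (le_of_eq ?_)
    rw [sum_const, card_range, nsmul_eq_mul]
  have h6 : ((H : ℝ) * ‖S‖) ^ 2 ≤
      ((L : ℝ) + H) * (H * (L + 2 * ∑ r ∈ Ico 1 H, corr z L r)) :=
    h3.trans (mul_le_mul_of_nonneg_left (h4.trans h5) (by positivity))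
  have h7 : (H : ℝ) * (H * ‖S‖ ^ 2) ≤
      H * ((L + H) * (L + 2 * ∑ r ∈ Ico 1 H, corr z L r)) := by
    calc (H : ℝ) * (H * ‖S‖ ^ 2) = ((H : ℝ) * ‖S‖) ^ 2 := by ring
      _ ≤ _ := h6
      _ = _ := by ring
  exact le_of_mul_le_mul_left h7 hH0

end Pool.Agent.ZP
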