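import Pool.Agent.Lib_helper50.ZP.KL
import Pool.Agent.Lib_helper50.ZP.Weyl

/-!
# Exponential sums `∑ (m + β) ^ (- i τ)`
-/

set_option autoImplicit false

namespace Pool.Agent.ZP

open Complex Finset

/-- the phase -/
noncomputable def Fp (T β : ℝ) (m : ℕ) : ℝ := -(T * Real.log (m + β))

theorem log_ratio_ge {x : ℝ} (hx : 1 ≤ x) :
    1 / (x + 1) ^ 2 ≤ 2 * Real.log (x + 1) - Real.log (x + 2) - Real.log x := by
  have h1 : 0 < x + 1 := by linarith
  have h2 : 0 < x * (x + 2) := by nlinarith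
  have e : 2 * Real.log (x + 1) - Real.log (x + 2) - Real.log x =
      Real.log ((x + 1) ^ 2 / (x * (x + 2))) := by
    rw [Real.log_div (by positivity) h2.ne', Real.log_pow,
      Real.log_mul (by linarith) (by linarith)]
    push_cast
    ring
  rw [e]
  have h3 := Real.one_sub_inv_le_log_of_pos (x := (x + 1) ^ 2 / (x * (x + 2))) (by positivity)
  refine le_trans (le_of_eq ?_) h3
  rw [inv_div]
  field_simp
  ring

/-- the second derivative estimate -/
theorem block_second {T β : ℝ} (hT : 0 < T) (hβ0 : 0 ≤ β) (hβ1 : β ≤ 1) {A B : ℕ} (hA : 1 ≤ A)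
    (hB : B ≤ 2 * A) :
    ‖∑ m ∈ Ico A B, ee (Fp T β m)‖ ≤ (T / A + 2) * (3 + 6 * A / √T) := by
  have hA0 : (0 : ℝ) < A := by exact_mod_cast hA
  have hA1 : (1 : ℝ) ≤ A := by exact_mod_cast hA
  have hl : 0 < T / (4 * (A : ℝ) ^ 2) := by positivity
  have h := second_test (Fp T β) (a := A) (b := B) (l := T / (4 * (A : ℝ) ^ 2)) (V := T / A) hl
    (by positivity) ?_ ?_
  · refine h.trans (le_of_eq ?_)
    have e : √(T / (4 * (A : ℝ) ^ 2)) = √T / (2 * A) := by
      rw [Real.sqrt_div hT.le]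
      congr 1
      rw [show (4 : ℝ) * (A : ℝ) ^ 2 = (2 * A) ^ 2 by ring]
      exact Real.sqrt_sq (by positivity)
    rw [e]
    have : 0 < √T := Real.sqrt_pos.2 hT
    field_simp
    ring
  · intro n h1 h2
    have hn : (n : ℝ) + 2 ≤ 2 * A := by exact_mod_cast (by omega : n + 2 ≤ 2 * A)
    have hn1 : (A : ℝ) ≤ n := by exact_mod_cast h1
    set x : ℝ := n + β with hx
    have hx1 : 1 ≤ x := by linarith
    have h3 := log_ratio_ge hx1
    have e : Fp T β (n + 2) - Fp T β (n + 1) - (Fp T β (n + 1) - Fp T β n) =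
        T * (2 * Real.log (x + 1) - Real.log (x + 2) - Real.log x) := by
      unfold Fp
      push_cast
      have e1 : (n : ℝ) + 2 + β = x + 2 := by rw [hx]; ring
      have e2 : (n : ℝ) + 1 + β = x + 1 := by rw [hx]; ring
      rw [e1, e2]
      ring
    rw [e]
    have h4 : 1 / (4 * (A : ℝ) ^ 2) ≤ 1 / (x + 1) ^ 2 := by
      refine one_div_le_one_div_of_le (by positivity) ?_
      have : x + 1 ≤ 2 * A := by linarith
      nlinarith
    calc T / (4 * (A : ℝ) ^ 2) = T * (1 / (4 * (A : ℝ) ^ 2)) := by ring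
      _ ≤ _ := mul_le_mul_of_nonneg_left (h4.trans h3) hT.le
  · intro n h1 h2
    have hn1 : (A : ℝ) ≤ n := by exact_mod_cast h1
    have h3 : Fp T β (n + 1) - Fp T β n ≤ 0 := by
      unfold Fp
      push_cast
      have : Real.log (n + β) ≤ Real.log (n + 1 + β) :=
        Real.log_le_log (by linarith) (by linarith)
      nlinarith
    have h4 : -(Fp T β (A + 1) - Fp T β A) ≤ T / A := by
      unfold Fp
      push_cast
      have h5 : Real.log (A + 1 + β) - Real.log (A + β) ≤ 1 / A := by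
        rw [← Real.log_div (by linarith) (by linarith)]
        have h6 := Real.log_le_sub_one_of_pos (x := (A + 1 + β) / (A + β)) (by
          apply div_pos <;> linarith)
        refine h6.trans ?_
        have h7 : (A + 1 + β) / (A + β) - 1 = 1 / (A + β) := by
          have : (A : ℝ) + β ≠ 0 := by linarith
          field_simp
          ring
        rw [h7]
        exact one_div_le_one_div_of_le hA0 (by linarith)
      calc -(-(T * Real.log (A + 1 + β)) - -(T * Real.log (A + β))) =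
            T * (Real.log (A + 1 + β) - Real.log (A + β)) := by ring
        _ ≤ T * (1 / A) := mul_le_mul_of_nonneg_left h5 hT.le
        _ = T / A := by ring
    linarith

theorem psi_diff {x r : ℝ} (hx : 1 ≤ x) (hr : 0 ≤ r) :
    r / ((x + 1) ^ 2 * (x + r + 1)) ≤
      (2 * Real.log (x + 1) - Real.log (x + 2) - Real.log x) -
      (2 * Real.log (x + r + 1) - Real.log (x + r + 2) - Real.log (x + r)) := by
  have h1 : 0 < x + 1 := by linarith
  have h2 : 0 < x * (x + 2) := by nlinarith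
  have h3 : 0 < x + r + 1 := by linarith
  have h4 : 0 < (x + r) * (x + r + 2) := by nlinarith
  have e : (2 * Real.log (x + 1) - Real.log (x + 2) - Real.log x) -
      (2 * Real.log (x + r + 1) - Real.log (x + r + 2) - Real.log (x + r)) =
      Real.log (((x + 1) ^ 2 * ((x + r) * (x + r + 2))) / ((x * (x + 2)) * (x + r + 1) ^ 2)) := by
    rw [Real.log_div (by positivity) (by positivity), Real.log_mul (by positivity) h4.ne',
      Real.log_mul h2.ne' (by positivity), Real.log_pow, Real.log_pow,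
      Real.log_mul (by linarith) (by linarith), Real.log_mul (by linarith) (by linarith)]
    push_cast
    ring
  rw [e]
  have h5 := Real.one_sub_inv_le_log_of_pos
    (x := ((x + 1) ^ 2 * ((x + r) * (x + r + 2))) / ((x * (x + 2)) * (x + r + 1) ^ 2))
    (by positivity)
  refine le_trans ?_ h5
  rw [inv_div]
  have e2 : 1 - x * (x + 2) * (x + r + 1) ^ 2 / ((x + 1) ^ 2 * ((x + r) * (x + r + 2))) =
      (r * (2 * x + 2 + r)) / ((x + 1) ^ 2 * ((x + r) * (x + r + 2))) := by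
    rw [eq_div_iff (by positivity), sub_mul, div_mul_cancel₀ _ (by positivity)]
    ring
  rw [e2, div_le_div_iff₀ (by positivity) (by positivity)]
  have h6 : (x + r) * (x + r + 2) ≤ (x + r + 1) ^ 2 := by nlinarith
  have h7 : x + r + 1 ≤ 2 * x + 2 + r := by linarith
  have h8 : 0 ≤ r * (x + 1) ^ 2 := by positivity
  have h9 : (x + r) * (x + r + 2) ≤ (2 * x + 2 + r) * (x + r + 1) := by nlinarith
  calc r * ((x + 1) ^ 2 * ((x + r) * (x + r + 2)))
      = (r * (x + 1) ^ 2) * ((x + r) * (x + r + 2)) := by ring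
    _ ≤ (r * (x + 1) ^ 2) * ((2 * x + 2 + r) * (x + r + 1)) := mul_le_mul_of_nonneg_left h9 h8
    _ = _ := by ring

/-- the correlations -/
theorem block_corr {T β : ℝ} (hT : 0 < T) (hβ0 : 0 ≤ β) (hβ1 : β ≤ 1) {A L r : ℕ} (hA : 1 ≤ A)
    (hL : L ≤ A) (hr : 1 ≤ r) :
    corr (fun n => ee (Fp T β (A + n))) L r ≤
      (T * r / (A : ℝ) ^ 2 + 2) * (3 + 9 * (A * √A) / √(T * r)) := by
  have hA0 : (0 : ℝ) < A := by exact_mod_cast hA
  have hA1 : (1 : ℝ) ≤ A := by exact_mod_cast hA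
  have hr0 : (0 : ℝ) < r := by exact_mod_cast hr
  set G : ℕ → ℝ := fun n => -(Fp T β (A + (n + r)) - Fp T β (A + n)) with hG
  have hcorr : corr (fun n => ee (Fp T β (A + n))) L r = ‖∑ n ∈ Ico 0 (L - r), ee (G n)‖ := by
    unfold corr
    rw [← RCLike.norm_conj, map_sum, range_eq_Ico]
    congr 1
    refine sum_congr rfl fun n _ => ?_
    simp only [hG]
    rw [ee_neg, sub_eq_add_neg, ee_add, ee_neg]
  rw [hcorr]
  have hl : 0 < T * r / (8 * (A : ℝ) ^ 3) := by positivity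
  have h := second_test G (a := 0) (b := L - r) (l := T * r / (8 * (A : ℝ) ^ 3))
    (V := T * r / (A : ℝ) ^ 2) hl (by positivity) ?_ ?_
  · refine h.trans ?_
    refine mul_le_mul_of_nonneg_left ?_ (by positivity)
    have hTr : 0 < T * r := by positivity
    have e : √(T * r / (8 * (A : ℝ) ^ 3)) = √(T * r) / √(8 * (A : ℝ) ^ 3) :=
      Real.sqrt_div hTr.le _
    have e2 : √(8 * (A : ℝ) ^ 3) ≤ 3 * (A * √A) := by
      rw [Real.sqrt_le_left (by positivity)]
      have : √(A : ℝ) ^ 2 = A := Real.sq_sqrt hA0.le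
      have e3 : (3 * ((A : ℝ) * √A)) ^ 2 = 9 * (A : ℝ) ^ 3 := by
        rw [mul_pow, mul_pow, this]
        ring
      rw [e3]
      have : (0 : ℝ) ≤ (A : ℝ) ^ 3 := by positivity
      linarith
    have h3 : 3 / √(T * r / (8 * (A : ℝ) ^ 3)) ≤ 9 * (A * √A) / √(T * r) := by
      rw [e, div_div_eq_mul_div]
      refine div_le_div_of_nonneg_right ?_ (Real.sqrt_nonneg _)
      linarith
    linarith
  · intro n _ h2
    have hnr : n + r + 1 < L := by omega
    set x : ℝ := ((A + n : ℕ) : ℝ) + β with hx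
    have hx1 : 1 ≤ x := by
      rw [hx]
      push_cast
      have : (0 : ℝ) ≤ n := Nat.cast_nonneg n
      linarith
    have h3 := psi_diff hx1 hr0.le
    have e : G (n + 2) - G (n + 1) - (G (n + 1) - G n) =
        T * ((2 * Real.log (x + 1) - Real.log (x + 2) - Real.log x) -
      (2 * Real.log (x + r + 1) - Real.log (x + r + 2) - Real.log (x + r))) := by
      simp only [hG]
      unfold Fp
      push_cast
      have e1 : (A : ℝ) + (n + 2 + r) + β = x + r + 2 := by rw [hx]; push_cast; ring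
      have e2 : (A : ℝ) + (n + 1 + r) + β = x + r + 1 := by rw [hx]; push_cast; ring
      have e3 : (A : ℝ) + (n + r) + β = x + r := by rw [hx]; push_cast; ring
      have e4 : (A : ℝ) + (n + 2) + β = x + 2 := by rw [hx]; push_cast; ring
      have e5 : (A : ℝ) + (n + 1) + β = x + 1 := by rw [hx]; push_cast; ring
      have e6 : (A : ℝ) + n + β = x := by rw [hx]; push_cast; ring
      rw [e1, e2, e3, e4, e5, e6]
      ring
    rw [e]
    have hb : x + r + 1 ≤ 2 * A := by
      rw [hx]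
      have : ((A + n + r + 1 + 1 : ℕ) : ℝ) ≤ ((2 * A : ℕ) : ℝ) := by exact_mod_cast (by omega)
      push_cast at this ⊢
      linarith
    have h4 : (r : ℝ) / (8 * (A : ℝ) ^ 3) ≤ r / ((x + 1) ^ 2 * (x + r + 1)) := by
      refine div_le_div_of_nonneg_left hr0.le (by positivity) ?_
      have h5 : x + 1 ≤ 2 * A := by linarith
      have h6 : (x + 1) ^ 2 ≤ (2 * A) ^ 2 := pow_le_pow_left₀ (by linarith) h5 2
      calc (x + 1) ^ 2 * (x + r + 1) ≤ (2 * A) ^ 2 * (2 * A) :=
            mul_le_mul h6 hb (by linarith) (by positivity)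
        _ = 8 * (A : ℝ) ^ 3 := by ring
    calc T * r / (8 * (A : ℝ) ^ 3) = T * (r / (8 * (A : ℝ) ^ 3)) := by ring
      _ ≤ _ := mul_le_mul_of_nonneg_left (h4.trans h3) hT.le
  · intro n _ h2
    -- the first differences of `-G` are nonnegative
    have hfirst : ∀ n : ℕ, 0 ≤ -(G (n + 1) - G n) ∧
        -(G (n + 1) - G n) ≤ T * r / (A : ℝ) ^ 2 := by
      intro n
      set x : ℝ := ((A + n : ℕ) : ℝ) + β with hx
      have hxA : (A : ℝ) ≤ x := by
        rw [hx]
        push_cast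
        have : (0 : ℝ) ≤ n := Nat.cast_nonneg n
        linarith
      have hx0 : 0 < x := by linarith
      have e : -(G (n + 1) - G n) = T * (Real.log (x + r) + Real.log (x + 1) -
          (Real.log x + Real.log (x + r + 1))) := by
        simp only [hG]
        unfold Fp
        push_cast
        have e2 : (A : ℝ) + (n + 1 + r) + β = x + r + 1 := by rw [hx]; push_cast; ring
        have e3 : (A : ℝ) + (n + r) + β = x + r := by rw [hx]; push_cast; ring
        have e5 : (A : ℝ) + (n + 1) + β = x + 1 := by rw [hx]; push_cast; ring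
        have e6 : (A : ℝ) + n + β = x := by rw [hx]; push_cast; ring
        rw [e2, e3, e5, e6]
        ring
      have e7 : Real.log (x + r) + Real.log (x + 1) - (Real.log x + Real.log (x + r + 1)) =
          Real.log (((x + r) * (x + 1)) / (x * (x + r + 1))) := by
        rw [Real.log_div (by positivity) (by positivity), Real.log_mul (by linarith) (by linarith),
          Real.log_mul hx0.ne' (by linarith)]
      rw [e, e7]
      have e8 : ((x + r) * (x + 1)) / (x * (x + r + 1)) = 1 + r / (x * (x + r + 1)) := by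
        field_simp
        ring
      rw [e8]
      have h0 : 0 ≤ (r : ℝ) / (x * (x + r + 1)) := by positivity
      constructor
      · exact mul_nonneg hT.le (Real.log_nonneg (by linarith))
      · have h3 := Real.log_le_sub_one_of_pos (x := 1 + r / (x * (x + r + 1))) (by linarith)
        have h4 : (r : ℝ) / (x * (x + r + 1)) ≤ r / (A : ℝ) ^ 2 := by
          refine div_le_div_of_nonneg_left hr0.le (by positivity) ?_
          nlinarith
        calc T * Real.log (1 + r / (x * (x + r + 1))) ≤ T * (r / (A : ℝ) ^ 2) :=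
              mul_le_mul_of_nonneg_left (by linarith) hT.le
          _ = _ := by ring
    have h3 := hfirst n
    have h4 := hfirst 0
    simp only [zero_add] at h4 ⊢
    linarith [h3.1, h4.2]

theorem sum_inv_sqrt (H : ℕ) : ∑ r ∈ Ico 1 (H + 1), 1 / √(r : ℝ) ≤ 2 * √H := by
  induction H with
  | zero => simp
  | succ H ih =>
    rw [sum_Ico_succ_top (by omega)]
    have hH : (0 : ℝ) ≤ H := Nat.cast_nonneg H
    have h1 : 0 < √((H + 1 : ℕ) : ℝ) := Real.sqrt_pos.2 (by push_cast; linarith)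
    have h2 : √(H : ℝ) ≤ √((H + 1 : ℕ) : ℝ) := Real.sqrt_le_sqrt (by push_cast; linarith)
    have h3 : √((H + 1 : ℕ) : ℝ) ^ 2 = H + 1 := by
      rw [Real.sq_sqrt (by positivity)]
      push_cast
      ring
    have h4 : √(H : ℝ) ^ 2 = H := Real.sq_sqrt hH
    have h5 : 1 / √((H + 1 : ℕ) : ℝ) ≤ 2 * (√((H + 1 : ℕ) : ℝ) - √(H : ℝ)) := by
      rw [div_le_iff₀ h1]
      have h0 := Real.sqrt_nonneg (H : ℝ)
      nlinarith
    linarith

/-- The block estimate. -/
theorem block_bound {c β : ℝ} (hc : 1 ≤ c) (hβ0 : 0 ≤ β) (hβ1 : β ≤ 1) {A B : ℕ} (hA : 1 ≤ A)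
    (hB : B ≤ 2 * A) :
    ‖∑ m ∈ Ico A B, ee (Fp (c ^ 6) β m)‖ ≤ 18 * (√A * c + A / c ^ 3) := by
  have hA0 : (0 : ℝ) < A := by exact_mod_cast hA
  have hA1 : (1 : ℝ) ≤ A := by exact_mod_cast hA
  have hc0 : 0 < c := by linarith
  have hsA : 0 < √(A : ℝ) := Real.sqrt_pos.2 hA0
  have hsA2 : √(A : ℝ) ^ 2 = A := Real.sq_sqrt hA0.le
  have hT : 0 < c ^ 6 := by positivity
  have hdiv : 0 ≤ (A : ℝ) / c ^ 3 := by positivity
  rcases Nat.lt_or_ge B A with hBA | hBA
  · rw [Ico_eq_empty (by omega), sum_empty, norm_zero]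
    positivity
  have hBA' : ((B - A : ℕ) : ℝ) ≤ A := by exact_mod_cast (by omega : B - A ≤ A)
  rcases lt_or_ge (A : ℝ) (c ^ 2) with h1 | h1
  · -- trivial bound
    have h2 : ‖∑ m ∈ Ico A B, ee (Fp (c ^ 6) β m)‖ ≤ A := by
      refine (norm_sum_le _ _).trans ?_
      simp only [norm_ee, sum_const, Nat.card_Ico, nsmul_eq_mul, mul_one]
      exact hBA'
    have h3 : √(A : ℝ) ≤ c := by
      rw [Real.sqrt_le_left hc0.le]
      exact h1.le
    nlinarith
  rcases lt_or_ge (A : ℝ) (c ^ 4) with h2 | h2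
  swap
  · -- second derivative
    have h3 := block_second hT hβ0 hβ1 hA hB
    have h4 : √(c ^ 6) = c ^ 3 := by
      rw [show c ^ 6 = (c ^ 3) ^ 2 by ring]
      exact Real.sqrt_sq (by positivity)
    rw [h4] at h3
    refine h3.trans ?_
    have h5 : c ^ 2 ≤ √(A : ℝ) := by
      rw [Real.le_sqrt' (by positivity)]
      have : (c ^ 2) ^ 2 = c ^ 4 := by ring
      rw [this]
      exact h2
    have h6 : c ^ 6 / A ≤ √A * c := by
      rw [div_le_iff₀ hA0]
      have h7 : c ^ 3 ≤ √A * c := by nlinarith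
      have h8 : c ^ 3 ≤ A := by
        have : c ^ 3 ≤ c ^ 4 := pow_le_pow_right₀ hc (by norm_num)
        linarith
      calc c ^ 6 = c ^ 3 * c ^ 3 := by ring
        _ ≤ (√A * c) * A := mul_le_mul h7 h8 (by positivity) (by positivity)
    have h7 : 1 ≤ √A * c := by
      have : 1 ≤ √(A : ℝ) := by
        rw [Real.one_le_sqrt]; exact hA1
      nlinarith
    have h8 : c ^ 6 / A * (6 * A / c ^ 3) = 6 * c ^ 3 := by
      field_simp
    have h9 : c ^ 3 ≤ √A * c := by nlinarith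
    calc (c ^ 6 / A + 2) * (3 + 6 * A / c ^ 3)
        = 3 * (c ^ 6 / A) + c ^ 6 / A * (6 * A / c ^ 3) + 6 + 12 * (A / c ^ 3) := by ring
      _ = 3 * (c ^ 6 / A) + 6 * c ^ 3 + 6 + 12 * (A / c ^ 3) := by rw [h8]
      _ ≤ 3 * (√A * c) + 6 * (√A * c) + 6 * (√A * c) + 12 * (A / c ^ 3) := by linarith
      _ ≤ _ := by nlinarith
  · -- van der Corput differencing
    set L := B - A with hL
    have hLA : L ≤ A := by omega
    set z : ℕ → ℂ := fun n => ee (Fp (c ^ 6) β (A + n)) with hz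
    have hS : ∑ m ∈ Ico A B, ee (Fp (c ^ 6) β m) = ∑ n ∈ range L, z n := by
      rw [sum_Ico_eq_sum_range]
    rw [hS]
    set H := ⌊(A : ℝ) / c ^ 2⌋₊ with hH
    have hAc : 1 ≤ (A : ℝ) / c ^ 2 := by
      rw [le_div_iff₀ (by positivity)]
      linarith
    have hH1 : 1 ≤ H := by
      rw [hH]
      exact (Nat.one_le_floor_iff _).2 hAc
    have hHle : (H : ℝ) ≤ A / c ^ 2 := Nat.floor_le (by positivity)
    have hHge : A / c ^ 2 ≤ 2 * H := by
      have h3 := Nat.lt_floor_add_one ((A : ℝ) / c ^ 2)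
      rw [← hH] at h3
      have h4 : (1 : ℝ) ≤ H := by exact_mod_cast hH1
      linarith
    have hH0 : (0 : ℝ) < H := by exact_mod_cast hH1
    have hHA : (H : ℝ) ≤ A := by
      refine hHle.trans (div_le_self hA0.le ?_)
      exact one_le_pow₀ hc
    have hv := vdc_ineq z (fun n => (norm_ee _).le) L H hH1
    have hsH : 0 < √(H : ℝ) := Real.sqrt_pos.2 hH0
    have hsH2 : √(H : ℝ) ^ 2 = H := Real.sq_sqrt hH0.le
    -- the sum of the correlations
    have hcs : ∑ r ∈ Ico 1 H, corr z L r ≤ 3 * c ^ 6 * (H : ℝ) ^ 2 / (A : ℝ) ^ 2 + 6 * H +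
        9 * (c ^ 3 / √A * (H * √H)) + 36 * (A * √A / c ^ 3 * √H) := by
      have h3 : ∀ r ∈ Ico 1 H, corr z L r ≤ 3 * c ^ 6 * H / (A : ℝ) ^ 2 + 6 +
          9 * (c ^ 3 / √A * √H) + 18 * (A * √A / c ^ 3) * (1 / √(r : ℝ)) := by
        intro r hr
        rw [mem_Ico] at hr
        have hr0 : (0 : ℝ) < r := by exact_mod_cast hr.1
        have hrH : (r : ℝ) ≤ H := by exact_mod_cast hr.2.le
        have hsr : 0 < √(r : ℝ) := Real.sqrt_pos.2 hr0
        have hsr2 : √(r : ℝ) ^ 2 = r := Real.sq_sqrt hr0.le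
        have h4 := block_corr hT hβ0 hβ1 (A := A) (L := L) (r := r) hA hLA hr.1
        refine h4.trans ?_
        have e1 : √(c ^ 6 * r) = c ^ 3 * √(r : ℝ) := by
          rw [Real.sqrt_mul (by positivity), show c ^ 6 = (c ^ 3) ^ 2 by ring,
            Real.sqrt_sq (by positivity)]
        rw [e1]
        have e2 : c ^ 6 * r / (A : ℝ) ^ 2 * (9 * (A * √A) / (c ^ 3 * √(r : ℝ))) =
            9 * (c ^ 3 / √A * √(r : ℝ)) := by
          have e3 : (A : ℝ) ^ 2 = A * √(A : ℝ) ^ 2 := by rw [hsA2]; ring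
          rw [e3]
          nth_rewrite 1 [← hsr2]
          field_simp
        have h5 : √(r : ℝ) ≤ √H := Real.sqrt_le_sqrt hrH
        have h6 : 9 * (c ^ 3 / √A * √(r : ℝ)) ≤ 9 * (c ^ 3 / √A * √H) := by gcongr
        have h7 : 3 * (c ^ 6 * r / (A : ℝ) ^ 2) ≤ 3 * c ^ 6 * H / (A : ℝ) ^ 2 := by
          have : c ^ 6 * r / (A : ℝ) ^ 2 ≤ c ^ 6 * H / (A : ℝ) ^ 2 := by gcongr
          calc 3 * (c ^ 6 * r / (A : ℝ) ^ 2) ≤ 3 * (c ^ 6 * H / (A : ℝ) ^ 2) := by linarith
            _ = _ := by ring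
        calc (c ^ 6 * r / (A : ℝ) ^ 2 + 2) * (3 + 9 * (A * √A) / (c ^ 3 * √(r : ℝ)))
            = 3 * (c ^ 6 * r / (A : ℝ) ^ 2) + 6 +
              c ^ 6 * r / (A : ℝ) ^ 2 * (9 * (A * √A) / (c ^ 3 * √(r : ℝ))) +
              2 * (9 * (A * √A) / (c ^ 3 * √(r : ℝ))) := by ring
          _ = 3 * (c ^ 6 * r / (A : ℝ) ^ 2) + 6 + 9 * (c ^ 3 / √A * √(r : ℝ)) +
              18 * (A * √A / c ^ 3) * (1 / √(r : ℝ)) := by
              rw [e2]
              congr 1
              field_simp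
              ring
          _ ≤ _ := by linarith
      refine (sum_le_sum h3).trans ?_
      rw [sum_add_distrib, sum_const, Nat.card_Ico, nsmul_eq_mul, ← mul_sum]
      have h4 : ∑ r ∈ Ico 1 H, 1 / √(r : ℝ) ≤ 2 * √H := by
        obtain ⟨H', hH'⟩ : ∃ H', H = H' + 1 := ⟨H - 1, by omega⟩
        have h5 := sum_inv_sqrt H'
        have h6 : √(H' : ℝ) ≤ √(H : ℝ) := Real.sqrt_le_sqrt (by
          rw [hH']; push_cast; linarith)
        rw [hH'] at h6 ⊢
        linarith
      have h5 : ((H - 1 : ℕ) : ℝ) ≤ H := by exact_mod_cast Nat.sub_le H 1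
      have h6 : 0 ≤ 3 * c ^ 6 * H / (A : ℝ) ^ 2 + 6 + 9 * (c ^ 3 / √A * √H) := by positivity
      have h7 : 0 ≤ 18 * (A * √A / c ^ 3) := by positivity
      calc ((H - 1 : ℕ) : ℝ) * (3 * c ^ 6 * H / (A : ℝ) ^ 2 + 6 + 9 * (c ^ 3 / √A * √H)) +
            18 * (A * √A / c ^ 3) * ∑ r ∈ Ico 1 H, 1 / √(r : ℝ)
          ≤ H * (3 * c ^ 6 * H / (A : ℝ) ^ 2 + 6 + 9 * (c ^ 3 / √A * √H)) +
            18 * (A * √A / c ^ 3) * (2 * √H) :=
            add_le_add (mul_le_mul_of_nonneg_right h5 h6) (mul_le_mul_of_nonneg_left h4 h7)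
        _ = _ := by ring
    -- the final computation
    have hLr : (L : ℝ) ≤ A := by exact_mod_cast hLA
    have h3 : (H : ℝ) * ‖∑ n ∈ range L, z n‖ ^ 2 ≤
        (2 * A) * (A + 2 * (3 * c ^ 6 * (H : ℝ) ^ 2 / (A : ℝ) ^ 2 + 6 * H +
        9 * (c ^ 3 / √A * (H * √H)) + 36 * (A * √A / c ^ 3 * √H))) := by
      refine hv.trans ?_
      refine mul_le_mul (by linarith) (by linarith) ?_ (by positivity)
      have : 0 ≤ ∑ r ∈ Ico 1 H, corr z L r := sum_nonneg fun r _ => norm_nonneg _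
      positivity
    -- √H in terms of √A
    have hsH3 : √(H : ℝ) ≤ √A / c := by
      rw [Real.sqrt_le_left (by positivity), div_pow, hsA2]
      exact hHle
    have hsH4 : √A / c ≤ √2 * √H := by
      rw [← Real.sqrt_mul (by norm_num)]
      refine Real.le_sqrt_of_sq_le ?_
      rw [div_pow, hsA2]
      exact hHge
    have hs2 : √(2 : ℝ) ≤ 3 / 2 := by
      rw [Real.sqrt_le_left (by norm_num)]
      norm_num
    have hsH5 : √A / c ≤ 3 / 2 * √H := hsH4.trans (mul_le_mul_of_nonneg_right hs2 hsH.le)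
    -- each term divided by `H`
    have t1 : (2 * A) * A ≤ H * (4 * (A * c ^ 2)) := by
      have : (A : ℝ) ≤ 2 * H * c ^ 2 := by
        rw [div_le_iff₀ (by positivity)] at hHge
        exact hHge
      nlinarith
    have t2 : (2 * A) * (2 * (3 * c ^ 6 * (H : ℝ) ^ 2 / (A : ℝ) ^ 2)) ≤
        H * (12 * (A * c ^ 2)) := by
      have e : (2 * (A : ℝ)) * (2 * (3 * c ^ 6 * (H : ℝ) ^ 2 / (A : ℝ) ^ 2)) =
          H * (12 * (c ^ 6 * (H / A))) := by
        field_simp
        ring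
      rw [e]
      have h4 : (H : ℝ) / A ≤ 1 / c ^ 2 := by
        rw [div_le_div_iff₀ hA0 (by positivity)]
        rw [le_div_iff₀ (by positivity)] at hHle
        linarith
      have h5 : c ^ 6 * ((H : ℝ) / A) ≤ A * c ^ 2 := by
        calc c ^ 6 * ((H : ℝ) / A) ≤ c ^ 6 * (1 / c ^ 2) := by gcongr
          _ = c ^ 2 * c ^ 2 := by field_simp
          _ ≤ A * c ^ 2 := by gcongr
      gcongr
    have t3 : (2 * A) * (2 * (6 * (H : ℝ))) ≤ H * (24 * (A * c ^ 2)) := by
      have h4 : (1 : ℝ) ≤ c ^ 2 := one_le_pow₀ hc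
      have h5 : (A : ℝ) ≤ A * c ^ 2 := by nlinarith
      calc (2 * A) * (2 * (6 * (H : ℝ))) = H * (24 * A) := by ring
        _ ≤ _ := by gcongr
    have t4 : (2 * A) * (2 * (9 * (c ^ 3 / √A * (H * √H)))) ≤ H * (36 * (A * c ^ 2)) := by
      have e : (2 * (A : ℝ)) * (2 * (9 * (c ^ 3 / √A * (H * √H)))) =
          H * (36 * ((A / √A) * c ^ 3 * √H)) := by
        ring
      rw [e]
      have e2 : (A : ℝ) / √A = √A := by
        rw [div_eq_iff hsA.ne', ← sq, hsA2]
      rw [e2]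
      have h4 : √(A : ℝ) * c ^ 3 * √H ≤ A * c ^ 2 := by
        calc √(A : ℝ) * c ^ 3 * √H ≤ √(A : ℝ) * c ^ 3 * (√A / c) := by gcongr
          _ = √(A : ℝ) ^ 2 * c ^ 2 := by field_simp
          _ = A * c ^ 2 := by rw [hsA2]
      gcongr
    have t5 : (2 * A) * (2 * (36 * (A * √A / c ^ 3 * √H))) ≤ H * (216 * (A ^ 2 / c ^ 2)) := by
      have e : (2 * (A : ℝ)) * (2 * (36 * (A * √A / c ^ 3 * √H))) =
          144 * (A ^ 2 / c ^ 2) * ((√A / c) * √H) := by
        field_simp
        ring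
      rw [e]
      have h4 : (√A / c) * √H ≤ 3 / 2 * H := by
        calc (√A / c) * √H ≤ (3 / 2 * √H) * √H := by gcongr
          _ = 3 / 2 * √(H : ℝ) ^ 2 := by ring
          _ = 3 / 2 * H := by rw [hsH2]
      calc 144 * ((A : ℝ) ^ 2 / c ^ 2) * ((√A / c) * √H)
          ≤ 144 * ((A : ℝ) ^ 2 / c ^ 2) * (3 / 2 * H) := by gcongr
        _ = _ := by ring
    have h4 : (H : ℝ) * ‖∑ n ∈ range L, z n‖ ^ 2 ≤
        H * (76 * (A * c ^ 2) + 216 * (A ^ 2 / c ^ 2)) := by
      refine h3.trans ?_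
      calc _ = (2 * A) * A + (2 * A) * (2 * (3 * c ^ 6 * (H : ℝ) ^ 2 / (A : ℝ) ^ 2)) +
            (2 * A) * (2 * (6 * (H : ℝ))) + (2 * A) * (2 * (9 * (c ^ 3 / √A * (H * √H)))) +
            (2 * A) * (2 * (36 * (A * √A / c ^ 3 * √H))) := by ring
        _ ≤ H * (4 * (A * c ^ 2)) + H * (12 * (A * c ^ 2)) + H * (24 * (A * c ^ 2)) +
            H * (36 * (A * c ^ 2)) + H * (216 * (A ^ 2 / c ^ 2)) := by linarith
        _ = _ := by ring
    have h5 : ‖∑ n ∈ range L, z n‖ ^ 2 ≤ 76 * (A * c ^ 2) + 216 * (A ^ 2 / c ^ 2) :=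
      le_of_mul_le_mul_left h4 hH0
    have h6 : (A : ℝ) ^ 2 / c ^ 2 ≤ A * c ^ 2 := by
      rw [div_le_iff₀ (by positivity)]
      nlinarith
    have h7 : ‖∑ n ∈ range L, z n‖ ^ 2 ≤ (18 * (√A * c)) ^ 2 := by
      have e : (18 * (√(A : ℝ) * c)) ^ 2 = 324 * (A * c ^ 2) := by
        rw [mul_pow, mul_pow, hsA2]
        ring
      rw [e]
      have : 0 ≤ (A : ℝ) * c ^ 2 := by positivity
      linarith
    have h8 : ‖∑ n ∈ range L, z n‖ ≤ 18 * (√A * c) := by
      exact (sq_le_sq₀ (norm_nonneg _) (by positivity)).1 h7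
    linarith

end Pool.Agent.ZP
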