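import Pool.Agent.Lib_helper50.ZP.Conv

/-!
# The second moment of the square, abstract form
-/

set_option autoImplicit false

namespace Pool.Agent.ZP

open Complex MeasureTheory Filter Topology Finset

theorem I_cont (m : ℕ) {c : ℕ → ℂ} (hc : Summable fun n => ‖c n‖) :
    Continuous fun t : ℝ => ∫ v, Gw m v * ‖Sm c (t + v)‖ := by
  have hSc := Sm_continuous hc
  refine continuous_of_dominated (bound := fun v => Gw m v * ∑' n, ‖c n‖) ?_ ?_ ?_ ?_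
  · intro t
    exact ((Gw_continuous m).mul (hSc.comp (by fun_prop)).norm).aestronglyMeasurable
  · intro t
    refine Eventually.of_forall fun v => ?_
    rw [norm_mul, Real.norm_of_nonneg (Gw_nonneg m v), norm_norm]
    exact mul_le_mul_of_nonneg_left (norm_Sm_le hc _) (Gw_nonneg m v)
  · exact (Gw_integrable m).mul_const _
  · refine Eventually.of_forall fun v => ?_
    exact continuous_const.mul (hSc.comp (by fun_prop)).norm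

/-- `ζ(1 + η)` -/
noncomputable def Zt (η : ℝ) : ℝ := ∑' n : ℕ, (n : ℝ) ^ (-(1 + η))

theorem Zt_summable {η : ℝ} (hη : 0 < η) : Summable fun n : ℕ => (n : ℝ) ^ (-(1 + η)) :=
  Real.summable_nat_rpow.2 (by linarith)

theorem Zt_nonneg (η : ℝ) : 0 ≤ Zt η := tsum_nonneg fun n => by positivity

theorem sq_coef {x : ℂ} {C r s : ℝ} {n : ℕ} (hn : 1 ≤ n) (hx : ‖x‖ ≤ C * (n : ℝ) ^ r)
    (hC : 0 ≤ C) : ‖x * (((n : ℝ) ^ (-s) : ℝ) : ℂ)‖ ^ 2 ≤ C ^ 2 * (n : ℝ) ^ (2 * r - 2 * s) := by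
  have hn0 : (0 : ℝ) < n := by exact_mod_cast hn
  rw [norm_mul, Complex.norm_real, Real.norm_of_nonneg (by positivity)]
  have h1 : ‖x‖ * (n : ℝ) ^ (-s) ≤ C * (n : ℝ) ^ (r - s) := by
    calc ‖x‖ * (n : ℝ) ^ (-s) ≤ (C * (n : ℝ) ^ r) * (n : ℝ) ^ (-s) :=
          mul_le_mul_of_nonneg_right hx (by positivity)
      _ = C * (n : ℝ) ^ (r - s) := by
          rw [mul_assoc, ← Real.rpow_add hn0, sub_eq_add_neg]
  calc (‖x‖ * (n : ℝ) ^ (-s)) ^ 2 ≤ (C * (n : ℝ) ^ (r - s)) ^ 2 :=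
        pow_le_pow_left₀ (by positivity) h1 2
    _ = C ^ 2 * (n : ℝ) ^ (2 * r - 2 * s) := by
        rw [mul_pow, ← Real.rpow_natCast ((n : ℝ) ^ (r - s)) 2, ← Real.rpow_mul hn0.le]
        congr 2
        push_cast
        ring

theorem head_term {a : ℕ → ℂ} {C η : ℝ} (hC : 0 ≤ C)
    (ha : ∀ n : ℕ, 1 ≤ n → ‖a n‖ ≤ C * (n : ℝ) ^ (η / 2)) {T : ℝ} (hT : 1 ≤ T) {N : ℕ}
    (hN : (N : ℝ) ≤ T) (n : ℕ) :
    (T + n) * ‖headS a N (1 / 2 + η) n‖ ^ 2 ≤ 2 * T * C ^ 2 * (n : ℝ) ^ (-(1 + η)) := by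
  unfold headS
  split_ifs with h
  · rw [Finset.mem_Icc] at h
    have h1 := sq_coef (s := 1 / 2 + η) h.1 (ha n h.1) hC
    have h2 : (n : ℝ) ≤ T := by
      have : (n : ℝ) ≤ N := by exact_mod_cast h.2
      linarith
    have e : 2 * (η / 2) - 2 * (1 / 2 + η) = -(1 + η) := by ring
    rw [e] at h1
    calc _ ≤ (2 * T) * (C ^ 2 * (n : ℝ) ^ (-(1 + η))) :=
          mul_le_mul (by linarith) h1 (by positivity) (by positivity)
      _ = _ := by ring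
  · rw [norm_zero]
    have : (0 : ℝ) ≤ (n : ℝ) ^ (-(1 + η)) := by positivity
    have hT0 : 0 ≤ T := by linarith
    simp only [ne_eq, OfNat.ofNat_ne_zero, not_false_eq_true, zero_pow, mul_zero]
    positivity

theorem Q_head {a : ℕ → ℂ} {C η : ℝ} (hC : 0 ≤ C) (hη : 0 < η)
    (ha : ∀ n : ℕ, 1 ≤ n → ‖a n‖ ≤ C * (n : ℝ) ^ (η / 2)) {T : ℝ} (hT : 1 ≤ T) {N : ℕ}
    (hN : (N : ℝ) ≤ T) :
    ∑' n : ℕ, (T + n) * ‖headS a N (1 / 2 + η) n‖ ^ 2 ≤ 2 * C ^ 2 * Zt η * T := by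
  have h1 := (Zt_summable hη).mul_left (2 * T * C ^ 2)
  have h2 : Summable fun n : ℕ => (T + n) * ‖headS a N (1 / 2 + η) n‖ ^ 2 :=
    h1.of_nonneg_of_le (fun n => by positivity) (head_term hC ha hT hN)
  refine (h2.tsum_le_tsum (head_term hC ha hT hN) h1).trans (le_of_eq ?_)
  rw [tsum_mul_left]
  unfold Zt
  ring

theorem tail_term {a : ℕ → ℂ} {C η : ℝ} (hC : 0 ≤ C) (hη1 : η ≤ 1 / 2)
    (ha : ∀ n : ℕ, 1 ≤ n → ‖a n‖ ≤ C * (n : ℝ) ^ (η / 2)) {T : ℝ} (hT : 1 ≤ T) {N : ℕ}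
    (hN : T ≤ N + 1) (n : ℕ) :
    (T + n) * ‖tailS a N n‖ ^ 2 ≤ 2 * C ^ 2 * T ^ (-1 + 2 * η) * (n : ℝ) ^ (-(1 + η)) := by
  unfold tailS
  split_ifs with h
  · rw [norm_zero]
    have : (0 : ℝ) ≤ (n : ℝ) ^ (-(1 + η)) := by positivity
    have hT0 : 0 ≤ T := by linarith
    simp only [ne_eq, OfNat.ofNat_ne_zero, not_false_eq_true, zero_pow, mul_zero]
    positivity
  · push Not at h
    have hn1 : 1 ≤ n := by omega
    have hn0 : (0 : ℝ) < n := by exact_mod_cast hn1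
    have h1 := sq_coef (s := 3 / 2) hn1 (ha n hn1) hC
    have h2 : T ≤ n := by
      have : ((N + 1 : ℕ) : ℝ) ≤ n := by exact_mod_cast h
      push_cast at this
      linarith
    have e : 2 * (η / 2) - 2 * (3 / 2) = (-1 + 2 * η) + (-(1 + η)) + (-1) := by ring
    rw [e, Real.rpow_add hn0, Real.rpow_add hn0, Real.rpow_neg_one] at h1
    have h3 : (n : ℝ) ^ (-1 + 2 * η) ≤ T ^ (-1 + 2 * η) :=
      Real.rpow_le_rpow_of_nonpos (by linarith) h2 (by linarith)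
    have h4 : (0 : ℝ) ≤ (n : ℝ) ^ (-(1 + η)) := by positivity
    calc (T + n) * ‖a n * (((n : ℝ) ^ (-(3 / 2) : ℝ) : ℝ) : ℂ)‖ ^ 2
        ≤ (2 * n) * (C ^ 2 * ((n : ℝ) ^ (-1 + 2 * η) * (n : ℝ) ^ (-(1 + η)) * (n : ℝ)⁻¹)) :=
          mul_le_mul (by linarith) h1 (by positivity) (by positivity)
      _ = 2 * C ^ 2 * (n : ℝ) ^ (-1 + 2 * η) * (n : ℝ) ^ (-(1 + η)) := by
          field_simp
      _ ≤ 2 * C ^ 2 * T ^ (-1 + 2 * η) * (n : ℝ) ^ (-(1 + η)) := by gcongr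

theorem Q_tail {a : ℕ → ℂ} {C η : ℝ} (hC : 0 ≤ C) (hη : 0 < η) (hη1 : η ≤ 1 / 2)
    (ha : ∀ n : ℕ, 1 ≤ n → ‖a n‖ ≤ C * (n : ℝ) ^ (η / 2)) {T : ℝ} (hT : 1 ≤ T) {N : ℕ}
    (hN : T ≤ N + 1) :
    ∑' n : ℕ, (T + n) * ‖tailS a N n‖ ^ 2 ≤ 2 * C ^ 2 * Zt η * T ^ (-1 + 2 * η) := by
  have h1 := (Zt_summable hη).mul_left (2 * C ^ 2 * T ^ (-1 + 2 * η))
  have h2 : Summable fun n : ℕ => (T + n) * ‖tailS a N n‖ ^ 2 :=
    h1.of_nonneg_of_le (fun n => by positivity) (tail_term hC hη1 ha hT hN)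
  refine (h2.tsum_le_tsum (tail_term hC hη1 ha hT hN) h1).trans (le_of_eq ?_)
  rw [tsum_mul_left]
  unfold Zt
  ring

theorem sum_sq4 (a b c d : ℝ) : (a + b + c + d) ^ 2 ≤ 4 * (a ^ 2 + b ^ 2 + c ^ 2 + d ^ 2) := by
  nlinarith [sq_nonneg (a - b), sq_nonneg (a - c), sq_nonneg (a - d), sq_nonneg (b - c),
    sq_nonneg (b - d), sq_nonneg (c - d)]

theorem tailS_zero (a : ℕ → ℂ) (N : ℕ) : tailS a N 0 = 0 := by
  unfold tailS
  rw [if_pos (Nat.zero_le _)]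

theorem headS_zero (a : ℕ → ℂ) (N : ℕ) (σ : ℝ) : headS a N σ 0 = 0 := by
  unfold headS
  rw [if_neg (by simp)]

/-- integrals with `Y` -/
theorem Y_piece {m k : ℕ} {Y : ℂ → ℂ} {K t x : ℝ} {c : ℕ → ℂ} (hc : Summable fun n => ‖c n‖)
    (hY : ∀ v : ℝ, ‖Y ((x : ℂ) + ((t + v : ℝ) : ℂ) * I)‖ ≤ K * (1 + |v|) ^ k) :
    ∫ v, Gw m v * (‖Y ((x : ℂ) + ((t + v : ℝ) : ℂ) * I)‖ * ‖Sm c (-(t + v))‖) ≤
      K * ∫ v, Gw (m + k) v * ‖Sm (fun n => starRingEnd ℂ (c n)) (t + v)‖ := by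
  have hc' : Summable fun n => ‖starRingEnd ℂ (c n)‖ := by
    simpa only [RCLike.norm_conj] using hc
  rw [← integral_const_mul]
  refine integral_mono_of_nonneg (Eventually.of_forall fun v => ?_) ?_
    (Eventually.of_forall fun v => ?_)
  · simp only [Pi.zero_apply]
    have := Gw_nonneg m v
    positivity
  · refine Integrable.const_mul ?_ _
    refine (Gw_integrable (m + k)).mul_bdd (c := ∑' n, ‖starRingEnd ℂ (c n)‖) ?_
      (Eventually.of_forall fun v => ?_)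
    · exact ((Sm_continuous hc').comp
        (by fun_prop : Continuous fun v : ℝ => t + v)).norm.aestronglyMeasurable
    · rw [norm_norm]; exact norm_Sm_le hc' _
  · simp only
    rw [norm_Sm_neg, ← Gw_mul]
    have h1 := mul_le_mul_of_nonneg_right (hY v)
      (norm_nonneg (Sm (fun n => starRingEnd ℂ (c n)) (t + v)))
    calc _ ≤ Gw m v * (K * (1 + |v|) ^ k * ‖Sm (fun n => starRingEnd ℂ (c n)) (t + v)‖) :=
          mul_le_mul_of_nonneg_left h1 (Gw_nonneg m v)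
      _ = _ := by ring

theorem Ypow {CY T η t v : ℝ} (hCY : 0 ≤ CY) (hT : 1 ≤ T) (ht : |t| ≤ T) (h0 : 0 ≤ η)
    (h1 : η ≤ 1) :
    CY * (1 + |t + v|) ^ (2 * η) ≤ CY * (2 * T) ^ (2 * η) * (1 + |v|) ^ 2 := by
  have h2 : 1 + |t + v| ≤ 2 * T * (1 + |v|) := by
    have := abs_add_le t v
    have := abs_nonneg v
    nlinarith
  have h3 : (1 + |t + v|) ^ (2 * η) ≤ (2 * T * (1 + |v|)) ^ (2 * η) :=
    Real.rpow_le_rpow (by positivity) h2 (by linarith)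
  have hv : 1 ≤ 1 + |v| := by
    have := abs_nonneg v
    linarith
  rw [Real.mul_rpow (by linarith) (by linarith)] at h3
  have h4 : (1 + |v|) ^ (2 * η) ≤ (1 + |v|) ^ 2 := by
    rw [← Real.rpow_natCast (1 + |v|) 2]
    exact Real.rpow_le_rpow_of_exponent_le hv (by push_cast; linarith)
  rw [mul_assoc]
  refine mul_le_mul_of_nonneg_left (h3.trans ?_) hCY
  exact mul_le_mul_of_nonneg_left h4 (Real.rpow_nonneg (by linarith) _)

theorem moment2 {D Y : ℂ → ℂ} {a b : ℕ → ℂ} (h : FEData 2 D Y a b) {CY : ℝ} (hCY : 0 ≤ CY)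
    (hY : ∀ η : ℝ, 0 ≤ η → η ≤ 1 → ∀ τ : ℝ,
      ‖Y (((1 / 2 - η : ℝ) : ℂ) + (τ : ℂ) * I)‖ ≤ CY * (1 + |τ|) ^ (2 * η))
    (ha : ∀ ε : ℝ, 0 < ε → ∃ C : ℝ, 0 ≤ C ∧ ∀ n : ℕ, 1 ≤ n → ‖a n‖ ≤ C * (n : ℝ) ^ ε)
    (hb : ∀ ε : ℝ, 0 < ε → ∃ C : ℝ, 0 ≤ C ∧ ∀ n : ℕ, 1 ≤ n → ‖b n‖ ≤ C * (n : ℝ) ^ ε)
    {ε : ℝ} (hε : 0 < ε) :
    ∃ C : ℝ, 0 ≤ C ∧ ∀ T : ℝ, 1 ≤ T →
      ∫ t in (-T)..T, (‖D (1 / 2 + t * I)‖ / ‖(-1 / 2 + t * I : ℂ)‖ ^ 2) ^ 2 ≤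
        C * T ^ (1 + ε) := by
  set η := min (ε / 2) (1 / 4) with hη
  have hη0 : 0 < η := by
    rw [hη]; positivity
  have hη1 : η ≤ 1 / 4 := min_le_right _ _
  have hη2 : 2 * η ≤ ε := by
    have : η ≤ ε / 2 := min_le_left _ _
    linarith
  obtain ⟨Ca, hCa, ha'⟩ := ha (η / 2) (by positivity)
  obtain ⟨Cb, hCb, hb'⟩ := hb (η / 2) (by positivity)
  set K0 := (3 : ℝ) ^ 2 * Real.exp 1 with hK0
  have hK0p : 0 < K0 := by positivity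
  set V2 := Wt 2 * Wt 3 * C1 with hV2
  set V4 := Wt 4 * Wt 5 * C1 with hV4
  have hV2p : 0 ≤ V2 := by
    have := Wt_pos 2
    have := Wt_pos 3
    have := C1_pos
    positivity
  have hV4p : 0 ≤ V4 := by
    have := Wt_pos 4
    have := Wt_pos 5
    have := C1_pos
    positivity
  have hZ := Zt_nonneg η
  set A := 4 * K0 ^ 2 * ((1 / η) ^ 2 * (V2 * (2 * Ca ^ 2 * Zt η)) + V2 * (2 * Ca ^ 2 * Zt η) +
    (1 / η) ^ 2 * CY ^ 2 * 4 * (V4 * (2 * Cb ^ 2 * Zt η)) +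
    CY ^ 2 * 16 * (V4 * (2 * Cb ^ 2 * Zt η))) with hA
  refine ⟨A, by positivity, fun T hT => ?_⟩
  have hT0 : 0 < T := by linarith
  set N := ⌊T⌋₊ with hN
  have hN1 : (N : ℝ) ≤ T := Nat.floor_le hT0.le
  have hN2 : T ≤ N + 1 := (Nat.lt_floor_add_one T).le
  -- the series
  set c1 := headS a N (1 / 2 + η) with hc1
  set c2 := tailS a N with hc2
  set c3 := fun n => starRingEnd ℂ (headS b N (1 / 2 + η) n) with hc3
  set c4 := fun n => starRingEnd ℂ (tailS b N n) with hc4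
  have s1 : Summable fun n => ‖c1 n‖ := headS_summable a N _
  have s2 : Summable fun n => ‖c2 n‖ := tailS_summable h.aS N
  have s3 : Summable fun n => ‖c3 n‖ := by
    simp only [hc3, RCLike.norm_conj]
    exact headS_summable b N _
  have s4 : Summable fun n => ‖c4 n‖ := by
    simp only [hc4, RCLike.norm_conj]
    exact tailS_summable h.bS N
  have q1 : ∑' n : ℕ, (T + n) * ‖c1 n‖ ^ 2 ≤ 2 * Ca ^ 2 * Zt η * T := Q_head hCa hη0 ha' hT hN1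
  have q2 : ∑' n : ℕ, (T + n) * ‖c2 n‖ ^ 2 ≤ 2 * Ca ^ 2 * Zt η * T ^ (-1 + 2 * η) :=
    Q_tail hCa hη0 (by linarith) ha' hT hN2
  have q3 : ∑' n : ℕ, (T + n) * ‖c3 n‖ ^ 2 ≤ 2 * Cb ^ 2 * Zt η * T := by
    simp only [hc3, RCLike.norm_conj]
    exact Q_head hCb hη0 hb' hT hN1
  have q4 : ∑' n : ℕ, (T + n) * ‖c4 n‖ ^ 2 ≤ 2 * Cb ^ 2 * Zt η * T ^ (-1 + 2 * η) := by
    simp only [hc4, RCLike.norm_conj]
    exact Q_tail hCb hη0 (by linarith) hb' hT hN2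
  have hsm : ∀ c : ℕ → ℂ, (∃ C : ℝ, ∀ n : ℕ, (T + n) * ‖c n‖ ^ 2 ≤ C * (n : ℝ) ^ (-(1 + η))) →
      Summable fun n : ℕ => (n : ℝ) * ‖c n‖ ^ 2 := by
    rintro c ⟨C, hC⟩
    refine ((Zt_summable hη0).mul_left C).of_nonneg_of_le (fun n => by positivity) fun n => ?_
    refine le_trans ?_ (hC n)
    exact mul_le_mul_of_nonneg_right (by linarith) (by positivity)
  have r1 := conv_bound 2 (headS_zero a N _) s1
    (hsm _ ⟨_, fun n => head_term hCa ha' hT hN1 n⟩) hT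
  have r2 := conv_bound 2 (tailS_zero a N) s2
    (hsm _ ⟨_, fun n => tail_term hCa (by linarith) ha' hT hN2 n⟩) hT
  have r3 := conv_bound 4 (c := c3) (by simp [hc3, headS_zero]) s3
    (hsm _ ⟨_, fun n => by
      simp only [hc3, RCLike.norm_conj]
      exact head_term hCb hb' hT hN1 n⟩) hT
  have r4 := conv_bound 4 (c := c4) (by simp [hc4, tailS_zero]) s4
    (hsm _ ⟨_, fun n => by
      simp only [hc4, RCLike.norm_conj]
      exact tail_term hCb (by linarith) hb' hT hN2 n⟩) hT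
  set I1 : ℝ → ℝ := fun t => ∫ v, Gw 2 v * ‖Sm c1 (t + v)‖ with hI1
  set I2 : ℝ → ℝ := fun t => ∫ v, Gw 2 v * ‖Sm c2 (t + v)‖ with hI2
  set I3 : ℝ → ℝ := fun t => ∫ v, Gw 4 v * ‖Sm c3 (t + v)‖ with hI3
  set I4 : ℝ → ℝ := fun t => ∫ v, Gw 4 v * ‖Sm c4 (t + v)‖ with hI4
  have k1 : Continuous I1 := I_cont 2 s1
  have k2 : Continuous I2 := I_cont 2 s2
  have k3 : Continuous I3 := I_cont 4 s3
  have k4 : Continuous I4 := I_cont 4 s4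
  set A1 := T ^ η / η with hA1
  set A2 := T with hA2
  set A3 := T ^ (-η) / η * (CY * (2 * T) ^ (2 * η)) with hA3
  set A4 := T⁻¹ * (CY * (2 * T) ^ (2 * (1 : ℝ))) with hA4
  have hA1p : 0 ≤ A1 := by positivity
  have hA3p : 0 ≤ A3 := by positivity
  have hA4p : 0 ≤ A4 := by positivity
  have hpt : ∀ t : ℝ, |t| ≤ T → (‖D (1 / 2 + t * I)‖ / ‖(-1 / 2 + t * I : ℂ)‖ ^ 2) ^ 2 ≤
      4 * K0 ^ 2 * (A1 ^ 2 * I1 t ^ 2 + A2 ^ 2 * I2 t ^ 2 + A3 ^ 2 * I3 t ^ 2 +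
        A4 ^ 2 * I4 t ^ 2) := by
    intro t ht
    have hP : 0 < ‖(-1 / 2 + t * I : ℂ)‖ := by
      rw [norm_pos_iff]
      intro h0
      have := congrArg Complex.re h0
      simp at this
    have h1 := afe h hT hη0 (by linarith) N t
    have h3 : ∫ v, Gw 2 v * (‖Y (((1 / 2 - η : ℝ) : ℂ) + ((t + v : ℝ) : ℂ) * I)‖ *
         ‖Sm (headS b N (1 / 2 + η)) (-(t + v))‖) ≤ CY * (2 * T) ^ (2 * η) * I3 t :=
      Y_piece (k := 2) (headS_summable b N _) fun v =>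
        (hY η hη0.le (by linarith) (t + v)).trans (Ypow hCY hT ht hη0.le (by linarith))
    have h4 : ∫ v, Gw 2 v * (‖Y (((-1 / 2 : ℝ) : ℂ) + ((t + v : ℝ) : ℂ) * I)‖ *
         ‖Sm (tailS b N) (-(t + v))‖) ≤ CY * (2 * T) ^ (2 * (1 : ℝ)) * I4 t := by
      refine Y_piece (k := 2) (tailS_summable h.bS N) fun v => ?_
      have h5 := hY 1 zero_le_one le_rfl (t + v)
      have e : (1 / 2 - 1 : ℝ) = -1 / 2 := by norm_num
      rw [e] at h5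
      exact h5.trans (Ypow hCY hT ht zero_le_one le_rfl)
    have h5 : ‖D (1 / 2 + t * I)‖ / ‖(-1 / 2 + t * I : ℂ)‖ ^ 2 ≤
        K0 * (A1 * I1 t + A2 * I2 t + A3 * I3 t + A4 * I4 t) := by
      rw [div_le_iff₀ (by positivity)]
      have h6 : ‖D (1 / 2 + t * I)‖ ≤ 2 * Real.pi * ‖D (1 / 2 + t * I)‖ := by
        have := Real.pi_gt_three
        have := norm_nonneg (D (1 / 2 + t * I))
        nlinarith
      refine h6.trans (h1.trans ?_)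
      have h7 : T ^ (-η) / η * (∫ v, Gw 2 v *
          (‖Y (((1 / 2 - η : ℝ) : ℂ) + ((t + v : ℝ) : ℂ) * I)‖ *
            ‖Sm (headS b N (1 / 2 + η)) (-(t + v))‖)) ≤ A3 * I3 t := by
        rw [hA3]
        calc _ ≤ T ^ (-η) / η * (CY * (2 * T) ^ (2 * η) * I3 t) :=
              mul_le_mul_of_nonneg_left h3 (by positivity)
          _ = _ := by ring
      have h8 : T⁻¹ * (∫ v, Gw 2 v * (‖Y (((-1 / 2 : ℝ) : ℂ) + ((t + v : ℝ) : ℂ) * I)‖ *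
         ‖Sm (tailS b N) (-(t + v))‖)) ≤ A4 * I4 t := by
        rw [hA4]
        calc _ ≤ T⁻¹ * (CY * (2 * T) ^ (2 * (1 : ℝ)) * I4 t) :=
              mul_le_mul_of_nonneg_left h4 (by positivity)
          _ = _ := by ring
      calc _ ≤ ‖(-1 / 2 + t * I : ℂ)‖ ^ 2 * K0 *
            (A1 * I1 t + A2 * I2 t + A3 * I3 t + A4 * I4 t) := by
            refine mul_le_mul_of_nonneg_left ?_ (by positivity)
            exact add_le_add (add_le_add le_rfl h7) h8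
        _ = _ := by ring
    have h6 : 0 ≤ ‖D (1 / 2 + t * I)‖ / ‖(-1 / 2 + t * I : ℂ)‖ ^ 2 := by positivity
    calc _ ≤ (K0 * (A1 * I1 t + A2 * I2 t + A3 * I3 t + A4 * I4 t)) ^ 2 :=
          pow_le_pow_left₀ h6 h5 2
      _ = K0 ^ 2 * (A1 * I1 t + A2 * I2 t + A3 * I3 t + A4 * I4 t) ^ 2 := by ring
      _ ≤ K0 ^ 2 * (4 * ((A1 * I1 t) ^ 2 + (A2 * I2 t) ^ 2 + (A3 * I3 t) ^ 2 +
          (A4 * I4 t) ^ 2)) := mul_le_mul_of_nonneg_left (sum_sq4 _ _ _ _) (by positivity)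
      _ = _ := by ring
  have hTT : -T ≤ T := by linarith
  have m1 : ∫ t in (-T)..T, (‖D (1 / 2 + t * I)‖ / ‖(-1 / 2 + t * I : ℂ)‖ ^ 2) ^ 2 ≤
      ∫ t in (-T)..T, 4 * K0 ^ 2 * (A1 ^ 2 * I1 t ^ 2 + A2 ^ 2 * I2 t ^ 2 + A3 ^ 2 * I3 t ^ 2 +
        A4 ^ 2 * I4 t ^ 2) := by
    refine intervalIntegral.integral_mono_on hTT ?_ ?_ ?_
    · refine Continuous.intervalIntegrable ?_ _ _
      refine Continuous.pow (Continuous.div ?_ (by fun_prop) ?_) 2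
      · exact (h.diff.continuous.comp (by fun_prop)).norm
      · intro t
        refine pow_ne_zero 2 ?_
        rw [norm_ne_zero_iff]
        intro h0
        have := congrArg Complex.re h0
        simp at this
    · refine Continuous.intervalIntegrable ?_ _ _
      fun_prop
    · intro t ht
      exact hpt t (abs_le.2 ht)
  have jj : ∀ I : ℝ → ℝ, Continuous I → IntervalIntegrable (fun t => I t ^ 2) volume (-T) T :=
    fun I hI => (hI.pow 2).intervalIntegrable _ _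
  have m2 : ∫ t in (-T)..T, 4 * K0 ^ 2 * (A1 ^ 2 * I1 t ^ 2 + A2 ^ 2 * I2 t ^ 2 +
        A3 ^ 2 * I3 t ^ 2 + A4 ^ 2 * I4 t ^ 2) =
      4 * K0 ^ 2 * (A1 ^ 2 * (∫ t in (-T)..T, I1 t ^ 2) + A2 ^ 2 * (∫ t in (-T)..T, I2 t ^ 2) +
        A3 ^ 2 * (∫ t in (-T)..T, I3 t ^ 2) + A4 ^ 2 * (∫ t in (-T)..T, I4 t ^ 2)) := by
    rw [intervalIntegral.integral_const_mul]
    congr 1
    have u1 := (jj I1 k1).const_mul (A1 ^ 2)
    have u2 := (jj I2 k2).const_mul (A2 ^ 2)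
    have u3 := (jj I3 k3).const_mul (A3 ^ 2)
    have u4 := (jj I4 k4).const_mul (A4 ^ 2)
    rw [intervalIntegral.integral_add ((u1.add u2).add u3) u4,
      intervalIntegral.integral_add (u1.add u2) u3, intervalIntegral.integral_add u1 u2]
    simp only [intervalIntegral.integral_const_mul]
  rw [m2] at m1
  have n1 : ∫ t in (-T)..T, I1 t ^ 2 ≤ V2 * (2 * Ca ^ 2 * Zt η * T) :=
    r1.trans (mul_le_mul_of_nonneg_left q1 hV2p)
  have n2 : ∫ t in (-T)..T, I2 t ^ 2 ≤ V2 * (2 * Ca ^ 2 * Zt η * T ^ (-1 + 2 * η)) :=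
    r2.trans (mul_le_mul_of_nonneg_left q2 hV2p)
  have n3 : ∫ t in (-T)..T, I3 t ^ 2 ≤ V4 * (2 * Cb ^ 2 * Zt η * T) :=
    r3.trans (mul_le_mul_of_nonneg_left q3 hV4p)
  have n4 : ∫ t in (-T)..T, I4 t ^ 2 ≤ V4 * (2 * Cb ^ 2 * Zt η * T ^ (-1 + 2 * η)) :=
    r4.trans (mul_le_mul_of_nonneg_left q4 hV4p)
  -- powers of `T`
  set P := T ^ (1 + 2 * η) with hP
  have hPp : 0 ≤ P := by positivity
  have p1 : A1 ^ 2 * T = (1 / η) ^ 2 * P := by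
    have : T ^ η * T ^ η * T = P := by
      rw [hP, ← Real.rpow_add hT0, ← Real.rpow_add_one hT0.ne']
      congr 1
      ring
    rw [hA1, ← this]
    ring
  have p2 : A2 ^ 2 * T ^ (-1 + 2 * η) = P := by
    rw [hA2, hP, ← Real.rpow_natCast T 2, ← Real.rpow_add hT0]
    congr 1
    push_cast
    ring
  have p3 : A3 ^ 2 * T ≤ (1 / η) ^ 2 * CY ^ 2 * 4 * P := by
    have e1 : (2 * T) ^ (2 * η) = 2 ^ (2 * η) * T ^ (2 * η) :=
      Real.mul_rpow (by norm_num) hT0.le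
    have e2 : T ^ (-η) * T ^ (-η) * (T ^ (2 * η) * T ^ (2 * η)) * T = P := by
      rw [hP, ← Real.rpow_add hT0, ← Real.rpow_add hT0, ← Real.rpow_add hT0,
        ← Real.rpow_add_one hT0.ne']
      congr 1
      ring
    have e3 : (2 : ℝ) ^ (2 * η) ≤ 2 := by
      calc (2 : ℝ) ^ (2 * η) ≤ 2 ^ (1 : ℝ) :=
            Real.rpow_le_rpow_of_exponent_le (by norm_num) (by linarith)
        _ = 2 := Real.rpow_one 2
    have e4 : ((2 : ℝ) ^ (2 * η)) ^ 2 ≤ 4 := by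
      have : (0 : ℝ) ≤ 2 ^ (2 * η) := by positivity
      nlinarith
    calc A3 ^ 2 * T = ((1 / η) ^ 2 * CY ^ 2 * P) * ((2 : ℝ) ^ (2 * η)) ^ 2 := by
          rw [hA3, e1, ← e2]
          ring
      _ ≤ ((1 / η) ^ 2 * CY ^ 2 * P) * 4 := mul_le_mul_of_nonneg_left e4 (by positivity)
      _ = _ := by ring
  have p4 : A4 ^ 2 * T ^ (-1 + 2 * η) = CY ^ 2 * 16 * P := by
    have e1 : (2 * T) ^ (2 * (1 : ℝ)) = 4 * T ^ 2 := by
      rw [mul_one, Real.rpow_two]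
      ring
    have e2 : T ^ 2 * T ^ (-1 + 2 * η) = P := by
      rw [hP, ← Real.rpow_natCast T 2, ← Real.rpow_add hT0]
      congr 1
      push_cast
      ring
    rw [hA4, e1, ← e2]
    field_simp
    ring
  have hTε : P ≤ T ^ (1 + ε) := Real.rpow_le_rpow_of_exponent_le hT (by linarith)
  calc _ ≤ _ := m1
    _ ≤ 4 * K0 ^ 2 * (A1 ^ 2 * (V2 * (2 * Ca ^ 2 * Zt η * T)) +
        A2 ^ 2 * (V2 * (2 * Ca ^ 2 * Zt η * T ^ (-1 + 2 * η))) +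
        A3 ^ 2 * (V4 * (2 * Cb ^ 2 * Zt η * T)) +
        A4 ^ 2 * (V4 * (2 * Cb ^ 2 * Zt η * T ^ (-1 + 2 * η)))) := by gcongr
    _ = 4 * K0 ^ 2 * ((A1 ^ 2 * T) * (V2 * (2 * Ca ^ 2 * Zt η)) +
        (A2 ^ 2 * T ^ (-1 + 2 * η)) * (V2 * (2 * Ca ^ 2 * Zt η)) +
        (A3 ^ 2 * T) * (V4 * (2 * Cb ^ 2 * Zt η)) +
        (A4 ^ 2 * T ^ (-1 + 2 * η)) * (V4 * (2 * Cb ^ 2 * Zt η))) := by ring
    _ ≤ 4 * K0 ^ 2 * (((1 / η) ^ 2 * P) * (V2 * (2 * Ca ^ 2 * Zt η)) +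
        P * (V2 * (2 * Ca ^ 2 * Zt η)) +
        ((1 / η) ^ 2 * CY ^ 2 * 4 * P) * (V4 * (2 * Cb ^ 2 * Zt η)) +
        (CY ^ 2 * 16 * P) * (V4 * (2 * Cb ^ 2 * Zt η))) := by
        rw [p1, p2, p4]
        gcongr
    _ = A * P := by rw [hA]; ring
    _ ≤ A * T ^ (1 + ε) := mul_le_mul_of_nonneg_left hTε (by positivity)

end Pool.Agent.ZP
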