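import Pool.Agent.Lib_helper50.ZP.LF
import Pool.Agent.Lib_helper50.ZP.M4

/-!
# The fourth moment of `L(1/2 + it, Φ)` for periodic `Φ`
-/

set_option autoImplicit false

namespace Pool.Agent.ZP

open Complex MeasureTheory Filter Topology Set

section per

variable {q : ℕ} [NeZero q]

theorem half_ne (t : ℝ) : (1 / 2 + (t : ℂ) * I) ≠ 1 := by
  intro h
  have := congrArg Complex.re h
  simp at this

theorem norm_pole_pos (t : ℝ) : 0 < ‖(-1 / 2 + t * I : ℂ)‖ := by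
  rw [norm_pos_iff]
  intro h0
  have := congrArg Complex.re h0
  simp at this

theorem Lp1_half (Φ : ZMod q → ℂ) (t : ℝ) :
    Lp1 Φ (1 / 2 + t * I) = (-1 / 2 + t * I) * ZMod.LFunction Φ (1 / 2 + t * I) := by
  rw [Lp1_of_ne Φ (half_ne t)]
  congr 1
  ring

theorem fourth_par {κ : ℕ} {Φ : ZMod q → ℂ} (h : Par κ Φ) {ε : ℝ} (hε : 0 < ε) :
    ∃ C : ℝ, 0 ≤ C ∧ ∀ T : ℝ, 1 ≤ T →
      ∫ t in (-T)..T, ‖ZMod.LFunction Φ (1 / 2 + t * I)‖ ^ 4 ≤ C * T ^ (1 + ε) := by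
  obtain ⟨C, hC, h1⟩ := moment2 (FE2 h) (CY := (4 * q) ^ 2) (by positivity)
    (XL_sq_bound (q := q) h.le) (fun ε hε => norm_cf2_le Φ hε) (fun ε hε => norm_cf2_le _ hε) hε
  refine ⟨C, hC, fun T hT => ?_⟩
  refine le_trans (le_of_eq ?_) (h1 T hT)
  refine intervalIntegral.integral_congr fun t _ => ?_
  have h2 := norm_pole_pos t
  rw [Lp1_half, norm_pow, norm_mul, mul_pow, mul_div_cancel_left₀ _ (by positivity), ← pow_mul]

theorem LFunction_add (Φ Ψ : ZMod q → ℂ) (s : ℂ) :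
    ZMod.LFunction (fun j => Φ j + Ψ j) s = ZMod.LFunction Φ s + ZMod.LFunction Ψ s := by
  unfold ZMod.LFunction
  simp only [add_mul, Finset.sum_add_distrib, mul_add]

theorem LFunction_half_cont (Φ : ZMod q → ℂ) :
    Continuous fun t : ℝ => ZMod.LFunction Φ (1 / 2 + t * I) := by
  rw [continuous_iff_continuousAt]
  intro t
  exact ContinuousAt.comp (f := fun t : ℝ => 1 / 2 + (t : ℂ) * I)
    (ZMod.differentiableAt_LFunction Φ _ (Or.inl (half_ne t))).continuousAt (by fun_prop)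

/-- the even part -/
noncomputable def evenP (Φ : ZMod q → ℂ) (j : ZMod q) : ℂ := (Φ j + Φ (-j)) / 2

/-- the odd part -/
noncomputable def oddP (Φ : ZMod q → ℂ) (j : ZMod q) : ℂ := (Φ j - Φ (-j)) / 2

omit [NeZero q] in
theorem evenP_par (Φ : ZMod q → ℂ) : Par 0 (evenP Φ) := by
  refine Or.inl ⟨rfl, fun j => ?_⟩
  unfold evenP
  rw [neg_neg, add_comm]

omit [NeZero q] in
theorem oddP_par (Φ : ZMod q → ℂ) : Par 1 (oddP Φ) := by
  refine Or.inr ⟨rfl, fun j => ?_⟩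
  unfold oddP
  rw [neg_neg]
  ring

theorem LFunction_parts (Φ : ZMod q → ℂ) (s : ℂ) :
    ZMod.LFunction Φ s = ZMod.LFunction (evenP Φ) s + ZMod.LFunction (oddP Φ) s := by
  rw [← LFunction_add]
  congr 1
  funext j
  unfold evenP oddP
  ring

/-- FOURTH MOMENT: for every periodic function `Φ`, the fourth moment of `L(1/2 + it, Φ)` on
`[-T, T]` is `O(T ^ (1 + ε))`. -/
theorem fourth_moment (Φ : ZMod q → ℂ) {ε : ℝ} (hε : 0 < ε) :
    ∃ C : ℝ, 0 ≤ C ∧ ∀ T : ℝ, 1 ≤ T →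
      ∫ t in (-T)..T, ‖ZMod.LFunction Φ (1 / 2 + t * I)‖ ^ 4 ≤ C * T ^ (1 + ε) := by
  obtain ⟨C1, hC1, h1⟩ := fourth_par (evenP_par Φ) hε
  obtain ⟨C2, hC2, h2⟩ := fourth_par (oddP_par Φ) hε
  refine ⟨8 * (C1 + C2), by positivity, fun T hT => ?_⟩
  have hTT : -T ≤ T := by linarith
  have c1 := LFunction_half_cont (evenP Φ)
  have c2 := LFunction_half_cont (oddP Φ)
  have h3 : ∫ t in (-T)..T, ‖ZMod.LFunction Φ (1 / 2 + t * I)‖ ^ 4 ≤
      ∫ t in (-T)..T, 8 * (‖ZMod.LFunction (evenP Φ) (1 / 2 + t * I)‖ ^ 4 +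
        ‖ZMod.LFunction (oddP Φ) (1 / 2 + t * I)‖ ^ 4) := by
    refine intervalIntegral.integral_mono_on hTT ?_ ?_ fun t _ => ?_
    · exact ((LFunction_half_cont Φ).norm.pow 4).intervalIntegrable _ _
    · exact (((c1.norm.pow 4).add (c2.norm.pow 4)).const_mul 8).intervalIntegrable _ _
    · rw [LFunction_parts]
      have h4 := norm_add_le (ZMod.LFunction (evenP Φ) (1 / 2 + t * I))
        (ZMod.LFunction (oddP Φ) (1 / 2 + t * I))
      refine (pow_le_pow_left₀ (norm_nonneg _) h4 4).trans ?_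
      generalize ‖ZMod.LFunction (evenP Φ) (1 / 2 + t * I)‖ = a
      generalize ‖ZMod.LFunction (oddP Φ) (1 / 2 + t * I)‖ = b
      nlinarith [sq_nonneg (a - b), sq_nonneg (a ^ 2 - b ^ 2), sq_nonneg (a + b),
        mul_nonneg (sq_nonneg (a - b)) (sq_nonneg (a + b)), sq_nonneg (a * b),
        mul_nonneg (sq_nonneg (a - b)) (add_nonneg (sq_nonneg a) (sq_nonneg b))]
  refine h3.trans ?_
  have i1 : IntervalIntegrable (fun t : ℝ => ‖ZMod.LFunction (evenP Φ) (1 / 2 + t * I)‖ ^ 4)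
    volume (-T) T := (c1.norm.pow 4).intervalIntegrable _ _
  have i2 : IntervalIntegrable (fun t : ℝ => ‖ZMod.LFunction (oddP Φ) (1 / 2 + t * I)‖ ^ 4)
    volume (-T) T := (c2.norm.pow 4).intervalIntegrable _ _
  rw [intervalIntegral.integral_const_mul, intervalIntegral.integral_add i1 i2]
  have h4 := h1 T hT
  have h5 := h2 T hT
  nlinarith

/-- The fourth moment of a Dirichlet `L`-function. -/
theorem fourth_moment_char (χ : DirichletCharacter ℂ q) {ε : ℝ} (hε : 0 < ε) :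
    ∃ C : ℝ, 0 ≤ C ∧ ∀ T : ℝ, 1 ≤ T →
      ∫ t in (-T)..T, ‖DirichletCharacter.LFunction χ (1 / 2 + t * I)‖ ^ 4 ≤ C * T ^ (1 + ε) :=
  fourth_moment (fun j => χ j) hε

end per

/-- The fourth moment of the Riemann zeta function. -/
theorem fourth_moment_zeta {ε : ℝ} (hε : 0 < ε) :
    ∃ C : ℝ, 0 ≤ C ∧ ∀ T : ℝ, 1 ≤ T →
      ∫ t in (-T)..T, ‖riemannZeta (1 / 2 + t * I)‖ ^ 4 ≤ C * T ^ (1 + ε) := by
  obtain ⟨C, hC, h⟩ := fourth_moment (q := 1) (fun _ => 1) hε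
  refine ⟨C, hC, fun T hT => ?_⟩
  have := h T hT
  simpa only [ZMod.LFunction_modOne_eq, one_mul] using this

end Pool.Agent.ZP
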