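import Pool.Agent.Lib_helper50.ZP.Shift

/-!
# Bounds for Gamma factors
-/

set_option autoImplicit false

namespace Pool.Agent.ZP

open Complex MeasureTheory Filter Topology Set

theorem norm_Gamma_le {s : ℂ} (hs : 0 < s.re) : ‖Complex.Gamma s‖ ≤ Real.Gamma s.re := by
  rw [Complex.Gamma_eq_integral hs, Real.Gamma_eq_integral hs]
  unfold Complex.GammaIntegral
  refine (norm_integral_le_integral_norm _).trans (le_of_eq ?_)
  apply setIntegral_congr_fun measurableSet_Ioi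
  intro x hx
  have hx' : 0 < x := hx
  simp only [norm_mul]
  rw [Complex.norm_real, Real.norm_of_nonneg (Real.exp_nonneg _),
    Complex.norm_cpow_eq_rpow_re_of_pos hx']
  simp

/-- `Γ` is bounded on strips `a ≤ Re s ≤ b` with `0 < a`. -/
theorem Gamma_bdd {a b : ℝ} (ha : 0 < a) : ∃ C : ℝ, 0 < C ∧ ∀ s : ℂ, a ≤ s.re → s.re ≤ b →
    ‖Complex.Gamma s‖ ≤ C := by
  have hc : ContinuousOn Real.Gamma (Icc a b) := by
    intro x hx
    refine (Real.differentiableAt_Gamma ?_).continuousAt.continuousWithinAt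
    intro m h
    have h1 : 0 < x := lt_of_lt_of_le ha hx.1
    have h2 : (0 : ℝ) ≤ m := Nat.cast_nonneg m
    linarith
  obtain ⟨C, hC⟩ := isCompact_Icc.exists_bound_of_continuousOn hc
  refine ⟨max C 1, lt_of_lt_of_le one_pos (le_max_right _ _), fun s h1 h2 => ?_⟩
  refine (norm_Gamma_le (lt_of_lt_of_le ha h1)).trans ?_
  refine ((le_abs_self _).trans ?_).trans (le_max_left _ _)
  exact hC s.re ⟨h1, h2⟩

theorem norm_sin_le (z : ℂ) : ‖Complex.sin z‖ ≤ Real.exp |z.im| := by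
  rw [Complex.sin]
  have h1 : ‖cexp (-z * I)‖ ≤ Real.exp |z.im| := by
    rw [Complex.norm_exp]
    apply Real.exp_le_exp.2
    simp only [neg_mul, neg_re, mul_I_re, neg_neg]
    exact le_abs_self _
  have h2 : ‖cexp (z * I)‖ ≤ Real.exp |z.im| := by
    rw [Complex.norm_exp]
    apply Real.exp_le_exp.2
    simp only [mul_I_re]
    exact neg_le_abs _
  rw [norm_div, norm_mul, Complex.norm_I, mul_one]
  have h3 : ‖(2 : ℂ)‖ = 2 := by norm_num
  rw [h3, div_le_iff₀ (by norm_num)]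
  refine (norm_sub_le _ _).trans ?_
  linarith

/-- `1 / Γ` grows at most exponentially in the strip `a ≤ Re z ≤ 3 / 2`. -/
theorem inv_Gamma_bound (a : ℝ) : ∃ C : ℝ, 0 < C ∧ ∀ z : ℂ, a ≤ z.re → z.re ≤ 3 / 2 →
    ‖(Complex.Gamma z)⁻¹‖ ≤ C * Real.exp (4 * |z.im|) := by
  obtain ⟨C1, hC1, h1⟩ := Gamma_bdd (a := 1 / 2) (b := 2 - a) (by norm_num)
  have hcpt : IsCompact ((Icc a (3 / 2)) ×ℂ (Icc (-1 : ℝ) 1)) :=
    isCompact_Icc.reProdIm isCompact_Icc
  obtain ⟨C2, hC2⟩ := hcpt.exists_bound_of_continuousOn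
    (f := fun z : ℂ => (Complex.Gamma z)⁻¹) Complex.differentiable_one_div_Gamma.continuous.continuousOn
  refine ⟨max C1 C2, lt_of_lt_of_le hC1 (le_max_left _ _), fun z ha hb => ?_⟩
  by_cases him : |z.im| ≤ 1
  · have h2 := hC2 z (by
      rw [Complex.mem_reProdIm]
      exact ⟨⟨ha, hb⟩, abs_le.1 him⟩)
    refine h2.trans ?_
    have h3 : (1 : ℝ) ≤ Real.exp (4 * |z.im|) := Real.one_le_exp (by positivity)
    have h4 : C2 ≤ max C1 C2 := le_max_right _ _
    have h5 : 0 < max C1 C2 := lt_of_lt_of_le hC1 (le_max_left _ _)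
    nlinarith
  · push Not at him
    have h2 := Complex.Gamma_mul_Gamma_one_sub z
    have him0 : z.im ≠ 0 := by
      intro h
      rw [h, abs_zero] at him
      linarith
    have hs : Complex.sin (Real.pi * z) ≠ 0 := by
      rw [Complex.sin_ne_zero_iff]
      intro k h
      have := congrArg Complex.im h
      simp only [mul_im, ofReal_re, ofReal_im, zero_mul, add_zero, intCast_re,
        intCast_im, mul_zero] at this
      rcases mul_eq_zero.1 this with h5 | h5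
      · exact Real.pi_ne_zero h5
      · exact him0 h5
    have hG : Complex.Gamma z ≠ 0 := by
      intro h
      rw [h, zero_mul] at h2
      have := div_ne_zero (by exact_mod_cast Real.pi_ne_zero : (Real.pi : ℂ) ≠ 0) hs
      exact this h2.symm
    have h3 : (Complex.Gamma z)⁻¹ = Complex.Gamma (1 - z) * Complex.sin (Real.pi * z) / Real.pi := by
      rw [eq_div_iff (by exact_mod_cast Real.pi_ne_zero), inv_mul_eq_iff_eq_mul₀ hG, ← mul_assoc, h2,
        div_mul_cancel₀ _ hs]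
    have h4 : ‖Complex.Gamma (1 - z)‖ ≤ C1 := by
      have hne : (1 - z) ≠ 0 := by
        intro h
        have := congrArg Complex.im h
        simp at this
        exact him0 this
      have h5 := Complex.Gamma_add_one (1 - z) hne
      have h6 : 1 ≤ ‖1 - z‖ := by
        have := Complex.abs_im_le_norm (1 - z)
        simp only [sub_im, one_im, zero_sub, abs_neg] at this
        linarith
      have h7 : ‖Complex.Gamma (1 - z + 1)‖ ≤ C1 := by
        refine h1 _ ?_ ?_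
        · simp only [add_re, sub_re, one_re]; linarith
        · simp only [add_re, sub_re, one_re]; linarith
      rw [h5, norm_mul] at h7
      have h8 := norm_nonneg (Complex.Gamma (1 - z))
      nlinarith
    rw [h3, norm_div, norm_mul]
    have h5 : ‖Complex.sin (Real.pi * z)‖ ≤ Real.exp (4 * |z.im|) := by
      refine (norm_sin_le _).trans ?_
      apply Real.exp_le_exp.2
      have : ((Real.pi : ℂ) * z).im = Real.pi * z.im := by simp
      rw [this, abs_mul, abs_of_pos Real.pi_pos]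
      exact mul_le_mul_of_nonneg_right Real.pi_le_four (abs_nonneg _)
    have h6 : (1 : ℝ) ≤ ‖(Real.pi : ℂ)‖ := by
      rw [Complex.norm_real, Real.norm_of_nonneg Real.pi_pos.le]
      linarith [Real.pi_gt_three]
    calc ‖Complex.Gamma (1 - z)‖ * ‖Complex.sin (Real.pi * z)‖ / ‖(Real.pi : ℂ)‖
        ≤ ‖Complex.Gamma (1 - z)‖ * ‖Complex.sin (Real.pi * z)‖ := div_le_self (by positivity) h6
      _ ≤ C1 * Real.exp (4 * |z.im|) := mul_le_mul h4 h5 (norm_nonneg _) hC1.le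
      _ ≤ max C1 C2 * Real.exp (4 * |z.im|) :=
        mul_le_mul_of_nonneg_right (le_max_left _ _) (Real.exp_pos _).le

theorem norm_pi_cpow (s : ℂ) : ‖(Real.pi : ℂ) ^ s‖ = Real.pi ^ s.re :=
  Complex.norm_cpow_eq_rpow_re_of_pos Real.pi_pos s

/-- `1 / Γ_ℝ` grows at most exponentially in the strip `-2 ≤ Re z ≤ 3`. -/
theorem inv_GammaR_bound : ∃ C : ℝ, 0 < C ∧ ∀ z : ℂ, -2 ≤ z.re → z.re ≤ 3 →
    ‖(Gammaℝ z)⁻¹‖ ≤ C * Real.exp (4 * |z.im|) := by
  obtain ⟨C, hC, h⟩ := inv_Gamma_bound (-1)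
  refine ⟨Real.pi ^ 2 * C, by positivity, fun z h1 h2 => ?_⟩
  have hre : (z / 2).re = z.re / 2 := by simp
  have him : (z / 2).im = z.im / 2 := by simp
  have h3 := h (z / 2) (by rw [hre]; linarith) (by rw [hre]; linarith)
  rw [Gammaℝ_def, mul_inv, norm_mul, norm_inv, norm_pi_cpow]
  have h4 : (Real.pi ^ (-z / 2).re)⁻¹ ≤ Real.pi ^ 2 := by
    rw [← Real.rpow_neg Real.pi_pos.le]
    have h5 : -(-z / 2).re ≤ (2 : ℝ) := by
      have : (-z / 2).re = -z.re / 2 := by simp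
      rw [this]
      linarith
    calc Real.pi ^ (-(-z / 2).re) ≤ Real.pi ^ (2 : ℝ) :=
          Real.rpow_le_rpow_of_exponent_le (by linarith [Real.pi_gt_three]) h5
      _ = Real.pi ^ 2 := by norm_cast
  have h6 : Real.exp (4 * |(z / 2).im|) ≤ Real.exp (4 * |z.im|) := by
    apply Real.exp_le_exp.2
    rw [him, abs_div, abs_two]
    have := abs_nonneg z.im
    linarith
  calc (Real.pi ^ (-z / 2).re)⁻¹ * ‖(Complex.Gamma (z / 2))⁻¹‖
      ≤ Real.pi ^ 2 * (C * Real.exp (4 * |z.im|)) :=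
        mul_le_mul h4 (h3.trans (mul_le_mul_of_nonneg_left h6 hC.le)) (norm_nonneg _) (by positivity)
    _ = _ := by ring

/-- `Γ_ℝ` is bounded in the strip `a ≤ Re z ≤ b`, `0 < a`. -/
theorem GammaR_bdd {a b : ℝ} (ha : 0 < a) : ∃ C : ℝ, 0 < C ∧ ∀ z : ℂ, a ≤ z.re → z.re ≤ b →
    ‖Gammaℝ z‖ ≤ C := by
  obtain ⟨C, hC, h⟩ := Gamma_bdd (a := a / 2) (b := b / 2) (by positivity)
  refine ⟨C, hC, fun z h1 h2 => ?_⟩
  have hre : (z / 2).re = z.re / 2 := by simp
  rw [Gammaℝ_def, norm_mul, norm_pi_cpow]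
  have h3 := h (z / 2) (by rw [hre]; linarith) (by rw [hre]; linarith)
  have h4 : Real.pi ^ (-z / 2).re ≤ 1 := by
    have : (-z / 2).re = -z.re / 2 := by simp
    rw [this]
    exact Real.rpow_le_one_of_one_le_of_nonpos (by linarith [Real.pi_gt_three]) (by linarith)
  calc Real.pi ^ (-z / 2).re * ‖Complex.Gamma (z / 2)‖ ≤ 1 * C :=
        mul_le_mul h4 h3 (norm_nonneg _) zero_le_one
    _ = C := one_mul _

theorem norm_GammaR_conj (z : ℂ) : ‖Gammaℝ (starRingEnd ℂ z)‖ = ‖Gammaℝ z‖ := by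
  rw [Gammaℝ_def, Gammaℝ_def, norm_mul, norm_mul, norm_pi_cpow, norm_pi_cpow]
  have h1 : starRingEnd ℂ z / 2 = starRingEnd ℂ (z / 2) := by
    rw [map_div₀, Complex.conj_ofNat]
  rw [h1, Complex.Gamma_conj, RCLike.norm_conj]
  congr 2
  simp

/-- the quotient of Gamma factors -/
noncomputable def Xk (κ : ℕ) (s : ℂ) : ℂ := Gammaℝ (1 - s + κ) * (Gammaℝ (s + κ))⁻¹

theorem Xk_diff (κ : ℕ) {s : ℂ} (hs : s.re < 1) : DifferentiableAt ℂ (Xk κ) s := by
  unfold Xk
  refine DifferentiableAt.mul ?_ ?_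
  · have h1 : DifferentiableAt ℂ Gammaℝ (1 - s + κ) := by
      unfold Gammaℝ
      refine DifferentiableAt.mul ?_ ?_
      · refine DifferentiableAt.const_cpow (by fun_prop) (Or.inl ?_)
        exact_mod_cast Real.pi_ne_zero
      · refine DifferentiableAt.comp (g := Complex.Gamma) _ ?_ (by fun_prop)
        refine Complex.differentiableAt_Gamma _ fun m h => ?_
        have h2 := congrArg Complex.re h
        have h3 : ((1 - s + κ) / 2 : ℂ).re = (1 - s.re + κ) / 2 := by simp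
        rw [h3] at h2
        have h4 : (-(m : ℂ)).re = -(m : ℝ) := by simp
        rw [h4] at h2
        have h5 : (0 : ℝ) ≤ m := Nat.cast_nonneg m
        have h6 : (0 : ℝ) ≤ κ := Nat.cast_nonneg κ
        linarith
    exact h1.comp s (f := fun s : ℂ => 1 - s + κ) (by fun_prop)
  · exact (differentiable_Gammaℝ_inv _).comp s (f := fun s : ℂ => s + κ) (by fun_prop)

theorem Xk_growth {κ : ℕ} (hκ : κ ≤ 1) : ∃ C : ℝ, 0 < C ∧ ∀ s : ℂ, -1 / 2 ≤ s.re → s.re ≤ 1 / 2 →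
    ‖Xk κ s‖ ≤ C * Real.exp (4 * |s.im|) := by
  obtain ⟨C1, hC1, h1⟩ := GammaR_bdd (a := 1 / 2) (b := 5 / 2) (by norm_num)
  obtain ⟨C2, hC2, h2⟩ := inv_GammaR_bound
  have hκ0 : (0 : ℝ) ≤ κ := Nat.cast_nonneg κ
  have hκ1 : (κ : ℝ) ≤ 1 := by exact_mod_cast hκ
  refine ⟨C1 * C2, by positivity, fun s h3 h4 => ?_⟩
  unfold Xk
  rw [norm_mul]
  have e1 : (1 - s + κ).re = 1 - s.re + κ := by simp
  have e2 : (s + κ).re = s.re + κ := by simp
  have e3 : (s + κ).im = s.im := by simp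
  have h5 := h1 (1 - s + κ) (by rw [e1]; linarith) (by rw [e1]; linarith)
  have h6 := h2 (s + κ) (by rw [e2]; linarith) (by rw [e2]; linarith)
  rw [e3] at h6
  calc _ ≤ C1 * (C2 * Real.exp (4 * |s.im|)) := mul_le_mul h5 h6 (norm_nonneg _) hC1.le
    _ = _ := by ring

theorem GammaR_ne {z : ℂ} (h : z ≠ 0) (h2 : -2 < z.re) : Gammaℝ z ≠ 0 := by
  rw [Ne, Gammaℝ_eq_zero_iff]
  rintro ⟨n, hn⟩
  rcases Nat.eq_zero_or_pos n with h0 | h0
  · subst h0
    simp at hn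
    exact h hn
  · have := congrArg Complex.re hn
    simp at this
    have h3 : (1 : ℝ) ≤ n := by exact_mod_cast h0
    linarith

theorem Xk_half (κ : ℕ) (t : ℝ) : ‖Xk κ (1 / 2 + t * I)‖ = 1 := by
  unfold Xk
  rw [norm_mul, norm_inv]
  have e : (1 - (1 / 2 + t * I) + κ : ℂ) = starRingEnd ℂ (1 / 2 + t * I + κ) := by
    simp only [map_add, map_mul, conj_ofReal, conj_I, map_natCast, map_div₀, map_one,
      Complex.conj_ofNat]
    ring
  rw [e, norm_GammaR_conj]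
  refine mul_inv_cancel₀ ?_
  rw [norm_ne_zero_iff]
  refine Gammaℝ_ne_zero_of_re_pos ?_
  have e1 : (1 / 2 + t * I + κ : ℂ).re = 1 / 2 + κ := by simp
  rw [e1]
  have hκ0 : (0 : ℝ) ≤ κ := Nat.cast_nonneg κ
  linarith

theorem Xk_left (κ : ℕ) (t : ℝ) : ‖Xk κ (-1 / 2 + t * I)‖ ≤ (1 + κ) * (1 + |t|) := by
  unfold Xk
  rw [norm_mul, norm_inv]
  have e : (1 - (-1 / 2 + t * I) + κ : ℂ) = starRingEnd ℂ ((-1 / 2 + t * I + κ) + 2) := by
    simp only [map_add, map_mul, conj_ofReal, conj_I, map_natCast, map_div₀, map_neg, map_one,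
      Complex.conj_ofNat]
    ring
  have hκ0 : (0 : ℝ) ≤ κ := Nat.cast_nonneg κ
  have e1 : (-1 / 2 + t * I + κ : ℂ).re = -1 / 2 + κ := by simp
  have hne : (-1 / 2 + t * I + κ : ℂ) ≠ 0 := by
    intro h
    have h1 := congrArg Complex.re h
    rw [e1, zero_re] at h1
    have h2 : (2 * κ : ℝ) = 1 := by linarith
    have h3 : 2 * κ = 1 := by exact_mod_cast h2
    omega
  rw [e, norm_GammaR_conj, Gammaℝ_add_two hne, norm_div, norm_div, norm_mul]
  have h0 : ‖Gammaℝ (-1 / 2 + t * I + κ)‖ ≠ 0 := by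
    rw [norm_ne_zero_iff]
    exact GammaR_ne hne (by rw [e1]; linarith)
  have h2 : ‖(2 : ℂ)‖ = 2 := by norm_num
  have h3 : (3 : ℝ) ≤ ‖(Real.pi : ℂ)‖ := by
    rw [Complex.norm_real, Real.norm_of_nonneg Real.pi_pos.le]
    linarith [Real.pi_gt_three]
  have h4 : ‖(-1 / 2 + t * I + κ : ℂ)‖ ≤ (1 + κ) * (1 + |t|) := by
    have h5 : ‖(-1 / 2 + t * I + κ : ℂ)‖ ≤ ‖(-1 / 2 : ℂ)‖ + ‖(t * I : ℂ)‖ + ‖(κ : ℂ)‖ :=
      norm_add₃_le
    have h6 : ‖(-1 / 2 : ℂ)‖ = 1 / 2 := by norm_num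
    have h7 : ‖(t * I : ℂ)‖ = |t| := by simp
    have h8 : ‖(κ : ℂ)‖ = κ := by simp
    rw [h6, h7, h8] at h5
    have := abs_nonneg t
    nlinarith
  calc ‖Gammaℝ (-1 / 2 + t * I + κ)‖ * ‖(-1 / 2 + t * I + κ : ℂ)‖ / ‖(2 : ℂ)‖ / ‖(Real.pi : ℂ)‖ *
        ‖Gammaℝ (-1 / 2 + t * I + κ)‖⁻¹
      = ‖(-1 / 2 + t * I + κ : ℂ)‖ / (‖(2 : ℂ)‖ * ‖(Real.pi : ℂ)‖) := by
        rw [div_div, mul_div_assoc, mul_comm, ← mul_assoc, inv_mul_cancel₀ h0, one_mul]
    _ ≤ ‖(-1 / 2 + t * I + κ : ℂ)‖ := by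
        refine div_le_self (norm_nonneg _) ?_
        rw [h2]
        linarith
    _ ≤ _ := h4

end Pool.Agent.ZP
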