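import Pool.Agent.Lib_helper50.ZP.Ker

/-!
# Functions of exponential growth in strips
-/

set_option autoImplicit false

namespace Pool.Agent.ZP

open Complex MeasureTheory Filter Topology Finset

/-- `f` grows at most exponentially in the strip `a ≤ Re w ≤ b`. -/
def Gr (a b : ℝ) (f : ℂ → ℂ) : Prop := ∃ C : ℝ, 0 ≤ C ∧ ∀ w : ℂ, a ≤ w.re → w.re ≤ b →
  ‖f w‖ ≤ C * Real.exp (C * |w.im|)

theorem Gr.of_le {a b : ℝ} {f : ℂ → ℂ} {C K : ℝ} (h : ∀ w : ℂ, a ≤ w.re → w.re ≤ b →
    ‖f w‖ ≤ C * Real.exp (K * |w.im|)) : Gr a b f := by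
  refine ⟨max (max C K) 0, le_max_right _ _, fun w h1 h2 => (h w h1 h2).trans ?_⟩
  have h3 : C ≤ max (max C K) 0 := (le_max_left _ _).trans (le_max_left _ _)
  have h4 : K ≤ max (max C K) 0 := (le_max_right _ _).trans (le_max_left _ _)
  refine mul_le_mul h3 (Real.exp_le_exp.2 (mul_le_mul_of_nonneg_right h4 (abs_nonneg _)))
    (Real.exp_pos _).le (le_max_right _ _)

theorem Gr.mul {a b : ℝ} {f g : ℂ → ℂ} (hf : Gr a b f) (hg : Gr a b g) :
    Gr a b fun w => f w * g w := by
  obtain ⟨C, hC, h1⟩ := hf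
  obtain ⟨K, hK, h2⟩ := hg
  refine Gr.of_le (C := C * K) (K := C + K) fun w h3 h4 => ?_
  rw [norm_mul]
  calc ‖f w‖ * ‖g w‖ ≤ (C * Real.exp (C * |w.im|)) * (K * Real.exp (K * |w.im|)) :=
        mul_le_mul (h1 w h3 h4) (h2 w h3 h4) (norm_nonneg _) (by positivity)
    _ = _ := by rw [add_mul, Real.exp_add]; ring

theorem Gr.add {a b : ℝ} {f g : ℂ → ℂ} (hf : Gr a b f) (hg : Gr a b g) :
    Gr a b fun w => f w + g w := by
  obtain ⟨C, hC, h1⟩ := hf
  obtain ⟨K, hK, h2⟩ := hg
  refine Gr.of_le (C := C + K) (K := C + K) fun w h3 h4 => ?_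
  have e1 : Real.exp (C * |w.im|) ≤ Real.exp ((C + K) * |w.im|) := by
    apply Real.exp_le_exp.2
    have := abs_nonneg w.im
    nlinarith
  have e2 : Real.exp (K * |w.im|) ≤ Real.exp ((C + K) * |w.im|) := by
    apply Real.exp_le_exp.2
    have := abs_nonneg w.im
    nlinarith
  calc ‖f w + g w‖ ≤ ‖f w‖ + ‖g w‖ := norm_add_le _ _
    _ ≤ C * Real.exp (C * |w.im|) + K * Real.exp (K * |w.im|) := add_le_add (h1 w h3 h4) (h2 w h3 h4)
    _ ≤ C * Real.exp ((C + K) * |w.im|) + K * Real.exp ((C + K) * |w.im|) := by gcongr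
    _ = _ := by ring

theorem Gr.const {a b : ℝ} (c : ℂ) : Gr a b fun _ => c :=
  Gr.of_le (C := ‖c‖) (K := 0) fun w _ _ => by simp

theorem Gr.pow {a b : ℝ} {f : ℂ → ℂ} (hf : Gr a b f) (m : ℕ) : Gr a b fun w => f w ^ m := by
  induction m with
  | zero => simpa using Gr.const (a := a) (b := b) 1
  | succ m ih =>
    have := ih.mul hf
    simpa only [pow_succ] using this

theorem Gr.sum {a b : ℝ} {ι : Type*} (S : Finset ι) {f : ι → ℂ → ℂ} (hf : ∀ i, Gr a b (f i)) :
    Gr a b fun w => ∑ i ∈ S, f i w := by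
  classical
  induction S using Finset.induction_on with
  | empty => simpa using Gr.const (a := a) (b := b) 0
  | insert i S hi ih =>
    have := (hf i).add ih
    simpa only [Finset.sum_insert hi] using this

theorem Gr.id {a b : ℝ} : Gr a b fun w => w := by
  refine Gr.of_le (C := |a| + |b| + 1) (K := 1) fun w h1 h2 => ?_
  have h3 : |w.re| ≤ |a| + |b| := by
    rw [abs_le]
    constructor
    · have := neg_abs_le a
      have := abs_nonneg b
      linarith
    · have := le_abs_self b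
      have := abs_nonneg a
      linarith
  have h4 : |w.im| ≤ Real.exp |w.im| := by
    have := Real.add_one_le_exp |w.im|
    linarith
  have h5 : (1 : ℝ) ≤ Real.exp |w.im| := Real.one_le_exp (abs_nonneg _)
  have h6 := Complex.norm_le_abs_re_add_abs_im w
  rw [one_mul]
  have h7 : 0 ≤ |a| + |b| := by positivity
  nlinarith

theorem Gr.rpow {a b c : ℝ} (hc : 0 < c) : Gr a b fun w => (c : ℂ) ^ w := by
  refine Gr.of_le (C := Real.exp (|Real.log c| * (|a| + |b|))) (K := 0) fun w h1 h2 => ?_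
  rw [Complex.norm_cpow_eq_rpow_re_of_pos hc, zero_mul, Real.exp_zero, mul_one,
    Real.rpow_def_of_pos hc]
  apply Real.exp_le_exp.2
  have h3 : |w.re| ≤ |a| + |b| := by
    rw [abs_le]
    constructor
    · have := neg_abs_le a
      have := abs_nonneg b
      linarith
    · have := le_abs_self b
      have := abs_nonneg a
      linarith
  calc Real.log c * w.re ≤ |Real.log c * w.re| := le_abs_self _
    _ = |Real.log c| * |w.re| := abs_mul _ _
    _ ≤ _ := mul_le_mul_of_nonneg_left h3 (abs_nonneg _)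

theorem Gr.comp_add {a b : ℝ} {f : ℂ → ℂ} (z : ℂ) (hf : Gr (a + z.re) (b + z.re) f) :
    Gr a b fun w => f (z + w) := by
  obtain ⟨C, hC, h⟩ := hf
  refine Gr.of_le (C := C * Real.exp (C * |z.im|)) (K := C) fun w h1 h2 => ?_
  have h3 := h (z + w) (by rw [add_re]; linarith) (by rw [add_re]; linarith)
  refine h3.trans ?_
  rw [mul_assoc, ← Real.exp_add]
  refine mul_le_mul_of_nonneg_left (Real.exp_le_exp.2 ?_) hC
  rw [← mul_add, add_im]
  exact mul_le_mul_of_nonneg_left (abs_add_le _ _) hC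

theorem Gr.comp_neg {a b : ℝ} {f : ℂ → ℂ} (hf : Gr a b f) :
    Gr (-b) (-a) fun w => f (-w) := by
  obtain ⟨C, hC, h⟩ := hf
  refine Gr.of_le (C := C) (K := C) fun w h1 h2 => ?_
  have h3 := h (-w) (by rw [neg_re]; linarith) (by rw [neg_re]; linarith)
  rwa [neg_im, abs_neg] at h3

theorem Gr.mono {a b a' b' : ℝ} {f : ℂ → ℂ} (hf : Gr a b f) (ha : a ≤ a') (hb : b' ≤ b) :
    Gr a' b' f := by
  obtain ⟨C, hC, h⟩ := hf
  exact ⟨C, hC, fun w h1 h2 => h w (ha.trans h1) (h2.trans hb)⟩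

theorem Gr.congr {a b : ℝ} {f g : ℂ → ℂ} (hf : Gr a b f) (h : ∀ w, f w = g w) : Gr a b g := by
  have : f = g := funext h
  rwa [← this]

theorem abs_re_le {a b : ℝ} {w : ℂ} (h1 : a ≤ w.re) (h2 : w.re ≤ b) : |w.re| ≤ |a| + |b| := by
  rw [abs_le]
  constructor
  · have := neg_abs_le a
    have := abs_nonneg b
    linarith
  · have := le_abs_self b
    have := abs_nonneg a
    linarith

theorem Gr.cpow_of {a b c K : ℝ} (hc : 0 < c) {g : ℂ → ℂ}
    (hg : ∀ w : ℂ, a ≤ w.re → w.re ≤ b → |(g w).re| ≤ K) : Gr a b fun w => (c : ℂ) ^ g w := by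
  refine Gr.of_le (C := Real.exp (|Real.log c| * K)) (K := 0) fun w h1 h2 => ?_
  rw [Complex.norm_cpow_eq_rpow_re_of_pos hc, zero_mul, Real.exp_zero, mul_one,
    Real.rpow_def_of_pos hc]
  apply Real.exp_le_exp.2
  calc Real.log c * (g w).re ≤ |Real.log c * (g w).re| := le_abs_self _
    _ = |Real.log c| * |(g w).re| := abs_mul _ _
    _ ≤ _ := mul_le_mul_of_nonneg_left (hg w h1 h2) (abs_nonneg _)

/-- the kernel -/
noncomputable def ker (w : ℂ) : ℂ := cexp (w ^ 2) / w

theorem norm_ker_le {x d : ℝ} (hd : 0 < d) (hx : d ≤ |x|) (v : ℝ) :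
    ‖ker (x + v * I)‖ ≤ Real.exp (x ^ 2) * Real.exp (-v ^ 2) / d := by
  unfold ker
  rw [norm_div, norm_exp_sq, sub_eq_add_neg, Real.exp_add]
  refine div_le_div_of_nonneg_left (by positivity) hd ?_
  have := Complex.abs_re_le_norm ((x : ℂ) + v * I)
  simp only [add_re, ofReal_re, mul_re, I_re, mul_zero, ofReal_im, I_im, mul_one, sub_self,
    add_zero] at this
  exact hx.trans this

theorem ker_integrable {a b x : ℝ} {f : ℂ → ℂ} (hf : Gr a b f) (ha : a ≤ x) (hb : x ≤ b)
    (hx : x ≠ 0) (hc : Continuous fun v : ℝ => f (x + v * I)) :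
    Integrable fun v : ℝ => f (x + v * I) * ker (x + v * I) := by
  obtain ⟨C, hC, h⟩ := hf
  have h1 : Integrable fun v : ℝ => f (x + v * I) * cexp (((x : ℂ) + v * I) ^ 2) := by
    refine integrable_of_growth (C := C) hc fun v => ?_
    have := h (x + v * I) (by simpa using ha) (by simpa using hb)
    simpa using this
  have hx' : 0 < |x| := abs_pos.2 hx
  refine (h1.norm.mul_const (1 / |x|)).mono' ?_ (Eventually.of_forall fun v => ?_)
  · refine (hc.mul ?_).aestronglyMeasurable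
    unfold ker
    exact Continuous.div (by fun_prop) (by fun_prop) (ne_zero_line hx)
  · unfold ker
    rw [← mul_div_assoc, norm_div, mul_one_div]
    refine div_le_div_of_nonneg_left (norm_nonneg _) hx' ?_
    have := Complex.abs_re_le_norm ((x : ℂ) + v * I)
    simpa using this

/-- Shift of a line of integration for functions of exponential growth. -/
theorem shift_ker {f : ℂ → ℂ} {a b : ℝ} (hab : a ≤ b) (h0 : 0 < a ∨ b < 0)
    (hd : ∀ z : ℂ, a ≤ z.re → z.re ≤ b → DifferentiableAt ℂ f z) (hf : Gr a b f) :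
    ∫ v : ℝ, f (a + v * I) * ker (a + v * I) = ∫ v : ℝ, f (b + v * I) * ker (b + v * I) := by
  have hfg := hf
  obtain ⟨C, hC, h⟩ := hf
  have hcont : ∀ x : ℝ, a ≤ x → x ≤ b → Continuous fun v : ℝ => f (x + v * I) := by
    intro x h1 h2
    rw [continuous_iff_continuousAt]
    intro v
    have h3 : ContinuousAt f ((x : ℂ) + v * I) :=
      (hd _ (by simpa using h1) (by simpa using h2)).continuousAt
    exact ContinuousAt.comp (f := fun v : ℝ => (x : ℂ) + v * I) h3 (by fun_prop)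
  have ha0 : a ≠ 0 := by
    rcases h0 with h0 | h0
    · exact h0.ne'
    · exact (lt_of_le_of_lt hab h0).ne
  have hb0 : b ≠ 0 := by
    rcases h0 with h0 | h0
    · exact (lt_of_lt_of_le h0 hab).ne'
    · exact h0.ne
  have hne : ∀ z : ℂ, a ≤ z.re → z.re ≤ b → z ≠ 0 := by
    intro z h1 h2 h3
    rw [h3, zero_re] at h1 h2
    rcases h0 with h0 | h0 <;> linarith
  set M := max (a ^ 2) (b ^ 2) with hM
  refine shift_line (f := fun w => f w * ker w) hab ?_
    (fun y => C * Real.exp M * (Real.exp (C ^ 2 / 2) * Real.exp (-y ^ 2 / 2))) ?_ ?_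
    (ker_integrable hfg le_rfl hab ha0 (hcont a le_rfl hab))
    (ker_integrable hfg hab le_rfl hb0 (hcont b hab le_rfl))
  · intro z h1 h2
    refine (hd z h1 h2).mul ?_
    unfold ker
    exact DifferentiableAt.div (by fun_prop) (by fun_prop) (hne z h1 h2)
  · have h1 : Tendsto (fun y : ℝ => Real.exp (-y ^ 2 / 2)) atTop (𝓝 0) := by
      refine Real.tendsto_exp_atBot.comp ?_
      refine Tendsto.atBot_div_const (by norm_num) ?_
      exact tendsto_neg_atTop_atBot.comp (tendsto_pow_atTop two_ne_zero)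
    have := (h1.const_mul (Real.exp (C ^ 2 / 2))).const_mul (C * Real.exp M)
    simpa using this
  · intro z h1 h2 h3
    have hn : 1 ≤ ‖z‖ := h3.trans (Complex.abs_im_le_norm z)
    unfold ker
    rw [norm_mul, norm_div, norm_exp_sq']
    have h4 : Real.exp (z.re ^ 2 - z.im ^ 2) / ‖z‖ ≤ Real.exp M * Real.exp (-z.im ^ 2) := by
      refine (div_le_self (Real.exp_pos _).le hn).trans ?_
      rw [← Real.exp_add]
      apply Real.exp_le_exp.2
      have : z.re ^ 2 ≤ M := by
        rcases le_total 0 z.re with h5 | h5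
        · have : z.re ^ 2 ≤ b ^ 2 := pow_le_pow_left₀ h5 h2 2
          exact this.trans (le_max_right _ _)
        · have : z.re ^ 2 ≤ a ^ 2 := by nlinarith
          exact this.trans (le_max_left _ _)
      linarith
    calc ‖f z‖ * (Real.exp (z.re ^ 2 - z.im ^ 2) / ‖z‖)
        ≤ (C * Real.exp (C * |z.im|)) * (Real.exp M * Real.exp (-z.im ^ 2)) :=
          mul_le_mul (h z h1 h2) h4 (by positivity) (by positivity)
      _ = C * Real.exp M * (Real.exp (C * |z.im|) * Real.exp (-z.im ^ 2)) := by ring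
      _ ≤ C * Real.exp M * (Real.exp (C ^ 2 / 2) * Real.exp (-z.im ^ 2 / 2)) :=
          mul_le_mul_of_nonneg_left (exp_lin_sq C z.im) (by positivity)
      _ = _ := by rw [sq_abs]

/-- the residue formula for functions of exponential growth -/
theorem residue_ker {F : ℂ → ℂ} (hF : Differentiable ℂ F) (hg : Gr (-1) 1 F) :
    2 * Real.pi * F 0 = (∫ v : ℝ, F (1 + v * I) * ker (1 + v * I)) -
      ∫ v : ℝ, F (-1 + v * I) * ker (-1 + v * I) := by
  obtain ⟨C, hC, h⟩ := hg
  have := residue_formula (a := 1) (C := C) one_pos hF (fun w hw =>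
    h w (abs_le.1 hw).1 (abs_le.1 hw).2)
  unfold ker
  simpa using this

end Pool.Agent.ZP
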