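import Mathlib

/-!
# The Kuzmin-Landau inequality and the second derivative test
-/

set_option autoImplicit false

namespace Pool.Agent.ZP

open Complex Finset

/-- `e(x)` -/
noncomputable def ee (x : ℝ) : ℂ := cexp ((2 * Real.pi * x : ℝ) * I)

theorem norm_ee (x : ℝ) : ‖ee x‖ = 1 := Complex.norm_exp_ofReal_mul_I _

theorem ee_add (x y : ℝ) : ee (x + y) = ee x * ee y := by
  unfold ee
  rw [← Complex.exp_add]
  congr 1
  push_cast
  ring

theorem ee_neg (x : ℝ) : ee (-x) = starRingEnd ℂ (ee x) := by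
  unfold ee
  rw [← Complex.exp_conj]
  congr 1
  simp only [map_mul, conj_ofReal, conj_I]
  push_cast
  ring

theorem ee_int (k : ℤ) : ee k = 1 := by
  unfold ee
  rw [Complex.exp_eq_one_iff]
  exact ⟨k, by push_cast; ring⟩

theorem abel_anti (E : ℕ → ℂ) (c : ℕ → ℝ) (a k : ℕ) (hE : ∀ n, ‖E n‖ ≤ 1)
    (hc : ∀ n, a ≤ n → n < a + k → c (n + 1) ≤ c n) :
    ‖∑ n ∈ Ico a (a + k + 1), (E (n + 1) - E n) * c n - E (a + k + 1) * c (a + k)‖ ≤
      |c a| + (c a - c (a + k)) := by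
  induction k with
  | zero =>
    rw [add_zero, Nat.Ico_succ_singleton, sum_singleton, sub_self, add_zero]
    have e : (E (a + 1) - E a) * c a - E (a + 1) * c a = -(E a * c a) := by ring
    rw [e, norm_neg, norm_mul, Complex.norm_real, Real.norm_eq_abs]
    have := hE a
    have := abs_nonneg (c a)
    nlinarith
  | succ k ih =>
    have ih' := ih fun n h1 h2 => hc n h1 (by omega)
    have hk := hc (a + k) (by omega) (by omega)
    rw [show a + (k + 1) + 1 = (a + k + 1) + 1 by ring, sum_Ico_succ_top (by omega)]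
    have e : ∑ n ∈ Ico a (a + k + 1), (E (n + 1) - E n) * c n +
        (E (a + k + 1 + 1) - E (a + k + 1)) * c (a + k + 1) -
        E (a + k + 1 + 1) * c (a + (k + 1)) =
        (∑ n ∈ Ico a (a + k + 1), (E (n + 1) - E n) * c n - E (a + k + 1) * c (a + k)) +
        E (a + k + 1) * ((c (a + k) - c (a + k + 1) : ℝ) : ℂ) := by
      rw [show a + (k + 1) = a + k + 1 by ring]
      push_cast
      ring
    rw [e]
    refine (norm_add_le _ _).trans ?_
    have h1 : ‖E (a + k + 1) * ((c (a + k) - c (a + k + 1) : ℝ) : ℂ)‖ ≤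
        c (a + k) - c (a + k + 1) := by
      rw [norm_mul, Complex.norm_real, Real.norm_of_nonneg (sub_nonneg.2 hk)]
      have := hE (a + k + 1)
      nlinarith
    rw [show a + (k + 1) = a + k + 1 by ring]
    linarith

theorem cot_anti {x y : ℝ} (hx : 0 < x) (hxy : x ≤ y) (hy : y < Real.pi) :
    Real.cos y / Real.sin y ≤ Real.cos x / Real.sin x := by
  have sx : 0 < Real.sin x := Real.sin_pos_of_pos_of_lt_pi hx (by linarith)
  have sy : 0 < Real.sin y := Real.sin_pos_of_pos_of_lt_pi (by linarith) hy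
  rw [div_le_div_iff₀ sy sx]
  have h := Real.sin_nonneg_of_nonneg_of_le_pi (x := y - x) (by linarith) (by linarith)
  rw [Real.sin_sub] at h
  linarith

/-- `sin (π x) ≥ 2 θ` if `x` is at distance at least `θ` from the integers -/
theorem sin_pi_ge {θ x : ℝ} (hθ : 0 ≤ θ) (h1 : θ ≤ x) (h2 : x ≤ 1 - θ) :
    2 * θ ≤ Real.sin (Real.pi * x) := by
  have hpi := Real.pi_pos
  rcases le_total x (1 / 2) with h | h
  · have h3 := Real.mul_le_sin (x := Real.pi * x) (by nlinarith) (by nlinarith)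
    have e : 2 / Real.pi * (Real.pi * x) = 2 * x := by field_simp
    linarith
  · have h3 := Real.mul_le_sin (x := Real.pi * (1 - x)) (by nlinarith) (by nlinarith)
    have e : 2 / Real.pi * (Real.pi * (1 - x)) = 2 * (1 - x) := by field_simp
    have e2 : Real.sin (Real.pi * (1 - x)) = Real.sin (Real.pi * x) := by
      rw [mul_sub, mul_one, Real.sin_pi_sub]
    rw [e2, e] at h3
    linarith

theorem ee_sub_one (x : ℝ) (hx : Real.sin (Real.pi * x) ≠ 0) :
    (1 : ℂ) = (ee x - 1) * (-(1 / 2) - I / 2 * ((Real.cos (Real.pi * x) /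
      Real.sin (Real.pi * x) : ℝ) : ℂ)) := by
  have h1 : ee x = (cexp ((Real.pi * x : ℝ) * I)) ^ 2 := by
    unfold ee
    rw [← Complex.exp_nat_mul]
    congr 1
    push_cast
    ring
  set φ := Real.pi * x with hφ
  have h2 : cexp ((φ : ℝ) * I) = (Real.cos φ : ℂ) + (Real.sin φ : ℂ) * I := by
    rw [Complex.exp_mul_I, Complex.ofReal_cos, Complex.ofReal_sin]
  have hs : ((Real.sin φ : ℝ) : ℂ) ≠ 0 := by exact_mod_cast hx
  have h3 : ((Real.sin φ : ℝ) : ℂ) ^ 2 + ((Real.cos φ : ℝ) : ℂ) ^ 2 = 1 := by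
    exact_mod_cast Real.sin_sq_add_cos_sq φ
  rw [h1, h2]
  push_cast
  push_cast at h3 hs
  generalize Complex.cos (φ : ℂ) = c at *
  generalize Complex.sin (φ : ℂ) = s at *
  field_simp
  ring_nf
  rw [I_sq, show I ^ 3 = -I from I_pow_three]
  linear_combination -(s - c * I) * h3

/-- The Kuzmin-Landau inequality. -/
theorem kuzmin_landau (f : ℕ → ℝ) (a k : ℕ) (j : ℤ) {θ : ℝ} (hθ : 0 < θ)
    (h1 : ∀ n, a ≤ n → n ≤ a + k → θ ≤ f (n + 1) - f n - j)
    (h2 : ∀ n, a ≤ n → n ≤ a + k → f (n + 1) - f n - j ≤ 1 - θ)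
    (hm : ∀ n, a ≤ n → n < a + k → f (n + 1) - f n ≤ f (n + 2) - f (n + 1)) :
    ‖∑ n ∈ Ico a (a + k + 1), ee (f n)‖ ≤ 1 + 1 / θ := by
  set δ : ℕ → ℝ := fun n => f (n + 1) - f n - j with hδ
  set c : ℕ → ℝ := fun n => Real.cos (Real.pi * δ n) / Real.sin (Real.pi * δ n) with hc
  have hpi := Real.pi_pos
  have hsin : ∀ n, a ≤ n → n ≤ a + k → 2 * θ ≤ Real.sin (Real.pi * δ n) := fun n h3 h4 =>
    sin_pi_ge hθ.le (h1 n h3 h4) (h2 n h3 h4)
  have hcb : ∀ n, a ≤ n → n ≤ a + k → |c n| ≤ 1 / (2 * θ) := by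
    intro n h3 h4
    have h5 := hsin n h3 h4
    simp only [hc]
    rw [abs_div, abs_of_pos (by linarith : 0 < Real.sin (Real.pi * δ n))]
    exact div_le_div₀ zero_le_one (Real.abs_cos_le_one _) (by positivity) h5
  have hca : ∀ n, a ≤ n → n < a + k → c (n + 1) ≤ c n := by
    intro n h3 h4
    have h5 := h1 n h3 (by omega)
    have h6 := h2 (n + 1) (by omega) (by omega)
    have h7 := hm n h3 h4
    refine cot_anti (by simp only [hδ]; nlinarith) ?_ ?_
    · refine mul_le_mul_of_nonneg_left ?_ hpi.le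
      simp only [hδ]
      linarith
    · have : δ (n + 1) < 1 := by simp only [hδ]; linarith
      nlinarith
  have hE : ∀ n, a ≤ n → n ≤ a + k → ee (f n) =
      (ee (f (n + 1)) - ee (f n)) * (-(1 / 2) - I / 2 * (c n : ℂ)) := by
    intro n h3 h4
    have h5 := hsin n h3 h4
    have h6 := ee_sub_one (δ n) (by linarith)
    have h7 : ee (f (n + 1)) = ee (f n) * ee (δ n) := by
      have e1 : f (n + 1) = f n + (δ n + j) := by simp only [hδ]; ring
      rw [e1, ee_add, ee_add, ee_int, mul_one]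
    rw [h7]
    calc ee (f n) = ee (f n) * 1 := (mul_one _).symm
      _ = ee (f n) * ((ee (δ n) - 1) * (-(1 / 2) - I / 2 * (c n : ℂ))) := by rw [← h6]
      _ = _ := by ring
  have hsum : ∑ n ∈ Ico a (a + k + 1), ee (f n) =
      -(1 / 2) * (ee (f (a + k + 1)) - ee (f a)) -
        I / 2 * ∑ n ∈ Ico a (a + k + 1), (ee (f (n + 1)) - ee (f n)) * (c n : ℂ) := by
    have e1 : ∑ n ∈ Ico a (a + k + 1), ee (f n) = ∑ n ∈ Ico a (a + k + 1),
        (ee (f (n + 1)) - ee (f n)) * (-(1 / 2) - I / 2 * (c n : ℂ)) := by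
      refine sum_congr rfl fun n hn => hE n (mem_Ico.1 hn).1 (by have := (mem_Ico.1 hn).2; omega)
    have e2 : ∑ n ∈ Ico a (a + k + 1), (ee (f (n + 1)) - ee (f n)) =
        ee (f (a + k + 1)) - ee (f a) :=
      sum_Ico_sub (fun n => ee (f n)) (by omega)
    rw [e1, ← e2, mul_sum, mul_sum, ← sum_sub_distrib]
    refine sum_congr rfl fun n _ => ?_
    ring
  have hab := abel_anti (fun n => ee (f n)) c a k (fun n => (norm_ee _).le) hca
  have hk1 := hcb a le_rfl (by omega)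
  have hk2 := hcb (a + k) (by omega) le_rfl
  have hS : ‖∑ n ∈ Ico a (a + k + 1), (ee (f (n + 1)) - ee (f n)) * (c n : ℂ)‖ ≤ 2 / θ := by
    have e : ∑ n ∈ Ico a (a + k + 1), (ee (f (n + 1)) - ee (f n)) * (c n : ℂ) =
        (∑ n ∈ Ico a (a + k + 1), (ee (f (n + 1)) - ee (f n)) * (c n : ℂ) -
          ee (f (a + k + 1)) * c (a + k)) + ee (f (a + k + 1)) * c (a + k) := by ring
    rw [e]
    refine (norm_add_le _ _).trans ?_
    have h3 : ‖ee (f (a + k + 1)) * (c (a + k) : ℂ)‖ = |c (a + k)| := by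
      rw [norm_mul, norm_ee, one_mul, Complex.norm_real, Real.norm_eq_abs]
    rw [h3]
    have h4 := le_abs_self (c a)
    have h5 := neg_abs_le (c (a + k))
    have h6 : 2 / θ = 4 * (1 / (2 * θ)) := by field_simp; norm_num
    rw [h6]
    linarith
  rw [hsum]
  refine (norm_sub_le _ _).trans ?_
  have h3 : ‖-(1 / 2 : ℂ) * (ee (f (a + k + 1)) - ee (f a))‖ ≤ 1 := by
    rw [norm_mul]
    have h4 : ‖-(1 / 2 : ℂ)‖ = 1 / 2 := by norm_num
    have h5 := norm_sub_le (ee (f (a + k + 1))) (ee (f a))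
    rw [norm_ee, norm_ee] at h5
    rw [h4]
    linarith
  have h4 : ‖I / 2 * ∑ n ∈ Ico a (a + k + 1), (ee (f (n + 1)) - ee (f n)) * (c n : ℂ)‖ ≤
      1 / θ := by
    rw [norm_mul]
    have h5 : ‖I / 2‖ = 1 / 2 := by
      rw [norm_div, Complex.norm_I]; norm_num
    rw [h5]
    have h6 : 1 / θ = 1 / 2 * (2 / θ) := by ring
    rw [h6]
    exact mul_le_mul_of_nonneg_left hS (by norm_num)
  linarith

theorem convex_finset (M : Finset ℕ) (h0 : M.Nonempty)
    (h : ∀ x ∈ M, ∀ y ∈ M, ∀ n, x ≤ n → n ≤ y → n ∈ M) :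
    ∃ c k, M = Ico c (c + k + 1) := by
  refine ⟨M.min' h0, M.max' h0 - M.min' h0, ?_⟩
  have h1 := M.min'_le _ (M.max'_mem h0)
  ext n
  rw [mem_Ico]
  constructor
  · intro hn
    have := M.min'_le n hn
    have := M.le_max' n hn
    omega
  · rintro ⟨h2, h3⟩
    exact h _ (M.min'_mem h0) _ (M.max'_mem h0) n h2 (by omega)

theorem card_incr {δ : ℕ → ℝ} {a b : ℕ} {l L : ℝ} (hl : 0 < l) (hL : 0 ≤ L)
    (hδ : ∀ n m, a ≤ n → n ≤ m → m < b → l * ((m : ℝ) - n) ≤ δ m - δ n) (S : Finset ℕ)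
    (hS : S ⊆ Ico a b) (h : ∀ n ∈ S, ∀ m ∈ S, δ m - δ n ≤ L) : (S.card : ℝ) ≤ L / l + 1 := by
  rcases S.eq_empty_or_nonempty with h0 | h0
  · rw [h0]
    simp only [card_empty, CharP.cast_eq_zero]
    positivity
  · have h1 := S.min'_mem h0
    have h2 := S.max'_mem h0
    have h3 := S.min'_le _ h2
    have h4 := hδ _ _ (mem_Ico.1 (hS h1)).1 h3 (mem_Ico.1 (hS h2)).2
    have h5 := h _ h1 _ h2
    have h6 : S ⊆ Icc (S.min' h0) (S.max' h0) := fun n hn =>
      mem_Icc.2 ⟨S.min'_le n hn, S.le_max' n hn⟩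
    have h7 := card_le_card h6
    rw [Nat.card_Icc] at h7
    have h8 : (S.card : ℝ) ≤ (S.max' h0 : ℝ) - S.min' h0 + 1 := by
      have : ((S.max' h0 + 1 - S.min' h0 : ℕ) : ℝ) = (S.max' h0 : ℝ) + 1 - S.min' h0 := by
        rw [Nat.cast_sub (by omega)]
        push_cast
        ring
      have h9 : (S.card : ℝ) ≤ ((S.max' h0 + 1 - S.min' h0 : ℕ) : ℝ) := by exact_mod_cast h7
      rw [this] at h9
      linarith
    have h9 : (S.max' h0 : ℝ) - S.min' h0 ≤ L / l := by
      rw [le_div_iff₀ hl]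
      linarith
    linarith

/-- The second derivative test. -/
theorem second_test (f : ℕ → ℝ) {a b : ℕ} {l V : ℝ} (hl : 0 < l) (hV0 : 0 ≤ V)
    (hm : ∀ n, a ≤ n → n + 1 < b → l ≤ (f (n + 2) - f (n + 1)) - (f (n + 1) - f n))
    (hV : ∀ n, a ≤ n → n < b → (f (n + 1) - f n) - (f (a + 1) - f a) ≤ V) :
    ‖∑ n ∈ Ico a b, ee (f n)‖ ≤ (V + 2) * (3 + 3 / √l) := by
  classical
  rcases Nat.lt_or_ge a b with hab | hab
  swap
  · rw [Ico_eq_empty (by omega), sum_empty, norm_zero]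
    positivity
  set δ : ℕ → ℝ := fun n => f (n + 1) - f n with hδ
  set θ := √l with hθ
  have hθ0 : 0 < θ := Real.sqrt_pos.2 hl
  have hincr : ∀ n m, a ≤ n → n ≤ m → m < b → l * ((m : ℝ) - n) ≤ δ m - δ n := by
    intro n m h1 h2
    induction m, h2 using Nat.le_induction with
    | base => intro _; simp
    | succ m h3 ih =>
      intro h4
      have h5 := ih (by omega)
      have h6 := hm m (by omega) (by omega)
      simp only [hδ] at h5 ⊢
      push_cast
      nlinarith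
  have hmono : ∀ n m, a ≤ n → n ≤ m → m < b → δ n ≤ δ m := by
    intro n m h1 h2 h3
    have h4 := hincr n m h1 h2 h3
    have h5 : (n : ℝ) ≤ m := by exact_mod_cast h2
    have h6 : 0 ≤ l * ((m : ℝ) - n) := mul_nonneg hl.le (by linarith)
    linarith
  set J : Finset ℤ := Icc ⌊δ a⌋ ⌊δ a + V⌋ with hJ
  have hmap : ∀ n ∈ Ico a b, ⌊δ n⌋ ∈ J := by
    intro n hn
    rw [mem_Ico] at hn
    rw [hJ, mem_Icc]
    refine ⟨Int.floor_le_floor (hmono a n le_rfl hn.1 hn.2), Int.floor_le_floor ?_⟩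
    have := hV n hn.1 hn.2
    simp only [hδ]
    linarith
  have hJc : (J.card : ℝ) ≤ V + 2 := by
    rw [hJ, Int.card_Icc]
    have h1 : ⌊δ a⌋ ≤ ⌊δ a + V⌋ := Int.floor_le_floor (by linarith)
    have h2 : ((⌊δ a + V⌋ + 1 - ⌊δ a⌋).toNat : ℝ) = (⌊δ a + V⌋ : ℝ) + 1 - ⌊δ a⌋ := by
      have h3 : (((⌊δ a + V⌋ + 1 - ⌊δ a⌋).toNat : ℤ) : ℝ) =
          ((⌊δ a + V⌋ + 1 - ⌊δ a⌋ : ℤ) : ℝ) := by
        rw [Int.toNat_of_nonneg (by omega)]
      push_cast at h3
      exact h3
    rw [h2]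
    have h3 := Int.floor_le (δ a + V)
    have h4 := Int.lt_floor_add_one (δ a)
    linarith
  -- one cell
  have hcell : ∀ j ∈ J, ‖∑ n ∈ Ico a b with ⌊δ n⌋ = j, ee (f n)‖ ≤ 3 + 3 / √l := by
    intro j _
    set S := (Ico a b).filter fun n => ⌊δ n⌋ = j with hS
    have hfl : ∀ n ∈ S, (j : ℝ) ≤ δ n ∧ δ n < j + 1 := by
      intro n hn
      have h1 := (mem_filter.1 hn).2
      rw [← h1]
      exact ⟨Int.floor_le _, Int.lt_floor_add_one _⟩
    rw [← sum_filter_add_sum_filter_not S fun n => δ n - j < θ,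
      ← sum_filter_add_sum_filter_not (S.filter fun n => ¬ δ n - j < θ) fun n => 1 - θ < δ n - j]
    have hcard : ∀ U : Finset ℕ, ‖∑ n ∈ U, ee (f n)‖ ≤ U.card := by
      intro U
      refine (norm_sum_le _ _).trans ?_
      simp only [norm_ee, sum_const, nsmul_eq_mul, mul_one, le_refl]
    have b1 : ((S.filter fun n => δ n - j < θ).card : ℝ) ≤ θ / l + 1 := by
      refine card_incr hl hθ0.le hincr _ ?_ ?_
      · exact (filter_subset _ _).trans (filter_subset _ _)
      · intro n hn m hm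
        have h1 := (hfl n (mem_filter.1 hn).1).1
        have h2 := (mem_filter.1 hm).2
        linarith
    have b2 : (((S.filter fun n => ¬ δ n - j < θ).filter fun n => 1 - θ < δ n - j).card : ℝ) ≤
        θ / l + 1 := by
      refine card_incr hl hθ0.le hincr _ ?_ ?_
      · exact ((filter_subset _ _).trans (filter_subset _ _)).trans (filter_subset _ _)
      · intro n hn m hm
        have h1 := (mem_filter.1 hn).2
        have h2 := (hfl m (mem_filter.1 (mem_filter.1 hm).1).1).2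
        linarith
    set M := (S.filter fun n => ¬ δ n - j < θ).filter fun n => ¬ 1 - θ < δ n - j with hM
    have hMmem : ∀ n, n ∈ M ↔ (a ≤ n ∧ n < b) ∧ ⌊δ n⌋ = j ∧ θ ≤ δ n - j ∧ δ n - j ≤ 1 - θ := by
      intro n
      rw [hM, mem_filter, mem_filter, hS, mem_filter, mem_Ico, not_lt, not_lt]
      tauto
    have b3 : ‖∑ n ∈ M, ee (f n)‖ ≤ 1 + 1 / θ := by
      rcases M.eq_empty_or_nonempty with h0 | h0
      · rw [h0, sum_empty, norm_zero]
        positivity
      · obtain ⟨c, k, hck⟩ := convex_finset M h0 (by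
          intro x hx y hy n h1 h2
          rw [hMmem] at hx hy ⊢
          have h3 : a ≤ n := le_trans hx.1.1 h1
          have h4 : n < b := lt_of_le_of_lt h2 hy.1.2
          have h5 := hmono x n hx.1.1 h1 h4
          have h6 := hmono n y h3 h2 hy.1.2
          refine ⟨⟨h3, h4⟩, ?_, ?_, ?_⟩
          · apply le_antisymm
            · rw [← hy.2.1]; exact Int.floor_le_floor h6
            · rw [← hx.2.1]; exact Int.floor_le_floor h5
          · linarith [hx.2.2.1]
          · linarith [hy.2.2.2])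
        have hin : ∀ n, c ≤ n → n ≤ c + k → n ∈ M := fun n h1 h2 => by
          rw [hck, mem_Ico]; omega
        rw [hck]
        refine kuzmin_landau f c k j hθ0 (fun n h1 h2 => ?_) (fun n h1 h2 => ?_)
          (fun n h1 h2 => ?_)
        · exact ((hMmem n).1 (hin n h1 h2)).2.2.1
        · exact ((hMmem n).1 (hin n h1 h2)).2.2.2
        · have h3 := ((hMmem n).1 (hin n h1 (by omega))).1
          have h4 := ((hMmem (n + 1)).1 (hin (n + 1) (by omega) (by omega))).1
          exact hmono n (n + 1) h3.1 (by omega) h4.2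
    have e1 : θ / l = 1 / θ := by
      rw [div_eq_div_iff hl.ne' hθ0.ne', one_mul, hθ, Real.mul_self_sqrt hl.le]
    calc _ ≤ ‖∑ n ∈ S.filter (fun n => δ n - j < θ), ee (f n)‖ +
          ‖(∑ n ∈ (S.filter fun n => ¬ δ n - j < θ).filter (fun n => 1 - θ < δ n - j), ee (f n)) +
          ∑ n ∈ M, ee (f n)‖ := norm_add_le _ _
      _ ≤ ((S.filter fun n => δ n - j < θ).card : ℝ) +
          ((((S.filter fun n => ¬ δ n - j < θ).filter fun n => 1 - θ < δ n - j).card : ℝ) +
          (1 + 1 / θ)) := by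
          refine add_le_add (hcard _) ((norm_add_le _ _).trans (add_le_add (hcard _) b3))
      _ ≤ (θ / l + 1) + ((θ / l + 1) + (1 + 1 / θ)) := by linarith
      _ = 3 + 3 / θ := by
          rw [e1]
          ring
  rw [← sum_fiberwise_of_maps_to hmap]
  refine (norm_sum_le _ _).trans ((sum_le_sum hcell).trans ?_)
  rw [sum_const, nsmul_eq_mul]
  exact mul_le_mul_of_nonneg_right hJc (by positivity)

end Pool.Agent.ZP
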