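import Pool.Agent.Lib_helper50.ZP.PL
import Pool.Agent.Lib_helper50.ZP.Afe
import Pool.Agent.Lib_helper61.FG.DivB

/-!
# The functional equation of `L(s, Φ)` for periodic `Φ`
-/

set_option autoImplicit false

namespace Pool.Agent.ZP

open Complex MeasureTheory Filter Topology Set
open scoped ZMod

/-! ## Boundedness of completed functions in strips -/

theorem mellin_bdd {f : ℝ → ℂ} {a b : ℝ} (ha : MellinConvergent f a) (hb : MellinConvergent f b) :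
    ∃ C : ℝ, 0 ≤ C ∧ ∀ s : ℂ, a ≤ s.re → s.re ≤ b → ‖mellin f s‖ ≤ C := by
  unfold MellinConvergent at ha hb
  have h1 := ha.norm
  have h2 := hb.norm
  have e : ∀ (s : ℂ) (t : ℝ), t ∈ Ioi (0 : ℝ) →
      ‖(t : ℂ) ^ (s - 1) • f t‖ = t ^ (s.re - 1) * ‖f t‖ := by
    intro s t ht
    rw [norm_smul, Complex.norm_cpow_eq_rpow_re_of_pos ht]
    simp
  refine ⟨(∫ t in Ioi (0 : ℝ), ‖(t : ℂ) ^ ((a : ℂ) - 1) • f t‖) +
    ∫ t in Ioi (0 : ℝ), ‖(t : ℂ) ^ ((b : ℂ) - 1) • f t‖, ?_, fun s h3 h4 => ?_⟩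
  · exact add_nonneg (integral_nonneg fun t => norm_nonneg _) (integral_nonneg fun t => norm_nonneg _)
  · unfold mellin
    rw [← integral_add h1 h2]
    refine (norm_integral_le_integral_norm _).trans ?_
    refine integral_mono_of_nonneg (Eventually.of_forall fun t => norm_nonneg _) (h1.add h2) ?_
    refine (ae_restrict_iff' measurableSet_Ioi).2 (Eventually.of_forall fun t ht => ?_)
    simp only
    rw [e s t ht, e a t ht, e b t ht, ← add_mul]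
    refine mul_le_mul_of_nonneg_right ?_ (norm_nonneg _)
    have ht' : 0 < t := ht
    simp only [ofReal_re]
    rcases le_total 1 t with h5 | h5
    · have h6 : t ^ (s.re - 1) ≤ t ^ (b - 1) := Real.rpow_le_rpow_of_exponent_le h5 (by linarith)
      have h7 : 0 ≤ t ^ (a - 1) := by positivity
      linarith
    · have h6 : t ^ (s.re - 1) ≤ t ^ (a - 1) :=
        Real.rpow_le_rpow_of_exponent_ge ht' h5 (by linarith)
      have h7 : 0 ≤ t ^ (b - 1) := by positivity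
      linarith

theorem strong_bdd {P : WeakFEPair ℂ} (hP : IsStrongFEPair P) (a b : ℝ) :
    ∃ C : ℝ, 0 ≤ C ∧ ∀ s : ℂ, a ≤ s.re → s.re ≤ b → ‖P.Λ s‖ ≤ C := by
  obtain ⟨C, hC, h⟩ := mellin_bdd (hP.hasMellin (a : ℂ)).1 (hP.hasMellin (b : ℂ)).1
  refine ⟨C, hC, fun s h1 h2 => ?_⟩
  rw [← (hP.hasMellin s).2]
  exact h s h1 h2

theorem weak_bdd (P : WeakFEPair ℂ) (a b : ℝ) :
    ∃ C : ℝ, 0 ≤ C ∧ ∀ s : ℂ, a ≤ s.re → s.re ≤ b → ‖P.Λ₀ s‖ ≤ C :=
  mellin_bdd (P.isStrongFEPair_toStrongFEPair.hasMellin (a : ℂ)).1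
    (P.isStrongFEPair_toStrongFEPair.hasMellin (b : ℂ)).1

theorem hurwitz_even_bdd (x : UnitAddCircle) (a b : ℝ) : ∃ C : ℝ, 0 ≤ C ∧ ∀ s : ℂ, a ≤ s.re →
    s.re ≤ b → ‖HurwitzZeta.completedHurwitzZetaEven₀ x s‖ ≤ C := by
  obtain ⟨C, hC, h⟩ := weak_bdd (HurwitzZeta.hurwitzEvenFEPair x) (a / 2) (b / 2)
  refine ⟨C, hC, fun s h1 h2 => ?_⟩
  unfold HurwitzZeta.completedHurwitzZetaEven₀
  have hre : (s / 2).re = s.re / 2 := by simp
  have h3 := h (s / 2) (by rw [hre]; linarith) (by rw [hre]; linarith)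
  rw [norm_div]
  have h4 : ‖(2 : ℂ)‖ = 2 := by norm_num
  rw [h4]
  linarith [norm_nonneg ((HurwitzZeta.hurwitzEvenFEPair x).Λ₀ (s / 2))]

theorem hurwitz_odd_bdd (x : UnitAddCircle) (a b : ℝ) : ∃ C : ℝ, 0 ≤ C ∧ ∀ s : ℂ, a ≤ s.re →
    s.re ≤ b → ‖HurwitzZeta.completedHurwitzZetaOdd x s‖ ≤ C := by
  obtain ⟨C, hC, h⟩ := strong_bdd (HurwitzZeta.isStrong_hurwitzOddFEPair x)
    ((a + 1) / 2) ((b + 1) / 2)
  refine ⟨C, hC, fun s h1 h2 => ?_⟩
  unfold HurwitzZeta.completedHurwitzZetaOdd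
  have hre : ((s + 1) / 2).re = (s.re + 1) / 2 := by simp
  have h3 := h ((s + 1) / 2) (by rw [hre]; linarith) (by rw [hre]; linarith)
  rw [norm_div]
  have h4 : ‖(2 : ℂ)‖ = 2 := by norm_num
  rw [h4]
  linarith [norm_nonneg ((HurwitzZeta.hurwitzOddFEPair x).Λ ((s + 1) / 2))]

section per

variable {q : ℕ} [NeZero q]

theorem q_pos : (0 : ℝ) < q := by
  exact_mod_cast Nat.pos_of_ne_zero (NeZero.ne q)

theorem norm_qpow (s : ℂ) : ‖(q : ℂ) ^ s‖ = (q : ℝ) ^ s.re := by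
  have := Complex.norm_cpow_eq_rpow_re_of_pos (q_pos (q := q)) s
  simpa using this

theorem qpow_bdd (a b : ℝ) : ∃ C : ℝ, 0 ≤ C ∧ ∀ s : ℂ, a ≤ s.re → s.re ≤ b →
    ‖(q : ℂ) ^ (-s)‖ ≤ C := by
  refine ⟨(q : ℝ) ^ (-a), by positivity, fun s h1 _ => ?_⟩
  rw [norm_qpow, neg_re]
  refine Real.rpow_le_rpow_of_exponent_le ?_ (by linarith)
  exact_mod_cast Nat.one_le_iff_ne_zero.2 (NeZero.ne q)

theorem completed0_bdd (Φ : ZMod q → ℂ) (a b : ℝ) : ∃ C : ℝ, 0 ≤ C ∧ ∀ s : ℂ, a ≤ s.re →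
    s.re ≤ b → ‖ZMod.completedLFunction₀ Φ s‖ ≤ C := by
  choose C1 hC1 h1 using fun j : ZMod q => hurwitz_even_bdd (ZMod.toAddCircle j) a b
  choose C2 hC2 h2 using fun j : ZMod q => hurwitz_odd_bdd (ZMod.toAddCircle j) a b
  obtain ⟨C3, hC3, h3⟩ := qpow_bdd (q := q) a b
  refine ⟨C3 * (∑ j, ‖Φ j‖ * C1 j) + C3 * (∑ j, ‖Φ j‖ * C2 j), ?_, fun s h4 h5 => ?_⟩
  · exact add_nonneg
      (mul_nonneg hC3 (Finset.sum_nonneg fun j _ => mul_nonneg (norm_nonneg _) (hC1 j)))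
      (mul_nonneg hC3 (Finset.sum_nonneg fun j _ => mul_nonneg (norm_nonneg _) (hC2 j)))
  · unfold ZMod.completedLFunction₀
    refine (norm_add_le _ _).trans (add_le_add ?_ ?_)
    · rw [norm_mul]
      refine mul_le_mul (h3 s h4 h5) ?_ (norm_nonneg _) hC3
      refine (norm_sum_le _ _).trans (Finset.sum_le_sum fun j _ => ?_)
      rw [norm_mul]
      exact mul_le_mul_of_nonneg_left (h1 j s h4 h5) (norm_nonneg _)
    · rw [norm_mul]
      refine mul_le_mul (h3 s h4 h5) ?_ (norm_nonneg _) hC3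
      refine (norm_sum_le _ _).trans (Finset.sum_le_sum fun j _ => ?_)
      rw [norm_mul]
      exact mul_le_mul_of_nonneg_left (h2 j s h4 h5) (norm_nonneg _)

theorem completed_bdd (Φ : ZMod q → ℂ) (a b : ℝ) : ∃ C : ℝ, 0 ≤ C ∧ ∀ s : ℂ, a ≤ s.re →
    s.re ≤ b → 1 ≤ |s.im| → ‖ZMod.completedLFunction Φ s‖ ≤ C := by
  obtain ⟨C1, hC1, h1⟩ := completed0_bdd Φ a b
  obtain ⟨C3, hC3, h3⟩ := qpow_bdd (q := q) a b
  refine ⟨C1 + C3 * ‖Φ 0‖ + C3 * ‖∑ j, Φ j‖, by positivity, fun s h4 h5 h6 => ?_⟩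
  rw [ZMod.completedLFunction_eq]
  have h7 : 1 ≤ ‖s‖ := h6.trans (Complex.abs_im_le_norm s)
  have h8 : 1 ≤ ‖1 - s‖ := by
    have := Complex.abs_im_le_norm (1 - s)
    simp only [sub_im, one_im, zero_sub, abs_neg] at this
    linarith
  refine (norm_sub_le _ _).trans (add_le_add ((norm_sub_le _ _).trans (add_le_add (h1 s h4 h5) ?_)) ?_)
  · rw [norm_div, norm_mul]
    refine (div_le_self (by positivity) h7).trans ?_
    exact mul_le_mul_of_nonneg_right (h3 s h4 h5) (norm_nonneg _)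
  · rw [norm_div, norm_mul]
    refine (div_le_self (by positivity) h8).trans ?_
    exact mul_le_mul_of_nonneg_right (h3 s h4 h5) (norm_nonneg _)

/-- the parity of `Φ` -/
def Par (κ : ℕ) (Φ : ZMod q → ℂ) : Prop := (κ = 0 ∧ Φ.Even) ∨ (κ = 1 ∧ Φ.Odd)

omit [NeZero q] in
theorem Par.le {κ : ℕ} {Φ : ZMod q → ℂ} (h : Par κ Φ) : κ ≤ 1 := by
  rcases h with h | h <;> omega

theorem LFunction_eq_div {κ : ℕ} {Φ : ZMod q → ℂ} (h : Par κ Φ) {s : ℂ} (hs : s ≠ 0) :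
    ZMod.LFunction Φ s = ZMod.completedLFunction Φ s * (Gammaℝ (s + κ))⁻¹ := by
  rw [← div_eq_mul_inv]
  rcases h with ⟨rfl, h⟩ | ⟨rfl, h⟩
  · rw [ZMod.LFunction_eq_completed_div_gammaFactor_even h s (Or.inl hs)]
    simp
  · rw [ZMod.LFunction_eq_completed_div_gammaFactor_odd h s]
    simp

/-- `(s - 1) L(s, Φ)` -/
noncomputable def Lp1 (Φ : ZMod q → ℂ) : ℂ → ℂ :=
  Function.update (fun s => (s - 1) * ZMod.LFunction Φ s) 1 (∑ j, Φ j / q)

theorem Lp1_of_ne (Φ : ZMod q → ℂ) {s : ℂ} (hs : s ≠ 1) :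
    Lp1 Φ s = (s - 1) * ZMod.LFunction Φ s := by
  unfold Lp1
  rw [Function.update_of_ne hs]

theorem Lp1_diff (Φ : ZMod q → ℂ) : Differentiable ℂ (Lp1 Φ) := by
  rw [← differentiableOn_univ,
    ← differentiableOn_compl_singleton_and_continuousAt_iff (c := 1) Filter.univ_mem]
  constructor
  · intro s hs
    have hs1 : s ≠ 1 := by simpa using hs
    have h1 : DifferentiableAt ℂ (fun s => (s - 1) * ZMod.LFunction Φ s) s :=
      DifferentiableAt.mul (by fun_prop) (ZMod.differentiableAt_LFunction Φ s (Or.inl hs1))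
    refine (h1.congr_of_eventuallyEq ?_).differentiableWithinAt
    filter_upwards [isOpen_ne.mem_nhds hs1] with w hw
    exact Lp1_of_ne Φ hw
  · unfold Lp1
    rw [continuousAt_update_same]
    exact ZMod.LFunction_residue_one Φ

theorem Lp1_growth {κ : ℕ} {Φ : ZMod q → ℂ} (h : Par κ Φ) : Gr (-1 / 2) (3 / 2) (Lp1 Φ) := by
  obtain ⟨C1, hC1, h1⟩ := completed_bdd Φ (-1 / 2) (3 / 2)
  obtain ⟨C2, hC2, h2⟩ := inv_GammaR_bound
  have hcpt : IsCompact ((Icc (-1 / 2 : ℝ) (3 / 2)) ×ℂ (Icc (-1 : ℝ) 1)) :=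
    isCompact_Icc.reProdIm isCompact_Icc
  obtain ⟨C3, hC3⟩ := hcpt.exists_bound_of_continuousOn (Lp1_diff Φ).continuous.continuousOn
  have hκ : (κ : ℝ) ≤ 1 := by exact_mod_cast h.le
  have hκ0 : (0 : ℝ) ≤ κ := Nat.cast_nonneg κ
  have hC3' : C3 ≤ |C3| := le_abs_self _
  refine Gr.of_le (C := 4 * C1 * C2 + |C3|) (K := 5) fun w h3 h4 => ?_
  by_cases him : |w.im| ≤ 1
  · have h5 := hC3 w (by
      rw [Complex.mem_reProdIm]
      exact ⟨⟨h3, h4⟩, abs_le.1 him⟩)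
    have h6 : (1 : ℝ) ≤ Real.exp (5 * |w.im|) := Real.one_le_exp (by positivity)
    have h7 : 0 ≤ 4 * C1 * C2 := by positivity
    have h8 : 0 ≤ |C3| := abs_nonneg _
    nlinarith
  · push Not at him
    have hne : w ≠ 1 := by
      intro h5
      rw [h5] at him
      simp at him
      linarith
    have hne0 : w ≠ 0 := by
      intro h5
      rw [h5] at him
      simp at him
      linarith
    rw [Lp1_of_ne Φ hne, LFunction_eq_div h hne0, norm_mul, norm_mul]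
    have e1 : (w + κ).re = w.re + κ := by simp
    have e2 : (w + κ).im = w.im := by simp
    have h5 := h2 (w + κ) (by rw [e1]; linarith) (by rw [e1]; linarith)
    rw [e2] at h5
    have h6 := h1 w h3 h4 him.le
    have h7 : ‖w - 1‖ ≤ 4 * Real.exp |w.im| := by
      have h8 := Complex.norm_le_abs_re_add_abs_im (w - 1)
      have h9 : |(w - 1).re| ≤ 3 / 2 := by
        rw [sub_re, one_re, abs_le]
        constructor <;> linarith
      have h10 : |(w - 1).im| = |w.im| := by simp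
      have h11 := Real.add_one_le_exp |w.im|
      rw [h10] at h8
      have h12 := abs_nonneg w.im
      linarith
    have hexp : Real.exp |w.im| * Real.exp (4 * |w.im|) = Real.exp (5 * |w.im|) := by
      rw [← Real.exp_add]
      congr 1
      ring
    calc ‖w - 1‖ * (‖ZMod.completedLFunction Φ w‖ * ‖(Gammaℝ (w + κ))⁻¹‖)
        ≤ (4 * Real.exp |w.im|) * (C1 * (C2 * Real.exp (4 * |w.im|))) :=
          mul_le_mul h7 (mul_le_mul h6 h5 (norm_nonneg _) hC1) (by positivity) (by positivity)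
      _ = (4 * C1 * C2) * Real.exp (5 * |w.im|) := by
          rw [← hexp]
          ring
      _ ≤ _ := by
          refine mul_le_mul_of_nonneg_right ?_ (Real.exp_pos _).le
          linarith [abs_nonneg C3]

/-- the factor in the functional equation -/
noncomputable def XL (q κ : ℕ) (s : ℂ) : ℂ := I ^ κ * (q : ℂ) ^ (-s) * Xk κ s

theorem func_eq {κ : ℕ} {Φ : ZMod q → ℂ} (h : Par κ Φ) {s : ℂ} (hs : s.re < 0) :
    ZMod.LFunction Φ s = XL q κ s * ZMod.LFunction (𝓕 Φ) (1 - s) := by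
  have hs0 : s ≠ 0 := by
    intro h0
    rw [h0, zero_re] at hs
    exact lt_irrefl _ hs
  have h1s : (1 : ℂ) - s ≠ 0 := by
    intro h0
    have := congrArg Complex.re h0
    simp at this
    linarith
  have hκ0 : (0 : ℝ) ≤ κ := Nat.cast_nonneg κ
  have hF : Par κ (𝓕 Φ) := by
    rcases h with ⟨hk, h⟩ | ⟨hk, h⟩
    · exact Or.inl ⟨hk, ZMod.dft_even_iff.2 h⟩
    · exact Or.inr ⟨hk, ZMod.dft_odd_iff.2 h⟩
  have h2 : ZMod.completedLFunction Φ s =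
      I ^ κ * (q : ℂ) ^ (-s) * ZMod.completedLFunction (𝓕 Φ) (1 - s) := by
    have e : s = 1 - (1 - s) := by ring
    have e2 : (1 : ℂ) - s - 1 = -s := by ring
    rcases h with ⟨rfl, h⟩ | ⟨rfl, h⟩
    · have h3 := ZMod.completedLFunction_one_sub_even h (1 - s) (Or.inl h1s) (Or.inl (by
        intro h4
        apply hs0
        linear_combination -h4))
      rw [← e, e2] at h3
      rw [h3]
      simp
    · have h3 := ZMod.completedLFunction_one_sub_odd h (1 - s)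
      rw [← e, e2] at h3
      rw [h3]
      ring
  have h3 : Gammaℝ (1 - s + κ) ≠ 0 := by
    refine Gammaℝ_ne_zero_of_re_pos ?_
    simp only [add_re, sub_re, one_re, natCast_re]
    linarith
  have h4 := LFunction_eq_div hF h1s
  have h5 : ZMod.completedLFunction (𝓕 Φ) (1 - s) =
      ZMod.LFunction (𝓕 Φ) (1 - s) * Gammaℝ (1 - s + κ) := by
    rw [h4]
    field_simp
  rw [LFunction_eq_div h hs0, h2, h5]
  unfold XL Xk
  ring

/-- the coefficients of `L(s, Φ)` -/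
noncomputable def cf (Φ : ZMod q → ℂ) (n : ℕ) : ℂ := if n = 0 then 0 else Φ (n : ZMod q)

/-- a bound for `Φ` -/
noncomputable def nB (Φ : ZMod q → ℂ) : ℝ := ∑ j, ‖Φ j‖

theorem nB_nonneg (Φ : ZMod q → ℂ) : 0 ≤ nB Φ := by
  unfold nB
  positivity

theorem norm_cf_le (Φ : ZMod q → ℂ) (n : ℕ) : ‖cf Φ n‖ ≤ nB Φ := by
  unfold cf
  split_ifs
  · rw [norm_zero]; exact nB_nonneg Φ
  · exact Finset.single_le_sum (f := fun j => ‖Φ j‖) (fun j _ => norm_nonneg _)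
      (Finset.mem_univ (n : ZMod q))

theorem LSeries_eq_Sm {f : ℕ → ℂ} (h0 : f 0 = 0) (u : ℝ) :
    LSeries f (3 / 2 + u * I) = Sm (fun n => f n * (((n : ℝ) ^ (-(3 / 2) : ℝ) : ℝ) : ℂ)) u := by
  unfold LSeries Sm
  refine tsum_congr fun n => ?_
  by_cases hn : n = 0
  · subst hn
    simp [h0]
  · rw [LSeries.term_of_ne_zero hn, div_eq_mul_inv, ← Complex.cpow_neg]
    have h1 := cpow_eq_en hn (3 / 2) u
    have e : (-(3 / 2 + (u : ℂ) * I)) = -(((3 / 2 : ℝ) : ℂ) + u * I) := by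
      push_cast; ring
    rw [e, h1]
    ring

omit [NeZero q] in
theorem LSeries_cf (Φ : ZMod q → ℂ) (s : ℂ) :
    LSeries (fun n : ℕ => Φ (n : ZMod q)) s = LSeries (cf Φ) s := by
  refine LSeries_congr (fun {n} hn => ?_) s
  unfold cf
  rw [if_neg hn]

theorem LF_right (Φ : ZMod q → ℂ) (u : ℝ) : ZMod.LFunction Φ (3 / 2 + u * I) =
    Sm (fun n => cf Φ n * (((n : ℝ) ^ (-(3 / 2) : ℝ) : ℝ) : ℂ)) u := by
  rw [ZMod.LFunction_eq_LSeries Φ (by norm_num), LSeries_cf,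
    LSeries_eq_Sm (by simp [cf])]

theorem cf_summable (Φ : ZMod q → ℂ) :
    Summable fun n : ℕ => ‖cf Φ n‖ * (n : ℝ) ^ (-(3 / 2) : ℝ) := by
  have h1 : Summable fun n : ℕ => (n : ℝ) ^ (-(3 / 2) : ℝ) :=
    Real.summable_nat_rpow.2 (by norm_num)
  refine (h1.mul_left (nB Φ)).of_nonneg_of_le (fun n => by positivity) fun n => ?_
  exact mul_le_mul_of_nonneg_right (norm_cf_le Φ n) (by positivity)

theorem XL_diff (κ : ℕ) {z : ℂ} (hz : z.re < 1) : DifferentiableAt ℂ (XL q κ) z := by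
  unfold XL
  refine DifferentiableAt.mul (DifferentiableAt.mul (by fun_prop) ?_) (Xk_diff κ hz)
  refine DifferentiableAt.const_cpow (by fun_prop) (Or.inl ?_)
  exact_mod_cast NeZero.ne q

theorem XL_growth {κ : ℕ} (hκ : κ ≤ 1) : Gr (-1 / 2) (1 / 2) (XL q κ) := by
  obtain ⟨C, _, h⟩ := Xk_growth hκ
  have h1 : Gr (-1 / 2) (1 / 2) (Xk κ) := Gr.of_le (C := C) (K := 4) h
  obtain ⟨C2, hC2, h2⟩ := qpow_bdd (q := q) (-1 / 2) (1 / 2)
  have h3 : Gr (-1 / 2) (1 / 2) fun s => (q : ℂ) ^ (-s) :=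
    Gr.of_le (C := C2) (K := 0) fun w h4 h5 => by simpa using h2 w h4 h5
  exact ((Gr.const (I ^ κ)).mul h3).mul h1

theorem XL_bound {κ : ℕ} (hκ : κ ≤ 1) {η : ℝ} (h0 : 0 ≤ η) (h1 : η ≤ 1) (t : ℝ) :
    ‖XL q κ (((1 / 2 - η : ℝ) : ℂ) + (t : ℂ) * I)‖ ≤ 4 * q * (1 + |t|) ^ η := by
  unfold XL
  rw [norm_mul, norm_mul, norm_qpow, norm_pow, Complex.norm_I, one_pow, one_mul]
  have h2 := Xk_convex hκ h0 h1 t
  have h3 : (q : ℝ) ^ (-(((1 / 2 - η : ℝ) : ℂ) + (t : ℂ) * I)).re ≤ q := by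
    have h4 : (-(((1 / 2 - η : ℝ) : ℂ) + (t : ℂ) * I)).re = η - 1 / 2 := by
      simp
    rw [h4]
    calc (q : ℝ) ^ (η - 1 / 2) ≤ (q : ℝ) ^ (1 : ℝ) := by
          refine Real.rpow_le_rpow_of_exponent_le ?_ (by linarith)
          exact_mod_cast Nat.one_le_iff_ne_zero.2 (NeZero.ne q)
      _ = q := Real.rpow_one _
  calc _ ≤ (q : ℝ) * (4 * (1 + |t|) ^ η) :=
        mul_le_mul h3 h2 (norm_nonneg _) (Nat.cast_nonneg q)
    _ = _ := by ring

/-- the functional equation of `L(s, Φ)` -/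
theorem FE1 {κ : ℕ} {Φ : ZMod q → ℂ} (h : Par κ Φ) :
    FEData 1 (Lp1 Φ) (XL q κ) (cf Φ) (cf (𝓕 Φ)) where
  diff := Lp1_diff Φ
  growth := Lp1_growth h
  a0 := by simp [cf]
  b0 := by simp [cf]
  aS := cf_summable Φ
  bS := cf_summable (𝓕 Φ)
  right u := by
    have hne : (3 / 2 + (u : ℂ) * I) ≠ 1 := by
      intro h1
      have := congrArg Complex.re h1
      simp at this
      norm_num at this
    rw [Lp1_of_ne Φ hne, LF_right]
    ring
  left u := by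
    have hne : (-1 / 2 + (u : ℂ) * I) ≠ 1 := by
      intro h1
      have := congrArg Complex.re h1
      simp at this
      norm_num at this
    have e : (1 : ℂ) - (-1 / 2 + u * I) = 3 / 2 + ((-u : ℝ) : ℂ) * I := by
      push_cast; ring
    rw [Lp1_of_ne Φ hne, func_eq h (by simp; norm_num), e, LF_right]
    ring
  Ydiff z hz := XL_diff κ hz
  Ygrowth := XL_growth h.le

/-- the coefficients of the square -/
noncomputable def cf2 (Φ : ZMod q → ℂ) : ℕ → ℂ := LSeries.convolution (cf Φ) (cf Φ)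

theorem norm_cf2_le (Φ : ZMod q → ℂ) {ε : ℝ} (hε : 0 < ε) :
    ∃ C : ℝ, 0 ≤ C ∧ ∀ n : ℕ, 1 ≤ n → ‖cf2 Φ n‖ ≤ C * (n : ℝ) ^ ε := by
  obtain ⟨C, hC, h⟩ := Pool.Agent.FG61.divisor_bound hε
  have hB := nB_nonneg Φ
  refine ⟨nB Φ ^ 2 * C, by positivity, fun n hn => ?_⟩
  unfold cf2
  rw [LSeries.convolution_def]
  simp only
  refine (norm_sum_le _ _).trans ?_
  have h1 : ∀ p ∈ n.divisorsAntidiagonal, ‖cf Φ p.1 * cf Φ p.2‖ ≤ nB Φ ^ 2 := by
    intro p _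
    rw [norm_mul, sq]
    exact mul_le_mul (norm_cf_le Φ _) (norm_cf_le Φ _) (norm_nonneg _) hB
  refine (Finset.sum_le_sum h1).trans ?_
  rw [Finset.sum_const, nsmul_eq_mul, ← Nat.map_div_right_divisors, Finset.card_map]
  have h2 := h n (by omega)
  calc (n.divisors.card : ℝ) * nB Φ ^ 2 ≤ (C * (n : ℝ) ^ ε) * nB Φ ^ 2 :=
        mul_le_mul_of_nonneg_right h2 (by positivity)
    _ = _ := by ring

omit [NeZero q] in
theorem cf2_zero (Φ : ZMod q → ℂ) : cf2 Φ 0 = 0 := by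
  unfold cf2
  exact LSeries.convolution_map_zero _ _

theorem cf2_summable (Φ : ZMod q → ℂ) :
    Summable fun n : ℕ => ‖cf2 Φ n‖ * (n : ℝ) ^ (-(3 / 2) : ℝ) := by
  obtain ⟨C, hC, h⟩ := norm_cf2_le Φ (ε := 1 / 4) (by norm_num)
  have h1 : Summable fun n : ℕ => (n : ℝ) ^ (-(5 / 4) : ℝ) :=
    Real.summable_nat_rpow.2 (by norm_num)
  refine (h1.mul_left C).of_nonneg_of_le (fun n => by positivity) fun n => ?_
  rcases Nat.eq_zero_or_pos n with h0 | h0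
  · subst h0
    rw [cf2_zero, norm_zero, zero_mul]
    positivity
  · have hn : (0 : ℝ) < n := by exact_mod_cast h0
    calc ‖cf2 Φ n‖ * (n : ℝ) ^ (-(3 / 2) : ℝ)
        ≤ (C * (n : ℝ) ^ (1 / 4 : ℝ)) * (n : ℝ) ^ (-(3 / 2) : ℝ) :=
          mul_le_mul_of_nonneg_right (h n h0) (by positivity)
      _ = C * (n : ℝ) ^ (-(5 / 4) : ℝ) := by
          rw [mul_assoc, ← Real.rpow_add hn]
          norm_num

theorem Sm_sq (Φ : ZMod q → ℂ) (u : ℝ) :
    Sm (fun n => cf Φ n * (((n : ℝ) ^ (-(3 / 2) : ℝ) : ℝ) : ℂ)) u ^ 2 =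
      Sm (fun n => cf2 Φ n * (((n : ℝ) ^ (-(3 / 2) : ℝ) : ℝ) : ℂ)) u := by
  rw [← LSeries_eq_Sm (f := cf Φ) (by simp [cf]), ← LSeries_eq_Sm (cf2_zero Φ)]
  unfold cf2
  have hs : LSeriesSummable (cf Φ) (3 / 2 + u * I) := by
    have h1 := ZMod.LSeriesSummable_of_one_lt_re Φ (s := 3 / 2 + u * I) (by norm_num)
    refine (LSeriesSummable_congr _ fun {n} hn => ?_).1 h1
    unfold cf
    rw [if_neg hn]
  rw [LSeries_convolution' hs hs, sq]

/-- the functional equation of `L(s, Φ) ^ 2` -/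
theorem FE2 {κ : ℕ} {Φ : ZMod q → ℂ} (h : Par κ Φ) :
    FEData 2 (fun s => Lp1 Φ s ^ 2) (fun s => XL q κ s ^ 2) (cf2 Φ) (cf2 (𝓕 Φ)) where
  diff := (Lp1_diff Φ).pow 2
  growth := (Lp1_growth h).pow 2
  a0 := cf2_zero Φ
  b0 := cf2_zero (𝓕 Φ)
  aS := cf2_summable Φ
  bS := cf2_summable (𝓕 Φ)
  right u := by
    rw [(FE1 h).right, mul_pow, Sm_sq, pow_one]
  left u := by
    rw [(FE1 h).left, mul_pow, mul_pow, Sm_sq, pow_one]
  Ydiff z hz := (XL_diff κ hz).pow 2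
  Ygrowth := (XL_growth h.le).pow 2

theorem XL_sq_bound {κ : ℕ} (hκ : κ ≤ 1) (η : ℝ) (h0 : 0 ≤ η) (h1 : η ≤ 1) (t : ℝ) :
    ‖XL q κ (((1 / 2 - η : ℝ) : ℂ) + (t : ℂ) * I) ^ 2‖ ≤ (4 * q) ^ 2 * (1 + |t|) ^ (2 * η) := by
  rw [norm_pow]
  have h2 := XL_bound (q := q) hκ h0 h1 t
  calc _ ≤ (4 * q * (1 + |t|) ^ η) ^ 2 := pow_le_pow_left₀ (norm_nonneg _) h2 2
    _ = _ := by
        rw [mul_pow, ← Real.rpow_natCast ((1 + |t|) ^ η) 2, ← Real.rpow_mul (by positivity)]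
        congr 2
        push_cast
        ring

end per

end Pool.Agent.ZP
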