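import Pool.Agent.Lib_helper50.ZP.Gam

/-!
# Convexity bound for the quotient of Gamma factors
-/

set_option autoImplicit false

namespace Pool.Agent.ZP

open Complex MeasureTheory Filter Topology Set

theorem one_add_le_exp_sq (x : ℝ) : 1 + |x| ≤ Real.exp (x ^ 2 + 1 / 4) := by
  have h1 := Real.add_one_le_exp |x|
  have h2 : Real.exp |x| ≤ Real.exp (x ^ 2 + 1 / 4) := by
    apply Real.exp_le_exp.2
    rw [← sq_abs x]
    nlinarith [sq_nonneg (|x| - 1 / 2)]
  linarith

theorem exp_half_le : Real.exp (1 / 2) ≤ 2 := by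
  have h := Real.exp_one_lt_d9
  have h2 : Real.exp (1 / 2) ^ 2 = Real.exp 1 := by
    rw [← Real.exp_nat_mul]
    norm_num
  have h3 := Real.exp_pos (1 / 2)
  nlinarith

theorem Xk_convex {κ : ℕ} (hκ : κ ≤ 1) {η : ℝ} (h0 : 0 ≤ η) (h1 : η ≤ 1) (t : ℝ) :
    ‖Xk κ ((1 / 2 - η : ℝ) + t * I)‖ ≤ 4 * (1 + |t|) ^ η := by
  set f : ℂ → ℂ := fun z => Xk κ z * cexp ((z - t * I) ^ 2) with hf
  obtain ⟨C, hC, hg⟩ := Xk_growth hκ
  have hκ1 : (κ : ℝ) ≤ 1 := by exact_mod_cast hκ
  have hnorm : ∀ z : ℂ, ‖f z‖ = ‖Xk κ z‖ * Real.exp (z.re ^ 2 - (z.im - t) ^ 2) := by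
    intro z
    rw [hf]
    simp only
    rw [norm_mul, norm_exp_sq']
    congr 2
    simp
  have hclosed : closure (HadamardThreeLines.verticalStrip (-1 / 2) (1 / 2)) ⊆
      HadamardThreeLines.verticalClosedStrip (-1 / 2) (1 / 2) := by
    refine closure_minimal ?_ ?_
    · exact preimage_mono Ioo_subset_Icc_self
    · exact isClosed_Icc.preimage continuous_re
  have hdiff : ∀ z : ℂ, z ∈ HadamardThreeLines.verticalClosedStrip (-1 / 2) (1 / 2) →
      DifferentiableAt ℂ f z := by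
    intro z hz
    have hz2 : z.re ≤ 1 / 2 := hz.2
    exact (Xk_diff κ (by linarith)).mul (by fun_prop)
  have hd : DiffContOnCl ℂ f (HadamardThreeLines.verticalStrip (-1 / 2) (1 / 2)) := by
    refine ⟨fun z hz => (hdiff z (hclosed (subset_closure hz))).differentiableWithinAt,
      fun z hz => (hdiff z (hclosed hz)).continuousAt.continuousWithinAt⟩
  have hB : BddAbove ((norm ∘ f) '' HadamardThreeLines.verticalClosedStrip (-1 / 2) (1 / 2)) := by
    refine ⟨C * Real.exp (4 * |t| + 5), ?_⟩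
    rintro _ ⟨z, hz, rfl⟩
    simp only [Function.comp]
    rw [hnorm]
    have hz1 : -1 / 2 ≤ z.re := hz.1
    have hz2 : z.re ≤ 1 / 2 := hz.2
    have h2 := hg z hz1 hz2
    calc ‖Xk κ z‖ * Real.exp (z.re ^ 2 - (z.im - t) ^ 2)
        ≤ (C * Real.exp (4 * |z.im|)) * Real.exp (z.re ^ 2 - (z.im - t) ^ 2) :=
          mul_le_mul_of_nonneg_right h2 (Real.exp_pos _).le
      _ = C * Real.exp (4 * |z.im| + (z.re ^ 2 - (z.im - t) ^ 2)) := by
          rw [mul_assoc, ← Real.exp_add]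
      _ ≤ C * Real.exp (4 * |t| + 5) := by
          refine mul_le_mul_of_nonneg_left (Real.exp_le_exp.2 ?_) hC.le
          have h3 : |z.im| ≤ |t| + |z.im - t| := by
            have := abs_add_le t (z.im - t)
            rwa [add_sub_cancel] at this
          have h4 : (z.im - t) ^ 2 = |z.im - t| ^ 2 := (sq_abs _).symm
          rw [h4]
          nlinarith [sq_nonneg (|z.im - t| - 2)]
  have hexp := exp_half_le
  have hq : Real.exp (1 / 4) ≤ 2 := by
    refine le_trans (Real.exp_le_exp.2 (by norm_num)) hexp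
  have ha : ∀ z ∈ re ⁻¹' {(-1 / 2 : ℝ)}, ‖f z‖ ≤ 4 * (1 + |t|) := by
    intro z hz
    have hz1 : z.re = -1 / 2 := hz
    have e : z = -1 / 2 + z.im * I := by
      apply Complex.ext
      · simp [hz1]
      · simp
    rw [hnorm]
    have h2 : ‖Xk κ z‖ ≤ (1 + κ) * (1 + |z.im|) := by
      conv_lhs => rw [e]
      exact Xk_left κ z.im
    have h3 : 1 + |z.im| ≤ (1 + |t|) * (1 + |z.im - t|) := by
      have h4 : |z.im| ≤ |t| + |z.im - t| := by
        have := abs_add_le t (z.im - t)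
        rwa [add_sub_cancel] at this
      nlinarith [abs_nonneg t, abs_nonneg (z.im - t)]
    have h4 := one_add_le_exp_sq (z.im - t)
    have h5 : ‖Xk κ z‖ ≤ 2 * ((1 + |t|) * Real.exp ((z.im - t) ^ 2 + 1 / 4)) := by
      refine h2.trans ?_
      have h6 : (1 + |t|) * (1 + |z.im - t|) ≤ (1 + |t|) * Real.exp ((z.im - t) ^ 2 + 1 / 4) :=
        mul_le_mul_of_nonneg_left h4 (by positivity)
      have h7 : 0 ≤ 1 + |z.im| := by positivity
      nlinarith
    calc ‖Xk κ z‖ * Real.exp (z.re ^ 2 - (z.im - t) ^ 2)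
        ≤ 2 * ((1 + |t|) * Real.exp ((z.im - t) ^ 2 + 1 / 4)) *
          Real.exp (z.re ^ 2 - (z.im - t) ^ 2) :=
          mul_le_mul_of_nonneg_right h5 (Real.exp_pos _).le
      _ = 2 * (1 + |t|) * Real.exp ((z.im - t) ^ 2 + 1 / 4 + (z.re ^ 2 - (z.im - t) ^ 2)) := by
          rw [Real.exp_add ((z.im - t) ^ 2 + 1 / 4)]
          ring
      _ = 2 * (1 + |t|) * Real.exp (1 / 2) := by
          congr 2
          rw [hz1]
          ring
      _ ≤ 2 * (1 + |t|) * 2 := by
          refine mul_le_mul_of_nonneg_left hexp (by positivity)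
      _ = _ := by ring
  have hb : ∀ z ∈ re ⁻¹' {(1 / 2 : ℝ)}, ‖f z‖ ≤ 4 := by
    intro z hz
    have hz1 : z.re = 1 / 2 := hz
    have e : z = 1 / 2 + z.im * I := by
      apply Complex.ext
      · simp [hz1]
      · simp
    rw [hnorm]
    have h2 : ‖Xk κ z‖ = 1 := by
      conv_lhs => rw [e]
      exact Xk_half κ z.im
    rw [h2, one_mul]
    refine le_trans (Real.exp_le_exp.2 ?_) (hq.trans (by norm_num))
    rw [hz1]
    nlinarith [sq_nonneg (z.im - t)]
  have hre : (((1 / 2 - η : ℝ) : ℂ) + t * I).re = 1 / 2 - η := by simp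
  have him : (((1 / 2 - η : ℝ) : ℂ) + t * I).im = t := by simp
  have hmem : (((1 / 2 - η : ℝ) : ℂ) + t * I) ∈
      HadamardThreeLines.verticalClosedStrip (-1 / 2) (1 / 2) := by
    change (((1 / 2 - η : ℝ) : ℂ) + t * I).re ∈ Icc (-1 / 2) (1 / 2)
    rw [hre]
    constructor <;> linarith
  have key := HadamardThreeLines.norm_le_interp_of_mem_verticalClosedStrip' (by norm_num) hmem hd
    hB ha hb
  rw [hre] at key
  have e1 : 1 - (1 / 2 - η - -1 / 2) / (1 / 2 - -1 / 2) = η := by ring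
  have e2 : (1 / 2 - η - -1 / 2) / (1 / 2 - -1 / 2) = 1 - η := by ring
  rw [e1, e2, hnorm, hre, him, sub_self] at key
  have h2 : ‖Xk κ (((1 / 2 - η : ℝ) : ℂ) + t * I)‖ ≤
      ‖Xk κ (((1 / 2 - η : ℝ) : ℂ) + t * I)‖ * Real.exp ((1 / 2 - η) ^ 2 - 0 ^ 2) := by
    refine le_mul_of_one_le_right (norm_nonneg _) (Real.one_le_exp ?_)
    nlinarith [sq_nonneg (1 / 2 - η)]
  refine h2.trans (key.trans (le_of_eq ?_))
  rw [Real.mul_rpow (by norm_num) (by positivity), mul_right_comm,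
    ← Real.rpow_add (by norm_num), add_sub_cancel, Real.rpow_one]

end Pool.Agent.ZP
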