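import Pool.Agent.Lib_helper50.ZP.ES
import Pool.Agent.Lib_helper50.ZP.LF
import Pool.Agent.Lib_helper50.ZP.Conv

/-!
# Partial sums of `∑ Φ(n) n ^ (- i u)` and partial summation
-/

set_option autoImplicit false

namespace Pool.Agent.ZP

open Complex Finset

/-- all sums of `(m + β) ^ (- 2 π i c ^ 6)` -/
theorem partial_bound {c β : ℝ} (hc : 1 ≤ c) (hβ0 : 0 ≤ β) (hβ1 : β ≤ 1) (X : ℕ) :
    ‖∑ m ∈ Ico 1 X, ee (Fp (c ^ 6) β m)‖ ≤ 126 * (√X * c + X / c ^ 3) := by
  have hc0 : 0 < c := by linarith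
  induction X using Nat.strong_induction_on with
  | _ X ih =>
    rcases Nat.lt_or_ge X 2 with hX | hX
    · rw [Ico_eq_empty (by omega), sum_empty, norm_zero]
      positivity
    set A := (X + 1) / 2 with hA
    have hA1 : 1 ≤ A := by omega
    have hAX : A < X := by omega
    have hXA : X ≤ 2 * A := by omega
    have hA3 : 4 * A ≤ 3 * X := by omega
    have h1 := ih A hAX
    have h2 := block_bound hc hβ0 hβ1 (A := A) (B := X) hA1 hXA
    rw [← sum_Ico_consecutive _ hA1 hAX.le]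
    have hX0 : (0 : ℝ) ≤ X := Nat.cast_nonneg X
    have hA3' : (A : ℝ) ≤ 3 / 4 * X := by
      have : (4 * A : ℝ) ≤ 3 * X := by exact_mod_cast hA3
      linarith
    have h3 : √(A : ℝ) ≤ 7 / 8 * √X := by
      rw [Real.sqrt_le_left (by positivity), mul_pow, Real.sq_sqrt hX0]
      linarith
    have h4 : √(A : ℝ) * c ≤ 7 / 8 * (√X * c) := by nlinarith
    have h5 : (A : ℝ) / c ^ 3 ≤ 3 / 4 * (X / c ^ 3) := by
      have : (A : ℝ) / c ^ 3 ≤ (3 / 4 * X) / c ^ 3 := by gcongr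
      calc (A : ℝ) / c ^ 3 ≤ (3 / 4 * X) / c ^ 3 := this
        _ = _ := by ring
    have h6 : 0 ≤ (X : ℝ) / c ^ 3 := by positivity
    calc _ ≤ 126 * (√A * c + A / c ^ 3) + 18 * (√A * c + A / c ^ 3) :=
          (norm_add_le _ _).trans (add_le_add h1 h2)
      _ ≤ _ := by linarith

theorem sum_range_mul' (f : ℕ → ℂ) (q M : ℕ) :
    ∑ n ∈ range (q * M), f n = ∑ j ∈ range q, ∑ m ∈ range M, f (q * m + j) := by
  rw [sum_comm]
  induction M with
  | zero => simp
  | succ M ih =>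
    rw [Nat.mul_succ, sum_range_add, ih, sum_range_succ]

section per

variable {q : ℕ} [NeZero q]

theorem en_split {c : ℝ} {m j : ℕ} (hm : 1 ≤ m) :
    en (q * m + j) (2 * Real.pi * c ^ 6) =
      ee (-(c ^ 6 * Real.log q)) * ee (Fp (c ^ 6) ((j : ℝ) / q) m) := by
  have hq : (0 : ℝ) < q := q_pos
  have hm0 : (0 : ℝ) < m := by exact_mod_cast hm
  have e : (((q * m + j : ℕ) : ℝ)) = q * (m + (j : ℝ) / q) := by
    push_cast
    field_simp
  rw [← ee_add]
  unfold en ee Fp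
  rw [e, Real.log_mul hq.ne' (by positivity)]
  congr 1
  push_cast
  ring

/-- the partial sums of `Φ(n) n ^ (- i u)` -/
theorem per_partial (Φ : ZMod q → ℂ) {c : ℝ} (hc : 1 ≤ c) (X : ℕ) :
    ‖∑ n ∈ range X, cf Φ n * en n (2 * Real.pi * c ^ 6)‖ ≤
      128 * q * nB Φ * (√X * c + X / c ^ 3) := by
  have hc0 : 0 < c := by linarith
  have hq : (0 : ℝ) < q := q_pos
  have hq1 : 1 ≤ q := Nat.one_le_iff_ne_zero.2 (NeZero.ne q)
  have hB := nB_nonneg Φ
  rcases Nat.eq_zero_or_pos X with h0 | h0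
  · subst h0
    simp
  have hX1 : (1 : ℝ) ≤ X := by exact_mod_cast h0
  have hsX : 1 ≤ √(X : ℝ) := by rw [Real.one_le_sqrt]; exact hX1
  set M := X / q with hM
  have hdec : X = q * M + X % q := (Nat.div_add_mod X q).symm
  have hr : X % q < q := Nat.mod_lt _ hq1
  set f : ℕ → ℂ := fun n => cf Φ n * en n (2 * Real.pi * c ^ 6) with hf
  have hfn : ∀ n, ‖f n‖ ≤ nB Φ := fun n => by
    rw [hf]
    simp only
    rw [norm_mul, norm_en, mul_one]
    exact norm_cf_le Φ n
  have h1 : ∑ n ∈ range X, f n = ∑ n ∈ range (q * M), f n + ∑ n ∈ range (X % q), f (q * M + n) := by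
    conv_lhs => rw [hdec]
    rw [sum_range_add]
  have h2 : ‖∑ n ∈ range (X % q), f (q * M + n)‖ ≤ q * nB Φ := by
    refine (norm_sum_le _ _).trans ((sum_le_sum fun n _ => hfn _).trans ?_)
    rw [sum_const, card_range, nsmul_eq_mul]
    refine mul_le_mul_of_nonneg_right ?_ hB
    exact_mod_cast hr.le
  have hMX : (M : ℝ) ≤ X := by exact_mod_cast Nat.div_le_self X q
  have h3 : ∀ j ∈ range q, ‖∑ m ∈ range M, f (q * m + j)‖ ≤
      nB Φ + nB Φ * (126 * (√X * c + X / c ^ 3)) := by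
    intro j hj
    rw [mem_range] at hj
    have hj0 : (0 : ℝ) ≤ (j : ℝ) / q := by positivity
    have hj1 : (j : ℝ) / q ≤ 1 := by
      rw [div_le_one hq]
      exact_mod_cast hj.le
    rcases Nat.eq_zero_or_pos M with hM0 | hM0
    · rw [hM0, range_zero, sum_empty, norm_zero]
      positivity
    rw [range_eq_Ico, sum_eq_sum_Ico_succ_bot hM0]
    refine (norm_add_le _ _).trans (add_le_add (hfn _) ?_)
    have e : ∀ m ∈ Ico (0 + 1) M, f (q * m + j) =
        (Φ (j : ZMod q) * ee (-(c ^ 6 * Real.log q))) * ee (Fp (c ^ 6) ((j : ℝ) / q) m) := by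
      intro m hm
      rw [mem_Ico] at hm
      simp only [hf]
      rw [en_split (by omega)]
      have e2 : cf Φ (q * m + j) = Φ (j : ZMod q) := by
        unfold cf
        have : 0 < q * m := Nat.mul_pos hq1 (by omega)
        rw [if_neg (by omega)]
        congr 1
        push_cast
        simp
      rw [e2]
      ring
    rw [sum_congr rfl e, ← mul_sum, norm_mul, norm_mul, norm_ee, mul_one]
    refine mul_le_mul ?_ ?_ (norm_nonneg _) hB
    · exact Finset.single_le_sum (f := fun j => ‖Φ j‖) (fun j _ => norm_nonneg _)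
        (Finset.mem_univ (j : ZMod q))
    · refine (partial_bound hc hj0 hj1 M).trans ?_
      have h4 : √(M : ℝ) ≤ √X := Real.sqrt_le_sqrt hMX
      gcongr
  have h4 : ‖∑ n ∈ range (q * M), f n‖ ≤ q * (nB Φ + nB Φ * (126 * (√X * c + X / c ^ 3))) := by
    rw [sum_range_mul']
    refine (norm_sum_le _ _).trans ((sum_le_sum h3).trans ?_)
    rw [sum_const, card_range, nsmul_eq_mul]
  rw [h1]
  refine (norm_add_le _ _).trans ((add_le_add h4 h2).trans ?_)
  have h5 : 1 ≤ √(X : ℝ) * c + X / c ^ 3 := by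
    have : 0 ≤ (X : ℝ) / c ^ 3 := by positivity
    nlinarith
  have h6 : 0 ≤ q * nB Φ := by positivity
  nlinarith

/-! ## Partial summation -/

omit [NeZero q] in
theorem abel_id {R : Type*} [CommRing R] (w g : ℕ → R) (N : ℕ) :
    ∑ n ∈ range (N + 1), w n * g n = w N * ∑ n ∈ range (N + 1), g n +
      ∑ k ∈ range N, (w k - w (k + 1)) * ∑ n ∈ range (k + 1), g n := by
  induction N with
  | zero => simp
  | succ N ih =>
    rw [sum_range_succ, ih, sum_range_succ (fun k => (w k - w (k + 1)) * ∑ n ∈ range (k + 1), g n),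
      sum_range_succ g (N + 1)]
    ring

omit [NeZero q] in
theorem abel_le {w : ℕ → ℝ} (hw : Antitone w) (hw0 : ∀ n, 0 ≤ w n) (g : ℕ → ℂ) (b : ℕ → ℝ)
    (h : ∀ k, ‖∑ n ∈ range (k + 1), g n‖ ≤ ∑ n ∈ range (k + 1), b n) (N : ℕ) :
    ‖∑ n ∈ range N, (w n : ℂ) * g n‖ ≤ ∑ n ∈ range N, w n * b n := by
  rcases N with _ | N
  · simp
  rw [abel_id (fun n => (w n : ℂ)) g N, abel_id w b N]
  refine (norm_add_le _ _).trans (add_le_add ?_ ?_)
  · rw [norm_mul, Complex.norm_real, Real.norm_of_nonneg (hw0 N)]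
    exact mul_le_mul_of_nonneg_left (h N) (hw0 N)
  · refine (norm_sum_le _ _).trans (sum_le_sum fun k _ => ?_)
    have h1 : 0 ≤ w k - w (k + 1) := sub_nonneg.2 (hw (Nat.le_succ k))
    rw [norm_mul, ← ofReal_sub, Complex.norm_real, Real.norm_of_nonneg h1]
    exact mul_le_mul_of_nonneg_left (h k) h1

omit [NeZero q] in
theorem sum_inv_sqrt_ge (a k : ℕ) :
    √((a + k : ℕ) : ℝ) - √(a : ℝ) ≤ ∑ n ∈ range k, 1 / √((a + n + 1 : ℕ) : ℝ) := by
  induction k with
  | zero => simp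
  | succ k ih =>
    rw [sum_range_succ]
    have h1 : 0 < √((a + k + 1 : ℕ) : ℝ) := Real.sqrt_pos.2 (by positivity)
    have h2 : √((a + k + 1 : ℕ) : ℝ) ^ 2 = a + k + 1 := by
      rw [Real.sq_sqrt (by positivity)]
      push_cast
      ring
    have h3 : √((a + k : ℕ) : ℝ) ^ 2 = a + k := by
      rw [Real.sq_sqrt (by positivity)]
      push_cast
      ring
    have h4 : √((a + (k + 1) : ℕ) : ℝ) = √((a + k + 1 : ℕ) : ℝ) := by
      rw [show a + (k + 1) = a + k + 1 by ring]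
    have h5 : √((a + k + 1 : ℕ) : ℝ) - √((a + k : ℕ) : ℝ) ≤ 1 / √((a + k + 1 : ℕ) : ℝ) := by
      rw [le_div_iff₀ h1]
      have h0 := Real.sqrt_nonneg ((a + k : ℕ) : ℝ)
      have h6 : √((a + k : ℕ) : ℝ) ≤ √((a + k + 1 : ℕ) : ℝ) := Real.sqrt_le_sqrt (by
        push_cast; linarith)
      nlinarith
    rw [h4]
    linarith

end per

end Pool.Agent.ZP
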