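import Pool.Agent.Lib_helper50.ZP.Part
import Pool.Agent.Lib_helper50.ZP.M4

/-!
# Heads and tails from bounds for the partial sums
-/

set_option autoImplicit false

namespace Pool.Agent.ZP

open Complex Finset

/-- bounds for partial sums -/
def PB (a : ℕ → ℂ) (u K c e : ℝ) : Prop :=
  ∀ X : ℕ, ‖∑ n ∈ range X, a n * en n u‖ ≤ K * (√X * c + X * e)

theorem head_bound {a : ℕ → ℂ} (h0 : a 0 = 0) {u K c e : ℝ} (hK : 0 ≤ K) (hc : 0 ≤ c) (he : 0 ≤ e)
    (h : PB a u K c e) {η : ℝ} (hη : 0 < η) (N : ℕ) :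
    ‖Sm (headS a N (1 / 2 + η)) u‖ ≤ 2 * K * (c * Zt η + 2 * √N * e) := by
  set w : ℕ → ℝ := fun n => ((1 + n : ℕ) : ℝ) ^ (-(1 / 2 + η)) with hw
  set g : ℕ → ℂ := fun n => a (1 + n) * en (1 + n) u with hg
  set b : ℕ → ℝ := fun n => 2 * K * (c * (1 / √((1 + n : ℕ) : ℝ)) + e) with hb
  have hIcc : Finset.Icc 1 N = Ico 1 (N + 1) := by
    ext n
    rw [mem_Icc, mem_Ico]
    omega
  have e1 : Sm (headS a N (1 / 2 + η)) u = ∑ n ∈ range N, (w n : ℂ) * g n := by
    unfold Sm
    rw [tsum_eq_sum (s := Finset.Icc 1 N)]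
    · rw [hIcc, sum_Ico_eq_sum_range, Nat.add_sub_cancel]
      refine sum_congr rfl fun n hn => ?_
      rw [mem_range] at hn
      unfold headS
      rw [if_pos (by rw [mem_Icc]; omega)]
      simp only [hw, hg]
      ring
    · intro n hn
      unfold headS
      rw [if_neg hn, zero_mul]
  have hwa : Antitone w := by
    intro m n hmn
    simp only [hw]
    refine Real.rpow_le_rpow_of_nonpos (by positivity) ?_ (by linarith)
    exact_mod_cast (by omega : 1 + m ≤ 1 + n)
  have hw0 : ∀ n, 0 ≤ w n := fun n => by positivity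
  have hD : ∀ k, ‖∑ n ∈ range (k + 1), g n‖ ≤ ∑ n ∈ range (k + 1), b n := by
    intro k
    have e2 : ∑ n ∈ range (k + 1), g n = ∑ n ∈ range (k + 2), a n * en n u := by
      rw [sum_range_succ' (fun n => a n * en n u) (k + 1), h0, zero_mul, add_zero]
      refine sum_congr rfl fun n _ => ?_
      simp only [hg, add_comm 1 n]
    rw [e2]
    refine (h (k + 2)).trans ?_
    have e3 : ∑ n ∈ range (k + 1), b n =
        2 * K * (c * ∑ n ∈ range (k + 1), 1 / √((0 + n + 1 : ℕ) : ℝ) + (k + 1 : ℕ) * e) := by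
      simp only [hb]
      rw [← mul_sum, sum_add_distrib, ← mul_sum, sum_const, card_range, nsmul_eq_mul]
      have e4 : ∑ n ∈ range (k + 1), 1 / √((1 + n : ℕ) : ℝ) =
          ∑ n ∈ range (k + 1), 1 / √((0 + n + 1 : ℕ) : ℝ) := by
        refine sum_congr rfl fun n _ => ?_
        rw [zero_add, add_comm 1 n]
      rw [e4]
    rw [e3]
    have h4 := sum_inv_sqrt_ge 0 (k + 1)
    simp only [zero_add, Nat.cast_zero, Real.sqrt_zero, sub_zero] at h4
    simp only [zero_add]
    have h5 : √((k + 2 : ℕ) : ℝ) ≤ 2 * √((k + 1 : ℕ) : ℝ) := by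
      rw [Real.sqrt_le_left (by positivity), mul_pow, Real.sq_sqrt (by positivity)]
      push_cast
      have : (0 : ℝ) ≤ k := Nat.cast_nonneg k
      linarith
    have h6 : ((k + 2 : ℕ) : ℝ) ≤ 2 * ((k + 1 : ℕ) : ℝ) := by
      push_cast
      have : (0 : ℝ) ≤ k := Nat.cast_nonneg k
      linarith
    have h7 : √((k + 2 : ℕ) : ℝ) * c ≤
        2 * (c * ∑ n ∈ range (k + 1), 1 / √((n + 1 : ℕ) : ℝ)) := by
      calc √((k + 2 : ℕ) : ℝ) * c ≤ (2 * √((k + 1 : ℕ) : ℝ)) * c := by gcongr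
        _ = 2 * (c * √((k + 1 : ℕ) : ℝ)) := by ring
        _ ≤ _ := by gcongr
    have h8 : ((k + 2 : ℕ) : ℝ) * e ≤ 2 * (((k + 1 : ℕ) : ℝ) * e) := by nlinarith
    calc K * (√((k + 2 : ℕ) : ℝ) * c + ((k + 2 : ℕ) : ℝ) * e)
        ≤ K * (2 * (c * ∑ n ∈ range (k + 1), 1 / √((n + 1 : ℕ) : ℝ)) +
          2 * (((k + 1 : ℕ) : ℝ) * e)) := by gcongr
      _ = _ := by ring
  rw [e1]
  refine (abel_le hwa hw0 g b hD N).trans ?_
  have h9 : ∀ n ∈ range N, w n * b n ≤
      2 * K * (c * ((1 + n : ℕ) : ℝ) ^ (-(1 + η)) + e * (1 / √((1 + n : ℕ) : ℝ))) := by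
    intro n _
    have hn1 : (1 : ℝ) ≤ ((1 + n : ℕ) : ℝ) := by
      push_cast
      have : (0 : ℝ) ≤ n := Nat.cast_nonneg n
      linarith
    have hn0 : (0 : ℝ) < ((1 + n : ℕ) : ℝ) := by linarith
    have e4 : 1 / √((1 + n : ℕ) : ℝ) = ((1 + n : ℕ) : ℝ) ^ (-(1 / 2) : ℝ) := by
      rw [Real.sqrt_eq_rpow, Real.rpow_neg hn0.le, one_div]
    simp only [hw, hb]
    rw [e4]
    have e5 : ((1 + n : ℕ) : ℝ) ^ (-(1 / 2 + η)) * ((1 + n : ℕ) : ℝ) ^ (-(1 / 2) : ℝ) =
        ((1 + n : ℕ) : ℝ) ^ (-(1 + η)) := by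
      rw [← Real.rpow_add hn0]
      congr 1
      ring
    have h10 : ((1 + n : ℕ) : ℝ) ^ (-(1 / 2 + η)) ≤ ((1 + n : ℕ) : ℝ) ^ (-(1 / 2) : ℝ) :=
      Real.rpow_le_rpow_of_exponent_le hn1 (by linarith)
    calc ((1 + n : ℕ) : ℝ) ^ (-(1 / 2 + η)) *
          (2 * K * (c * ((1 + n : ℕ) : ℝ) ^ (-(1 / 2) : ℝ) + e))
        = 2 * K * (c * (((1 + n : ℕ) : ℝ) ^ (-(1 / 2 + η)) * ((1 + n : ℕ) : ℝ) ^ (-(1 / 2) : ℝ)) +
            e * ((1 + n : ℕ) : ℝ) ^ (-(1 / 2 + η))) := by ring
      _ ≤ _ := by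
          rw [e5]
          gcongr
  refine (sum_le_sum h9).trans ?_
  rw [← mul_sum, sum_add_distrib, ← mul_sum, ← mul_sum]
  have h11 : ∑ n ∈ range N, ((1 + n : ℕ) : ℝ) ^ (-(1 + η)) ≤ Zt η := by
    have := sum_Ico_eq_sum_range (fun n : ℕ => (n : ℝ) ^ (-(1 + η))) 1 (N + 1)
    rw [Nat.add_sub_cancel] at this
    rw [← this]
    exact (Zt_summable hη).sum_le_tsum _ fun n _ => by positivity
  have h12 : ∑ n ∈ range N, 1 / √((1 + n : ℕ) : ℝ) ≤ 2 * √N := by
    have := sum_Ico_eq_sum_range (fun n : ℕ => 1 / √(n : ℝ)) 1 (N + 1)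
    rw [Nat.add_sub_cancel] at this
    rw [← this]
    exact sum_inv_sqrt N
  calc 2 * K * (c * ∑ n ∈ range N, ((1 + n : ℕ) : ℝ) ^ (-(1 + η)) +
        e * ∑ n ∈ range N, 1 / √((1 + n : ℕ) : ℝ))
      ≤ 2 * K * (c * Zt η + e * (2 * √N)) := by gcongr
    _ = _ := by ring

theorem tel_sq {A : ℝ} (hA : 1 ≤ A) (M : ℕ) :
    ∑ n ∈ range M, 1 / (A + n) ^ 2 ≤ 2 / A - 2 / (A + M) := by
  induction M with
  | zero => simp
  | succ M ih =>
    rw [sum_range_succ]
    have hM : (0 : ℝ) ≤ M := Nat.cast_nonneg M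
    have hx : 1 ≤ A + M := by linarith
    have h1 : 1 / (A + M) ^ 2 ≤ 2 / (A + M) - 2 / (A + M + 1) := by
      have e : 2 / (A + M) - 2 / (A + M + 1) = 2 / ((A + M) * (A + M + 1)) := by
        field_simp
        ring
      rw [e, div_le_div_iff₀ (by positivity) (by positivity)]
      nlinarith
    push_cast
    rw [← add_assoc]
    linarith

theorem tel_32 {A : ℝ} (hA : 1 ≤ A) (M : ℕ) :
    ∑ n ∈ range M, (A + n) ^ (-(3 / 2) : ℝ) ≤ 4 / √A - 4 / √(A + M) := by
  induction M with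
  | zero => simp
  | succ M ih =>
    rw [sum_range_succ]
    have hM : (0 : ℝ) ≤ M := Nat.cast_nonneg M
    set x : ℝ := A + M with hx
    have hx1 : 1 ≤ x := by linarith
    have hx0 : 0 < x := by linarith
    have h1 : x ^ (-(3 / 2) : ℝ) ≤ 4 / √x - 4 / √(x + 1) := by
      have e1 : x ^ (-(3 / 2) : ℝ) = 1 / √x ^ 3 := by
        rw [Real.sqrt_eq_rpow, ← Real.rpow_natCast, ← Real.rpow_mul hx0.le, one_div,
          ← Real.rpow_neg hx0.le]
        norm_num
      set s := √x with hs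
      set t := √(x + 1) with ht
      have hs0 : 0 < s := Real.sqrt_pos.2 hx0
      have ht0 : 0 < t := Real.sqrt_pos.2 (by linarith)
      have hs2 : s ^ 2 = x := Real.sq_sqrt hx0.le
      have ht2 : t ^ 2 = x + 1 := Real.sq_sqrt (by linarith)
      have hts : t ≤ 3 / 2 * s := by
        rw [ht, Real.sqrt_le_left (by positivity), mul_pow, hs2]
        linarith
      have hst : s ≤ t := Real.sqrt_le_sqrt (by linarith)
      rw [e1]
      have e2 : 4 / s - 4 / t = 4 * (t - s) / (s * t) := by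
        field_simp
      have e3 : (t - s) * (t + s) = 1 := by nlinarith
      have e4 : t - s = 1 / (t + s) := by
        field_simp
        linarith
      rw [e2, e4, div_le_div_iff₀ (by positivity) (by positivity)]
      have e5 : 4 * (1 / (t + s)) * s ^ 3 = 4 * s ^ 3 / (t + s) := by ring
      rw [e5, le_div_iff₀ (by positivity)]
      have h6 : t * (t + s) ≤ 4 * s ^ 2 := by nlinarith
      nlinarith
    have e6 : √(A + ((M + 1 : ℕ) : ℝ)) = √(x + 1) := by
      rw [hx]
      push_cast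
      rw [add_assoc]
    rw [e6]
    linarith

theorem tail_bound {a : ℕ → ℂ} {u K c e : ℝ} (hK : 0 ≤ K) (hc : 0 ≤ c) (he : 0 ≤ e)
    (ha : Summable fun n : ℕ => ‖a n‖ * (n : ℝ) ^ (-(3 / 2) : ℝ))
    (h : PB a u K c e) (N : ℕ) :
    ‖Sm (tailS a N) u‖ ≤ 12 * K * (c / (N + 1) + e / √(N + 1)) := by
  set A : ℝ := (N : ℝ) + 1 with hA
  have hN0 : (0 : ℝ) ≤ N := Nat.cast_nonneg N
  have hA1 : 1 ≤ A := by linarith
  have hA0 : 0 < A := by linarith
  set w : ℕ → ℝ := fun n => (A + n) ^ (-(3 / 2) : ℝ) with hw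
  set g : ℕ → ℂ := fun n => a (n + (N + 1)) * en (n + (N + 1)) u with hg
  set b : ℕ → ℝ := fun n => 2 * K * (c * (1 / √(A + n)) + e) +
    (if n = 0 then 4 * K * (√A * c + A * e) else 0) with hb
  have hS := Sm_summable (tailS_summable ha N) u
  have e0 : ∀ n, tailS a N (n + (N + 1)) * en (n + (N + 1)) u = (w n : ℂ) * g n := by
    intro n
    unfold tailS
    rw [if_neg (by omega)]
    simp only [hw, hg, hA]
    have : (((n + (N + 1) : ℕ) : ℝ)) = (N : ℝ) + 1 + n := by push_cast; ring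
    rw [this]
    ring
  have hS1 : Summable fun n => (w n : ℂ) * g n := by
    have := (summable_nat_add_iff (N + 1)).2 hS
    simpa only [e0] using this
  have e1 : Sm (tailS a N) u = ∑' n, (w n : ℂ) * g n := by
    unfold Sm
    rw [← hS.sum_add_tsum_nat_add (N + 1)]
    rw [sum_eq_zero, zero_add]
    · exact tsum_congr e0
    · intro n hn
      rw [mem_range] at hn
      unfold tailS
      rw [if_pos (by omega), zero_mul]
  rw [e1]
  have hwa : Antitone w := by
    intro m n hmn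
    simp only [hw]
    refine Real.rpow_le_rpow_of_nonpos (by positivity) ?_ (by norm_num)
    have : (m : ℝ) ≤ n := by exact_mod_cast hmn
    linarith
  have hw0 : ∀ n, 0 ≤ w n := fun n => by positivity
  have hD : ∀ k, ‖∑ n ∈ range (k + 1), g n‖ ≤ ∑ n ∈ range (k + 1), b n := by
    intro k
    have e2 : ∑ n ∈ range (k + 1), g n =
        ∑ n ∈ range (N + 1 + (k + 1)), a n * en n u - ∑ n ∈ range (N + 1), a n * en n u := by
      rw [sum_range_add (fun n => a n * en n u) (N + 1) (k + 1), add_sub_cancel_left]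
      refine sum_congr rfl fun n _ => ?_
      simp only [hg, add_comm n (N + 1)]
    rw [e2]
    refine (norm_sub_le _ _).trans ((add_le_add (h _) (h _)).trans ?_)
    have e3 : ∑ n ∈ range (k + 1), b n =
        2 * K * (c * ∑ n ∈ range (k + 1), 1 / √((N + n + 1 : ℕ) : ℝ) + (k + 1 : ℕ) * e) +
          4 * K * (√A * c + A * e) := by
      simp only [hb]
      rw [sum_add_distrib, ← mul_sum, sum_add_distrib, ← mul_sum, sum_const, card_range,
        nsmul_eq_mul, sum_ite_eq' (range (k + 1)) 0, if_pos (by simp)]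
      congr 4
      refine sum_congr rfl fun n _ => ?_
      rw [hA]
      push_cast
      congr 2
      ring
    rw [e3]
    have h4 := sum_inv_sqrt_ge N (k + 1)
    have c1 : ((N + 1 : ℕ) : ℝ) = A := by rw [hA]; push_cast; ring
    have c2 : ((N + (k + 1) : ℕ) : ℝ) = A + k := by rw [hA]; push_cast; ring
    have c3 : ((N + 1 + (k + 1) : ℕ) : ℝ) = A + k + 1 := by rw [hA]; push_cast; ring
    rw [c2] at h4
    rw [c1, c3]
    have hk : (0 : ℝ) ≤ k := Nat.cast_nonneg k
    have h5 : √(A + k + 1) ≤ 2 * √(A + k) := by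
      rw [Real.sqrt_le_left (by positivity), mul_pow, Real.sq_sqrt (by positivity)]
      linarith
    have h6 : √(N : ℝ) ≤ √A := Real.sqrt_le_sqrt (by linarith)
    have h7 : √(A + k + 1) * c + √A * c ≤
        2 * (c * ∑ n ∈ range (k + 1), 1 / √((N + n + 1 : ℕ) : ℝ)) + 4 * (√A * c) := by
      have h8 : c * (√(A + k) - √N) ≤ c * ∑ n ∈ range (k + 1), 1 / √((N + n + 1 : ℕ) : ℝ) :=
        mul_le_mul_of_nonneg_left h4 hc
      have h9 : √(A + k + 1) * c ≤ 2 * √(A + k) * c := mul_le_mul_of_nonneg_right h5 hc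
      have h10 : √(N : ℝ) * c ≤ √A * c := mul_le_mul_of_nonneg_right h6 hc
      have h11 : 0 ≤ √A * c := by positivity
      nlinarith
    have h8 : (A + k + 1) * e + A * e ≤ 2 * (((k + 1 : ℕ) : ℝ) * e) + 4 * (A * e) := by
      push_cast
      nlinarith
    calc K * (√(A + k + 1) * c + (A + k + 1) * e) + K * (√A * c + A * e)
        = K * ((√(A + k + 1) * c + √A * c) + ((A + k + 1) * e + A * e)) := by ring
      _ ≤ K * ((2 * (c * ∑ n ∈ range (k + 1), 1 / √((N + n + 1 : ℕ) : ℝ)) + 4 * (√A * c)) +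
          (2 * (((k + 1 : ℕ) : ℝ) * e) + 4 * (A * e))) := by gcongr
      _ = _ := by ring
  have hfin : ∀ M : ℕ, ‖∑ n ∈ range M, (w n : ℂ) * g n‖ ≤
      12 * K * (c / (N + 1) + e / √(N + 1)) := by
    intro M
    refine (abel_le hwa hw0 g b hD M).trans ?_
    have h9 : ∀ n ∈ range M, w n * b n = 2 * K * (c * (1 / (A + n) ^ 2) + e * w n) +
        (if n = 0 then w 0 * (4 * K * (√A * c + A * e)) else 0) := by
      intro n _
      have hn0 : (0 : ℝ) < A + n := by positivity
      have e4 : w n * (1 / √(A + n)) = 1 / (A + n) ^ 2 := by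
        simp only [hw]
        rw [Real.sqrt_eq_rpow, one_div ((A + n) ^ (1 / 2 : ℝ)), ← Real.rpow_neg hn0.le,
          ← Real.rpow_add hn0, one_div ((A + n) ^ 2), ← Real.rpow_natCast, ← Real.rpow_neg hn0.le]
        norm_num
      simp only [hb]
      rw [← e4]
      split_ifs with h10
      · subst h10
        ring
      · ring
    rw [sum_congr rfl h9, sum_add_distrib, ← mul_sum, sum_add_distrib, ← mul_sum, ← mul_sum]
    have h10 := tel_sq hA1 M
    have h11 := tel_32 hA1 M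
    have h12 : 0 ≤ 2 / (A + M) := by positivity
    have h13 : 0 ≤ 4 / √(A + M) := by positivity
    have h14 : ∑ n ∈ range M, (if n = 0 then w 0 * (4 * K * (√A * c + A * e)) else 0) ≤
        4 * K * (c / A + e / √A) := by
      have e5 : w 0 * (4 * K * (√A * c + A * e)) = 4 * K * (c / A + e / √A) := by
        have hsA : 0 < √A := Real.sqrt_pos.2 hA0
        have hsA2 : √A ^ 2 = A := Real.sq_sqrt hA0.le
        have e6 : w 0 = 1 / √A ^ 3 := by
          simp only [hw]
          rw [Nat.cast_zero, add_zero, Real.sqrt_eq_rpow, ← Real.rpow_natCast,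
            ← Real.rpow_mul hA0.le, one_div, ← Real.rpow_neg hA0.le]
          norm_num
        rw [e6]
        have e7 : 1 / √A ^ 3 * (4 * K * (√A * c + √A ^ 2 * e)) =
            4 * K * (c / √A ^ 2 + e / √A) := by
          field_simp
        rw [hsA2] at e7
        exact e7
      rw [sum_ite_eq' (range M) 0]
      split_ifs
      · exact e5.le
      · positivity
    have h15 : c * ∑ n ∈ range M, 1 / (A + n) ^ 2 ≤ 2 * (c / A) := by
      calc c * ∑ n ∈ range M, 1 / (A + n) ^ 2 ≤ c * (2 / A) := by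
            refine mul_le_mul_of_nonneg_left ?_ hc
            linarith
        _ = _ := by ring
    have h16 : e * ∑ n ∈ range M, w n ≤ 4 * (e / √A) := by
      calc e * ∑ n ∈ range M, w n ≤ e * (4 / √A) := by
            refine mul_le_mul_of_nonneg_left ?_ he
            simp only [hw]
            linarith
        _ = _ := by ring
    have h17 : 0 ≤ e / √A := by positivity
    have h18 : 0 ≤ c / A := by positivity
    calc _ ≤ 2 * K * (2 * (c / A) + 4 * (e / √A)) + 4 * K * (c / A + e / √A) :=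
          add_le_add (mul_le_mul_of_nonneg_left (add_le_add h15 h16) (by positivity)) h14
      _ ≤ 12 * K * (c / A + e / √A) := by
          have h19 : 0 ≤ K * (c / A) := by positivity
          nlinarith
  exact le_of_tendsto (hS1.hasSum.tendsto_sum_nat.norm) (Filter.Eventually.of_forall hfin)

end Pool.Agent.ZP
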