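import Pool.Agent.Lib_helper50.ZP.Sub1
import Pool.Agent.Lib_helper50.ZP.Fourth

/-!
# The Weyl subconvexity bound for `L(1/2 + it, Φ)`, `Φ` periodic
-/

set_option autoImplicit false

namespace Pool.Agent.ZP

open Complex MeasureTheory Finset

section per

variable {q : ℕ} [NeZero q]

theorem nB_conj (Φ : ZMod q → ℂ) : nB (fun j => starRingEnd ℂ (Φ j)) = nB Φ := by
  unfold nB
  exact sum_congr rfl fun j _ => RCLike.norm_conj _

omit [NeZero q] in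
theorem cf_conj (Φ : ZMod q → ℂ) (n : ℕ) :
    cf (fun j => starRingEnd ℂ (Φ j)) n = starRingEnd ℂ (cf Φ n) := by
  unfold cf
  split_ifs <;> simp

theorem PB_pos (Φ : ZMod q → ℂ) {v : ℝ} (hv : 2 * Real.pi ≤ v) :
    PB (cf Φ) v (384 * q * nB Φ) ((1 + v) ^ (1 / 6 : ℝ)) (1 / √(1 + v)) := by
  intro X
  have hpi := Real.pi_pos
  have hpi3 := Real.pi_gt_three
  have hpi4 := Real.pi_lt_d2
  have hB := nB_nonneg Φ
  set w : ℝ := v / (2 * Real.pi) with hw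
  have hw1 : 1 ≤ w := by
    rw [hw, le_div_iff₀ (by positivity)]
    linarith
  have hw0 : 0 < w := by linarith
  set c : ℝ := w ^ (1 / 6 : ℝ) with hc
  have hc1 : 1 ≤ c := Real.one_le_rpow hw1 (by norm_num)
  have hc0 : 0 < c := by linarith
  have hc6 : 2 * Real.pi * c ^ 6 = v := by
    rw [hc, ← Real.rpow_natCast, ← Real.rpow_mul hw0.le]
    norm_num
    rw [hw]
    field_simp
  have h := per_partial Φ hc1 X
  rw [hc6] at h
  refine h.trans ?_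
  have h1 : c ≤ (1 + v) ^ (1 / 6 : ℝ) := by
    rw [hc]
    refine Real.rpow_le_rpow hw0.le ?_ (by norm_num)
    rw [hw, div_le_iff₀ (by positivity)]
    nlinarith
  have hd0 : 0 < 1 + v := by linarith
  have h2 : 1 / c ^ 3 ≤ 3 * (1 / √(1 + v)) := by
    have e1 : c ^ 3 = √w := by
      rw [hc, ← Real.rpow_natCast, ← Real.rpow_mul hw0.le, Real.sqrt_eq_rpow]
      norm_num
    have e2 : √(1 + v) ≤ 3 * √w := by
      rw [Real.sqrt_le_left (by positivity), mul_pow, Real.sq_sqrt hw0.le]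
      have : v = 2 * Real.pi * w := by
        rw [hw]
        field_simp
      rw [this]
      nlinarith
    rw [e1, mul_one_div, div_le_div_iff₀ (Real.sqrt_pos.2 hw0) (Real.sqrt_pos.2 hd0)]
    linarith
  have hX : (0 : ℝ) ≤ X := Nat.cast_nonneg X
  have h3 : √(X : ℝ) * c ≤ 3 * (√(X : ℝ) * (1 + v) ^ (1 / 6 : ℝ)) := by
    have h4 : √(X : ℝ) * c ≤ √(X : ℝ) * (1 + v) ^ (1 / 6 : ℝ) := by gcongr
    have h5 : 0 ≤ √(X : ℝ) * (1 + v) ^ (1 / 6 : ℝ) := by positivity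
    linarith
  have h4 : X / c ^ 3 ≤ 3 * (X * (1 / √(1 + v))) := by
    calc X / c ^ 3 = X * (1 / c ^ 3) := by ring
      _ ≤ X * (3 * (1 / √(1 + v))) := by gcongr
      _ = _ := by ring
  calc 128 * q * nB Φ * (√X * c + X / c ^ 3)
      ≤ 128 * q * nB Φ * (3 * (√(X : ℝ) * (1 + v) ^ (1 / 6 : ℝ)) +
        3 * (X * (1 / √(1 + v)))) := by gcongr
    _ = _ := by ring

theorem PB_all (Φ : ZMod q → ℂ) (u : ℝ) :
    PB (cf Φ) u (384 * q * nB Φ) ((1 + |u|) ^ (1 / 6 : ℝ)) (1 / √(1 + |u|)) := by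
  have hpi4 := Real.pi_lt_d2
  rcases le_or_gt (2 * Real.pi) |u| with h | h
  · rcases le_total 0 u with hu | hu
    · rw [abs_of_nonneg hu] at h ⊢
      exact PB_pos Φ h
    · rw [abs_of_nonpos hu] at h ⊢
      intro X
      have h1 := PB_pos (fun j => starRingEnd ℂ (Φ j)) h X
      rw [nB_conj] at h1
      refine le_trans (le_of_eq ?_) h1
      rw [← RCLike.norm_conj, map_sum]
      congr 1
      refine sum_congr rfl fun n _ => ?_
      rw [map_mul, en_neg, cf_conj]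
  · intro X
    have hB := nB_nonneg Φ
    have hX : (0 : ℝ) ≤ X := Nat.cast_nonneg X
    have hu0 := abs_nonneg u
    have h1 : ‖∑ n ∈ range X, cf Φ n * en n u‖ ≤ X * nB Φ := by
      refine (norm_sum_le _ _).trans ?_
      calc ∑ n ∈ range X, ‖cf Φ n * en n u‖ ≤ ∑ n ∈ range X, nB Φ := by
            refine sum_le_sum fun n _ => ?_
            rw [norm_mul, norm_en, mul_one]
            exact norm_cf_le Φ n
        _ = X * nB Φ := by rw [sum_const, card_range, nsmul_eq_mul]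
    refine h1.trans ?_
    have hq1 : (1 : ℝ) ≤ q := by exact_mod_cast Nat.one_le_iff_ne_zero.2 (NeZero.ne q)
    have hs0 : 0 < √(1 + |u|) := Real.sqrt_pos.2 (by linarith)
    have hs : √(1 + |u|) ≤ 3 := by
      rw [Real.sqrt_le_left (by norm_num)]
      linarith
    have h2 : 1 ≤ 3 * (1 / √(1 + |u|)) := by
      rw [mul_one_div, le_div_iff₀ hs0]
      linarith
    have h3 : 0 ≤ √(X : ℝ) * (1 + |u|) ^ (1 / 6 : ℝ) := by positivity
    have h4 : 0 ≤ X * (1 / √(1 + |u|)) := by positivity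
    have h5 : X * nB Φ ≤ 384 * nB Φ * (X * (1 / √(1 + |u|))) := by
      calc X * nB Φ = X * nB Φ * 1 := by ring
        _ ≤ X * nB Φ * (3 * (1 / √(1 + |u|))) := by gcongr
        _ = 3 * nB Φ * (X * (1 / √(1 + |u|))) := by ring
        _ ≤ _ := by gcongr; norm_num
    have h6 : 384 * nB Φ * (X * (1 / √(1 + |u|))) ≤
        384 * nB Φ * (√(X : ℝ) * (1 + |u|) ^ (1 / 6 : ℝ) + X * (1 / √(1 + |u|))) := by
      gcongr
      linarith
    refine h5.trans (h6.trans ?_)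
    have h7 : 0 ≤ √(X : ℝ) * (1 + |u|) ^ (1 / 6 : ℝ) + X * (1 / √(1 + |u|)) := by linarith
    refine mul_le_mul_of_nonneg_right ?_ h7
    nlinarith

/-- comparison of weights -/
theorem peetre {t v T : ℝ} (hT : T = 1 + |t|) : 1 + |t + v| ≤ T * (1 + |v|) ∧
    T ≤ (1 + |t + v|) * (1 + |v|) := by
  have h1 := abs_add_le t v
  have h2 : |t| ≤ |t + v| + |v| := by
    have := abs_sub (t + v) v
    rwa [add_sub_cancel_right] at this
  have h3 := abs_nonneg t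
  have h4 := abs_nonneg v
  have h5 := abs_nonneg (t + v)
  have h6 : 0 ≤ |t| * |v| := by positivity
  have h7 : 0 ≤ |t + v| * |v| := by positivity
  constructor <;> nlinarith

theorem six_le {t v T : ℝ} (hT : T = 1 + |t|) :
    (1 + |t + v|) ^ (1 / 6 : ℝ) ≤ T ^ (1 / 6 : ℝ) * (1 + |v|) := by
  have h0 : 0 ≤ T := by rw [hT]; positivity
  have h1 : (1 : ℝ) ≤ 1 + |v| := by linarith [abs_nonneg v]
  calc (1 + |t + v|) ^ (1 / 6 : ℝ) ≤ (T * (1 + |v|)) ^ (1 / 6 : ℝ) :=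
        Real.rpow_le_rpow (by positivity) (peetre hT).1 (by norm_num)
    _ = T ^ (1 / 6 : ℝ) * (1 + |v|) ^ (1 / 6 : ℝ) := Real.mul_rpow h0 (by positivity)
    _ ≤ T ^ (1 / 6 : ℝ) * (1 + |v|) ^ (1 : ℝ) := by
        gcongr
        norm_num
    _ = _ := by rw [Real.rpow_one]

theorem inv_sqrt_le {t v T : ℝ} (hT : T = 1 + |t|) :
    1 / √(1 + |t + v|) ≤ (1 + |v|) / √T := by
  have h0 : 0 < T := by rw [hT]; positivity
  have h1 : (1 : ℝ) ≤ 1 + |v| := by linarith [abs_nonneg v]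
  have h2 : 0 < 1 + |t + v| := by positivity
  rw [div_le_div_iff₀ (Real.sqrt_pos.2 h2) (Real.sqrt_pos.2 h0), one_mul]
  rw [Real.sqrt_le_left (by positivity), mul_pow, Real.sq_sqrt h2.le]
  have h3 := (peetre (t := t) (v := v) hT).2
  have h4 : (1 + |v|) ≤ (1 + |v|) ^ 2 := by nlinarith
  nlinarith

theorem head_six (Φ : ZMod q → ℂ) {η : ℝ} (hη : 0 < η) {t v T : ℝ} (hT : T = 1 + |t|) {N : ℕ}
    (hN : (N : ℝ) ≤ T) {u : ℝ} (hu : |u| = |t + v|) :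
    ‖Sm (headS (cf Φ) N (1 / 2 + η)) u‖ ≤
      768 * q * nB Φ * (Zt η + 2) * (T ^ (1 / 6 : ℝ) * (1 + |v|)) := by
  have hB := nB_nonneg Φ
  have hZ := Zt_nonneg η
  have hT1 : 1 ≤ T := by rw [hT]; linarith [abs_nonneg t]
  have hT0 : 0 < T := by linarith
  have hv : (1 : ℝ) ≤ 1 + |v| := by linarith [abs_nonneg v]
  have h1 := head_bound (a := cf Φ) (by simp [cf]) (K := 384 * q * nB Φ) (by positivity)
    (c := (1 + |u|) ^ (1 / 6 : ℝ)) (by positivity) (e := 1 / √(1 + |u|)) (by positivity)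
    (PB_all Φ u) hη N
  refine h1.trans ?_
  rw [hu]
  have h2 := six_le (t := t) (v := v) hT
  have h3 := inv_sqrt_le (t := t) (v := v) hT
  have h4 : √(N : ℝ) ≤ √T := Real.sqrt_le_sqrt hN
  have h5 : √(N : ℝ) * (1 / √(1 + |t + v|)) ≤ T ^ (1 / 6 : ℝ) * (1 + |v|) := by
    calc √(N : ℝ) * (1 / √(1 + |t + v|)) ≤ √T * ((1 + |v|) / √T) := by gcongr
      _ = 1 * (1 + |v|) := by
          have := Real.sqrt_pos.2 hT0
          field_simp
      _ ≤ T ^ (1 / 6 : ℝ) * (1 + |v|) := by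
          gcongr
          exact Real.one_le_rpow hT1 (by norm_num)
  calc 2 * (384 * q * nB Φ) * ((1 + |t + v|) ^ (1 / 6 : ℝ) * Zt η +
        2 * √(N : ℝ) * (1 / √(1 + |t + v|)))
      = 2 * (384 * q * nB Φ) * ((1 + |t + v|) ^ (1 / 6 : ℝ) * Zt η +
        2 * (√(N : ℝ) * (1 / √(1 + |t + v|)))) := by ring
    _ ≤ 2 * (384 * q * nB Φ) * ((T ^ (1 / 6 : ℝ) * (1 + |v|)) * Zt η +
        2 * (T ^ (1 / 6 : ℝ) * (1 + |v|))) := by gcongr
    _ = _ := by ring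

theorem tail_six (Φ : ZMod q → ℂ) {t v T : ℝ} (hT : T = 1 + |t|) {N : ℕ}
    (hN : T ≤ N + 1) {u : ℝ} (hu : |u| = |t + v|) :
    ‖Sm (tailS (cf Φ) N) u‖ ≤
      9216 * q * nB Φ * (T ^ (1 / 6 : ℝ) * (1 + |v|)) / T := by
  have hB := nB_nonneg Φ
  have hT1 : 1 ≤ T := by rw [hT]; linarith [abs_nonneg t]
  have hT0 : 0 < T := by linarith
  have hv : (1 : ℝ) ≤ 1 + |v| := by linarith [abs_nonneg v]
  have h1 := tail_bound (a := cf Φ) (K := 384 * q * nB Φ) (by positivity)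
    (c := (1 + |u|) ^ (1 / 6 : ℝ)) (by positivity) (e := 1 / √(1 + |u|)) (by positivity)
    (cf_summable Φ) (PB_all Φ u) N
  refine h1.trans ?_
  rw [hu]
  have h2 := six_le (t := t) (v := v) hT
  have h3 := inv_sqrt_le (t := t) (v := v) hT
  have h4 : √T ≤ √((N : ℝ) + 1) := Real.sqrt_le_sqrt hN
  have hs := Real.sqrt_pos.2 hT0
  have h5 : 1 / √(1 + |t + v|) / √((N : ℝ) + 1) ≤ T ^ (1 / 6 : ℝ) * (1 + |v|) / T := by
    calc 1 / √(1 + |t + v|) / √((N : ℝ) + 1) ≤ ((1 + |v|) / √T) / √T := by gcongr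
      _ = (1 * (1 + |v|)) / T := by
          rw [div_div, Real.mul_self_sqrt hT0.le, one_mul]
      _ ≤ T ^ (1 / 6 : ℝ) * (1 + |v|) / T := by
          gcongr
          exact Real.one_le_rpow hT1 (by norm_num)
  have h6 : (1 + |t + v|) ^ (1 / 6 : ℝ) / ((N : ℝ) + 1) ≤ T ^ (1 / 6 : ℝ) * (1 + |v|) / T := by
    gcongr
  calc 12 * (384 * q * nB Φ) * ((1 + |t + v|) ^ (1 / 6 : ℝ) / ((N : ℝ) + 1) +
        1 / √(1 + |t + v|) / √((N : ℝ) + 1))
      ≤ 12 * (384 * q * nB Φ) * (T ^ (1 / 6 : ℝ) * (1 + |v|) / T +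
        T ^ (1 / 6 : ℝ) * (1 + |v|) / T) := by gcongr
    _ = _ := by ring

theorem XL_six {κ : ℕ} (hκ : κ ≤ 1) {η : ℝ} (h0 : 0 ≤ η) (h1 : η ≤ 1) {t v T : ℝ}
    (hT : T = 1 + |t|) :
    ‖XL q κ (((1 / 2 - η : ℝ) : ℂ) + ((t + v : ℝ) : ℂ) * I)‖ ≤ 4 * q * T ^ η * (1 + |v|) := by
  have hT0 : 0 ≤ T := by rw [hT]; positivity
  have hv : (1 : ℝ) ≤ 1 + |v| := by linarith [abs_nonneg v]
  refine (XL_bound hκ h0 h1 (t + v)).trans ?_
  calc 4 * q * (1 + |t + v|) ^ η ≤ 4 * q * (T * (1 + |v|)) ^ η := by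
        gcongr
        exact (peetre hT).1
    _ = 4 * q * (T ^ η * (1 + |v|) ^ η) := by rw [Real.mul_rpow hT0 (by positivity)]
    _ ≤ 4 * q * (T ^ η * (1 + |v|) ^ (1 : ℝ)) := by
        gcongr
    _ = _ := by rw [Real.rpow_one]; ring

theorem int_Gw_le {m k : ℕ} {f : ℝ → ℝ} {A : ℝ} (h0 : ∀ v, 0 ≤ f v)
    (h : ∀ v, f v ≤ A * (1 + |v|) ^ k) : ∫ v, Gw m v * f v ≤ A * Wt (m + k) := by
  unfold Wt
  rw [← integral_const_mul]
  refine integral_mono_of_nonneg (Filter.Eventually.of_forall fun v =>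
    mul_nonneg (Gw_nonneg m v) (h0 v)) ((Gw_integrable (m + k)).const_mul A)
    (Filter.Eventually.of_forall fun v => ?_)
  calc Gw m v * f v ≤ Gw m v * (A * (1 + |v|) ^ k) :=
        mul_le_mul_of_nonneg_left (h v) (Gw_nonneg m v)
    _ = A * (Gw m v * (1 + |v|) ^ k) := by ring
    _ = A * Gw (m + k) v := by rw [Gw_mul]

theorem sub_par {κ : ℕ} {Φ : ZMod q → ℂ} (h : Par κ Φ) {η : ℝ} (hη : 0 < η) (hη1 : η ≤ 1 / 2) :
    ∃ C : ℝ, 0 ≤ C ∧ ∀ t : ℝ,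
      ‖ZMod.LFunction Φ (1 / 2 + t * I)‖ ≤ C * (1 + |t|) ^ (1 / 6 + η) := by
  have hB := nB_nonneg Φ
  have hB' := nB_nonneg (ZMod.dft Φ)
  have hZ := Zt_nonneg η
  have hW2 := Wt_pos 2
  have hW3 := Wt_pos 3
  set A₁ : ℝ := 768 * q * nB Φ * (Zt η + 2) with hA₁
  set A₂ : ℝ := 9216 * q * nB Φ with hA₂
  set A₃ : ℝ := 768 * q * nB (ZMod.dft Φ) * (Zt η + 2) with hA₃
  set A₄ : ℝ := 9216 * q * nB (ZMod.dft Φ) with hA₄
  have hA₁0 : 0 ≤ A₁ := by positivity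
  have hA₂0 : 0 ≤ A₂ := by positivity
  have hA₃0 : 0 ≤ A₃ := by positivity
  have hA₄0 : 0 ≤ A₄ := by positivity
  refine ⟨(3 * Real.exp 1) * (A₁ * Wt 2 / η + A₂ * Wt 2 + 4 * q * A₃ * Wt 3 / η +
    4 * q * A₄ * Wt 3) / (2 * Real.pi), by positivity, fun t => ?_⟩
  set T : ℝ := 1 + |t| with hT
  have hT1 : 1 ≤ T := by rw [hT]; linarith [abs_nonneg t]
  have hT0 : 0 < T := by linarith
  set N : ℕ := ⌊T⌋₊ with hN
  have hN1 : (N : ℝ) ≤ T := Nat.floor_le hT0.le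
  have hN2 : T ≤ N + 1 := (Nat.lt_floor_add_one T).le
  have h1 := afe (FE1 h) hT1 hη hη1 N t
  rw [Lp1_half, norm_mul, pow_one, pow_one] at h1
  set p := ‖(-1 / 2 + t * I : ℂ)‖ with hp
  have hp0 : 0 < p := norm_pole_pos t
  set s : ℝ := T ^ (1 / 6 : ℝ) with hs
  have hs0 : 0 < s := Real.rpow_pos_of_pos hT0 _
  have hη0 : 0 < T ^ η := Real.rpow_pos_of_pos hT0 _
  have hTη1 : 1 ≤ T ^ η := Real.one_le_rpow hT1 hη.le
  -- the four integrals
  have i1 : ∫ v, Gw 1 v * ‖Sm (headS (cf Φ) N (1 / 2 + η)) (t + v)‖ ≤ A₁ * s * Wt 2 := by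
    refine int_Gw_le (m := 1) (k := 1) (fun v => norm_nonneg _) fun v => ?_
    refine (head_six Φ hη hT hN1 (u := t + v) rfl).trans (le_of_eq ?_)
    rw [pow_one]
    ring
  have i2 : ∫ v, Gw 1 v * ‖Sm (tailS (cf Φ) N) (t + v)‖ ≤ A₂ * s / T * Wt 2 := by
    refine int_Gw_le (m := 1) (k := 1) (fun v => norm_nonneg _) fun v => ?_
    refine (tail_six Φ hT hN2 (u := t + v) rfl).trans (le_of_eq ?_)
    rw [pow_one]
    ring
  have i3 : ∫ v, Gw 1 v * (‖XL q κ (((1 / 2 - η : ℝ) : ℂ) + ((t + v : ℝ) : ℂ) * I)‖ *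
      ‖Sm (headS (cf (ZMod.dft Φ)) N (1 / 2 + η)) (-(t + v))‖) ≤ 4 * q * T ^ η * A₃ * s * Wt 3 := by
    refine int_Gw_le (m := 1) (k := 2) (fun v => by positivity) fun v => ?_
    have e1 := XL_six (q := q) h.le hη.le (by linarith) (v := v) hT
    have e2 := head_six (ZMod.dft Φ) hη hT hN1 (v := v) (u := -(t + v)) (abs_neg _)
    calc _ ≤ (4 * q * T ^ η * (1 + |v|)) * (A₃ * (s * (1 + |v|))) :=
          mul_le_mul e1 e2 (norm_nonneg _) (by positivity)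
      _ = _ := by ring
  have i4 : ∫ v, Gw 1 v * (‖XL q κ (((-1 / 2 : ℝ) : ℂ) + ((t + v : ℝ) : ℂ) * I)‖ *
      ‖Sm (tailS (cf (ZMod.dft Φ)) N) (-(t + v))‖) ≤ 4 * q * A₄ * s * Wt 3 := by
    refine int_Gw_le (m := 1) (k := 2) (fun v => by positivity) fun v => ?_
    have e1 := XL_six (q := q) h.le zero_le_one le_rfl (v := v) hT
    have e0 : (1 / 2 - 1 : ℝ) = -1 / 2 := by norm_num
    rw [e0, Real.rpow_one] at e1
    have e2 := tail_six (ZMod.dft Φ) hT hN2 (v := v) (u := -(t + v)) (abs_neg _)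
    calc _ ≤ (4 * q * T * (1 + |v|)) * (A₄ * (s * (1 + |v|)) / T) :=
          mul_le_mul e1 e2 (norm_nonneg _) (by positivity)
      _ = _ := by field_simp
  have j1 : T ^ η / η * (∫ v, Gw 1 v * ‖Sm (headS (cf Φ) N (1 / 2 + η)) (t + v)‖) ≤
      A₁ * Wt 2 / η * (s * T ^ η) := by
    calc _ ≤ T ^ η / η * (A₁ * s * Wt 2) := by gcongr
      _ = _ := by ring
  have j2 : T * (∫ v, Gw 1 v * ‖Sm (tailS (cf Φ) N) (t + v)‖) ≤ A₂ * Wt 2 * (s * T ^ η) := by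
    calc _ ≤ T * (A₂ * s / T * Wt 2) := by gcongr
      _ = A₂ * Wt 2 * (s * 1) := by field_simp
      _ ≤ _ := by gcongr
  have hTn : T ^ (-η) * T ^ η = 1 := by
    rw [← Real.rpow_add hT0]
    simp
  have hTn0 : 0 < T ^ (-η) := Real.rpow_pos_of_pos hT0 _
  have j3 : T ^ (-η) / η *
      (∫ v, Gw 1 v * (‖XL q κ (((1 / 2 - η : ℝ) : ℂ) + ((t + v : ℝ) : ℂ) * I)‖ *
      ‖Sm (headS (cf (ZMod.dft Φ)) N (1 / 2 + η)) (-(t + v))‖)) ≤
      4 * q * A₃ * Wt 3 / η * (s * T ^ η) := by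
    calc _ ≤ T ^ (-η) / η * (4 * q * T ^ η * A₃ * s * Wt 3) := by gcongr
      _ = 4 * q * A₃ * Wt 3 / η * (s * (T ^ (-η) * T ^ η)) := by ring
      _ ≤ _ := by rw [hTn]; gcongr
  have j4 : T⁻¹ * (∫ v, Gw 1 v * (‖XL q κ (((-1 / 2 : ℝ) : ℂ) + ((t + v : ℝ) : ℂ) * I)‖ *
      ‖Sm (tailS (cf (ZMod.dft Φ)) N) (-(t + v))‖)) ≤ 4 * q * A₄ * Wt 3 * (s * T ^ η) := by
    calc _ ≤ T⁻¹ * (4 * q * A₄ * s * Wt 3) := by gcongr
      _ ≤ 1 * (4 * q * A₄ * s * Wt 3) := by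
          gcongr
          exact inv_le_one_of_one_le₀ hT1
      _ = 4 * q * A₄ * Wt 3 * (s * 1) := by ring
      _ ≤ _ := by gcongr
  have h2 : 2 * Real.pi * (p * ‖ZMod.LFunction Φ (1 / 2 + t * I)‖) ≤
      p * (3 * Real.exp 1) * ((A₁ * Wt 2 / η + A₂ * Wt 2 + 4 * q * A₃ * Wt 3 / η +
    4 * q * A₄ * Wt 3) * (s * T ^ η)) := by
    refine h1.trans ?_
    refine mul_le_mul_of_nonneg_left ?_ (by positivity)
    linarith
  have h3 : T ^ (1 / 6 + η) = s * T ^ η := Real.rpow_add hT0 _ _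
  rw [h3]
  have h4 : p * (2 * Real.pi * ‖ZMod.LFunction Φ (1 / 2 + t * I)‖) ≤
      p * ((3 * Real.exp 1) * ((A₁ * Wt 2 / η + A₂ * Wt 2 + 4 * q * A₃ * Wt 3 / η +
    4 * q * A₄ * Wt 3) * (s * T ^ η))) := by
    linarith
  have h5 := le_of_mul_le_mul_left h4 hp0
  have hpi := Real.pi_pos
  rw [div_mul_eq_mul_div, le_div_iff₀ (by positivity)]
  linarith

/-- WEYL SUBCONVEXITY: for every periodic function `Φ` and `η > 0`,
`L(1/2 + it, Φ) = O((1 + |t|) ^ (1/6 + η))`. -/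
theorem subconvexity (Φ : ZMod q → ℂ) {η : ℝ} (hη : 0 < η) :
    ∃ C : ℝ, 0 ≤ C ∧ ∀ t : ℝ,
      ‖ZMod.LFunction Φ (1 / 2 + t * I)‖ ≤ C * (1 + |t|) ^ (1 / 6 + η) := by
  have h0 : 0 < min η (1 / 2) := lt_min hη (by norm_num)
  obtain ⟨C1, hC1, h1⟩ := sub_par (evenP_par Φ) h0 (min_le_right _ _)
  obtain ⟨C2, hC2, h2⟩ := sub_par (oddP_par Φ) h0 (min_le_right _ _)
  refine ⟨C1 + C2, by positivity, fun t => ?_⟩
  rw [LFunction_parts]
  refine (norm_add_le _ _).trans ((add_le_add (h1 t) (h2 t)).trans ?_)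
  rw [← add_mul]
  refine mul_le_mul_of_nonneg_left ?_ (by positivity)
  refine Real.rpow_le_rpow_of_exponent_le (by linarith [abs_nonneg t]) ?_
  have := min_le_left η (1 / 2)
  linarith

theorem subconvexity_char (χ : DirichletCharacter ℂ q) {η : ℝ} (hη : 0 < η) :
    ∃ C : ℝ, 0 ≤ C ∧ ∀ t : ℝ,
      ‖DirichletCharacter.LFunction χ (1 / 2 + t * I)‖ ≤ C * (1 + |t|) ^ (1 / 6 + η) :=
  subconvexity (fun j => χ j) hη

end per

end Pool.Agent.ZP
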