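import Pool.Agent.Lib_helper50.ZP.Sub2

/-!
# Functions with the bounds needed for the zeta factors
-/

set_option autoImplicit false

namespace Pool.Agent.ZP

open Complex MeasureTheory Finset

/-- the bounds needed for the zeta factors -/
structure ZG (F : ℝ → ℂ) : Prop where
  meas : Measurable F
  sup : ∃ C : ℝ, 0 ≤ C ∧ ∀ κ, ‖F κ‖ ≤ C * (1 + |κ|) ^ (3 / 8 : ℝ)
  ms : ∀ e : ℝ, 0 < e → ∃ C : ℝ, 0 ≤ C ∧ ∀ K : ℝ, 1 ≤ K →
    ∫ κ in (-K)..K, ‖F κ‖ ^ 2 ≤ C * K ^ (1 + e)

/-- factors of size `O((1 + |κ|) ^ ε)` -/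
structure ZE (g : ℝ → ℂ) : Prop where
  meas : Measurable g
  sup : ∀ e : ℝ, 0 < e → ∃ C : ℝ, 0 ≤ C ∧ ∀ κ, ‖g κ‖ ≤ C * (1 + |κ|) ^ e

theorem sq_intervalIntegrable {F : ℝ → ℂ} (hm : Measurable F) {C r : ℝ}
    (hr : 0 ≤ r) (h : ∀ κ, ‖F κ‖ ≤ C * (1 + |κ|) ^ r) (a b : ℝ) :
    IntervalIntegrable (fun κ => ‖F κ‖ ^ 2) volume a b := by
  have hc : Continuous fun κ : ℝ => (C * (1 + |κ|) ^ r) ^ 2 := by
    refine (continuous_const.mul ?_).pow 2
    exact (by fun_prop : Continuous fun κ : ℝ => 1 + |κ|).rpow_const fun κ => Or.inr hr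
  refine (hc.intervalIntegrable a b).mono_fun (hm.norm.pow_const 2).aestronglyMeasurable ?_
  refine Filter.Eventually.of_forall fun κ => ?_
  show ‖‖F κ‖ ^ 2‖ ≤ ‖(C * (1 + |κ|) ^ r) ^ 2‖
  rw [Real.norm_of_nonneg (by positivity), Real.norm_of_nonneg (by positivity)]
  exact pow_le_pow_left₀ (norm_nonneg _) (h κ) 2

theorem ZG.int {F : ℝ → ℂ} (h : ZG F) (a b : ℝ) :
    IntervalIntegrable (fun κ => ‖F κ‖ ^ 2) volume a b := by
  obtain ⟨C, -, h1⟩ := h.sup
  exact sq_intervalIntegrable h.meas (by norm_num) h1 a b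

theorem ZG.zero : ZG fun _ => 0 where
  meas := measurable_const
  sup := ⟨0, le_rfl, fun κ => by simp⟩
  ms e _ := ⟨0, le_rfl, fun K _ => by simp⟩

theorem ZG.add {F G : ℝ → ℂ} (hF : ZG F) (hG : ZG G) : ZG fun κ => F κ + G κ where
  meas := hF.meas.add hG.meas
  sup := by
    obtain ⟨C, hC, h1⟩ := hF.sup
    obtain ⟨D, hD, h2⟩ := hG.sup
    refine ⟨C + D, by positivity, fun κ => ?_⟩
    rw [add_mul]
    exact (norm_add_le _ _).trans (add_le_add (h1 κ) (h2 κ))
  ms e he := by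
    obtain ⟨C, hC, h1⟩ := hF.ms e he
    obtain ⟨D, hD, h2⟩ := hG.ms e he
    refine ⟨2 * (C + D), by positivity, fun K hK => ?_⟩
    have hKK : -K ≤ K := by linarith
    obtain ⟨C', -, h1'⟩ := hF.sup
    obtain ⟨D', -, h2'⟩ := hG.sup
    have i0 := sq_intervalIntegrable (F := fun κ => F κ + G κ) (hF.meas.add hG.meas)
      (C := C' + D') (r := 3 / 8) (by norm_num) (fun κ => by
        rw [add_mul]
        exact (norm_add_le _ _).trans (add_le_add (h1' κ) (h2' κ))) (-K) K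
    have h3 : ∫ κ in (-K)..K, ‖F κ + G κ‖ ^ 2 ≤
        ∫ κ in (-K)..K, 2 * (‖F κ‖ ^ 2 + ‖G κ‖ ^ 2) := by
      refine intervalIntegral.integral_mono_on hKK i0
        (((hF.int _ _).add (hG.int _ _)).const_mul 2) fun κ _ => ?_
      have h4 := norm_add_le (F κ) (G κ)
      refine (pow_le_pow_left₀ (norm_nonneg _) h4 2).trans ?_
      nlinarith [sq_nonneg (‖F κ‖ - ‖G κ‖)]
    rw [intervalIntegral.integral_const_mul,
      intervalIntegral.integral_add (hF.int _ _) (hG.int _ _)] at h3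
    have h5 := h1 K hK
    have h6 := h2 K hK
    calc _ ≤ _ := h3
      _ ≤ 2 * (C * K ^ (1 + e) + D * K ^ (1 + e)) := by linarith
      _ = _ := by ring

theorem ZG.sum {ι : Type*} (S : Finset ι) {F : ι → ℝ → ℂ} (h : ∀ i ∈ S, ZG (F i)) :
    ZG fun κ => ∑ i ∈ S, F i κ := by
  classical
  induction S using Finset.induction_on with
  | empty => simpa using ZG.zero
  | insert a S ha ih =>
    simp only [sum_insert ha]
    exact (h a (mem_insert_self a S)).add (ih fun i hi => h i (mem_insert_of_mem hi))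

theorem ZG.bdd_mul {F g : ℝ → ℂ} (hF : ZG F) (hg : Measurable g) {B : ℝ}
    (h : ∀ κ, ‖g κ‖ ≤ B) : ZG fun κ => g κ * F κ where
  meas := hg.mul hF.meas
  sup := by
    have hB : 0 ≤ B := (norm_nonneg _).trans (h 0)
    obtain ⟨C, hC, h1⟩ := hF.sup
    refine ⟨B * C, by positivity, fun κ => ?_⟩
    rw [norm_mul, mul_assoc]
    exact mul_le_mul (h κ) (h1 κ) (norm_nonneg _) hB
  ms e he := by
    have hB : 0 ≤ B := (norm_nonneg _).trans (h 0)
    obtain ⟨C, hC, h1⟩ := hF.ms e he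
    refine ⟨B ^ 2 * C, by positivity, fun K hK => ?_⟩
    have hKK : -K ≤ K := by linarith
    obtain ⟨C', hC', h1'⟩ := hF.sup
    have i0 := sq_intervalIntegrable (F := fun κ => g κ * F κ) (hg.mul hF.meas)
      (C := B * C') (r := 3 / 8) (by norm_num) (fun κ => by
        rw [norm_mul, mul_assoc]
        exact mul_le_mul (h κ) (h1' κ) (norm_nonneg _) hB) (-K) K
    have h3 : ∫ κ in (-K)..K, ‖g κ * F κ‖ ^ 2 ≤ ∫ κ in (-K)..K, B ^ 2 * ‖F κ‖ ^ 2 := by
      refine intervalIntegral.integral_mono_on hKK i0 ((hF.int _ _).const_mul _) fun κ _ => ?_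
      rw [norm_mul, mul_pow]
      exact mul_le_mul_of_nonneg_right (pow_le_pow_left₀ (norm_nonneg _) (h κ) 2) (by positivity)
    rw [intervalIntegral.integral_const_mul] at h3
    calc _ ≤ _ := h3
      _ ≤ B ^ 2 * (C * K ^ (1 + e)) := mul_le_mul_of_nonneg_left (h1 K hK) (by positivity)
      _ = _ := by ring

theorem ZG.const_mul {F : ℝ → ℂ} (hF : ZG F) (c : ℂ) : ZG fun κ => c * F κ :=
  hF.bdd_mul (g := fun _ => c) measurable_const (B := ‖c‖) fun _ => le_rfl

theorem ZE.add {F G : ℝ → ℂ} (hF : ZE F) (hG : ZE G) : ZE fun κ => F κ + G κ where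
  meas := hF.meas.add hG.meas
  sup e he := by
    obtain ⟨C, hC, h1⟩ := hF.sup e he
    obtain ⟨D, hD, h2⟩ := hG.sup e he
    refine ⟨C + D, by positivity, fun κ => ?_⟩
    rw [add_mul]
    exact (norm_add_le _ _).trans (add_le_add (h1 κ) (h2 κ))

theorem ZE.zero : ZE fun _ => 0 where
  meas := measurable_const
  sup e _ := ⟨0, le_rfl, fun κ => by simp⟩

theorem ZE.sum {ι : Type*} (S : Finset ι) {F : ι → ℝ → ℂ} (h : ∀ i ∈ S, ZE (F i)) :
    ZE fun κ => ∑ i ∈ S, F i κ := by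
  classical
  induction S using Finset.induction_on with
  | empty => simpa using ZE.zero
  | insert a S ha ih =>
    simp only [sum_insert ha]
    exact (h a (mem_insert_self a S)).add (ih fun i hi => h i (mem_insert_of_mem hi))

theorem ZE.const_mul {F : ℝ → ℂ} (hF : ZE F) (c : ℂ) : ZE fun κ => c * F κ where
  meas := hF.meas.const_mul c
  sup e he := by
    obtain ⟨C, hC, h1⟩ := hF.sup e he
    refine ⟨‖c‖ * C, by positivity, fun κ => ?_⟩
    rw [norm_mul, mul_assoc]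
    exact mul_le_mul_of_nonneg_left (h1 κ) (norm_nonneg _)

/-- a bound by a power of the logarithm off one point is enough -/
theorem ZE.of_log {g : ℝ → ℂ} (hg : Measurable g) {C : ℝ} (n : ℕ)
    (h : ∀ κ : ℝ, κ ≠ 0 → ‖g κ‖ ≤ C * Real.log (|κ| + 2) ^ n) : ZE g where
  meas := hg
  sup e he := by
    have hpos : 0 < e / (n + 1) := by positivity
    have hlog : ∀ κ : ℝ, Real.log (|κ| + 2) ^ n ≤
        ((n + 1) / e * 2 ^ (e / (n + 1))) ^ n * (1 + |κ|) ^ e := by
      intro κ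
      have hk := abs_nonneg κ
      have h1 : Real.log (|κ| + 2) ≤ (|κ| + 2) ^ (e / (n + 1)) / (e / (n + 1)) :=
        Real.log_le_rpow_div (by positivity) hpos
      have h0 : 0 ≤ Real.log (|κ| + 2) := Real.log_nonneg (by linarith)
      have h2 : (|κ| + 2) ^ (e / (n + 1)) ≤ 2 ^ (e / (n + 1)) * (1 + |κ|) ^ (e / (n + 1)) := by
        rw [← Real.mul_rpow (by norm_num) (by positivity)]
        exact Real.rpow_le_rpow (by positivity) (by linarith) hpos.le
      have h3 : Real.log (|κ| + 2) ≤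
          ((n + 1) / e * 2 ^ (e / (n + 1))) * (1 + |κ|) ^ (e / (n + 1)) := by
        refine h1.trans ?_
        calc (|κ| + 2) ^ (e / (n + 1)) / (e / (n + 1))
            ≤ (2 ^ (e / (n + 1)) * (1 + |κ|) ^ (e / (n + 1))) / (e / (n + 1)) := by gcongr
          _ = _ := by field_simp
      refine (pow_le_pow_left₀ h0 h3 n).trans ?_
      rw [mul_pow]
      refine mul_le_mul_of_nonneg_left ?_ (by positivity)
      rw [← Real.rpow_natCast, ← Real.rpow_mul (by positivity)]
      refine Real.rpow_le_rpow_of_exponent_le (by linarith) ?_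
      rw [div_mul_eq_mul_div, div_le_iff₀ (by positivity)]
      nlinarith
    refine ⟨|C| * ((n + 1) / e * 2 ^ (e / (n + 1))) ^ n + ‖g 0‖, by positivity, fun κ => ?_⟩
    have hk := abs_nonneg κ
    have hone : 1 ≤ (1 + |κ|) ^ e := Real.one_le_rpow (by linarith) he.le
    by_cases hκ : κ = 0
    · subst hκ
      have h4 : 0 ≤ |C| * ((n + 1) / e * 2 ^ (e / (n + 1))) ^ n := by positivity
      generalize |C| * ((n + 1) / e * 2 ^ (e / (n + 1))) ^ n = A at h4 ⊢
      generalize (1 + |(0 : ℝ)|) ^ e = B at hone ⊢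
      have h5 := norm_nonneg (g 0)
      generalize ‖g 0‖ = D at h5 ⊢
      nlinarith
    · have h1 := h κ hκ
      have h2 := hlog κ
      have h3 : 0 ≤ Real.log (|κ| + 2) ^ n := pow_nonneg (Real.log_nonneg (by linarith)) n
      calc ‖g κ‖ ≤ C * Real.log (|κ| + 2) ^ n := h1
        _ ≤ |C| * Real.log (|κ| + 2) ^ n := mul_le_mul_of_nonneg_right (le_abs_self C) h3
        _ ≤ |C| * (((n + 1) / e * 2 ^ (e / (n + 1))) ^ n * (1 + |κ|) ^ e) := by gcongr
        _ ≤ _ := by
          have : 0 ≤ ‖g 0‖ * (1 + |κ|) ^ e := by positivity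
          linarith

section per

variable {q : ℕ} [NeZero q]

theorem LF_half_meas (Φ : ZMod q → ℂ) :
    Measurable fun κ : ℝ => ZMod.LFunction Φ (1 / 2 + κ * I) :=
  (LFunction_half_cont Φ).measurable

/-- the product of two `L`-functions on the critical line and a small factor -/
theorem ZG.of_prod (Φ Ψ : ZMod q → ℂ) {g : ℝ → ℂ} (hg : ZE g) :
    ZG fun κ => g κ * (ZMod.LFunction Φ (1 / 2 + κ * I) * ZMod.LFunction Ψ (1 / 2 + κ * I)) where
  meas := hg.meas.mul ((LF_half_meas Φ).mul (LF_half_meas Ψ))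
  sup := by
    obtain ⟨C, hC, h1⟩ := hg.sup (1 / 96) (by norm_num)
    obtain ⟨D, hD, h2⟩ := subconvexity Φ (η := 1 / 96) (by norm_num)
    obtain ⟨E, hE, h3⟩ := subconvexity Ψ (η := 1 / 96) (by norm_num)
    refine ⟨C * (D * E), by positivity, fun κ => ?_⟩
    have hk : 1 ≤ 1 + |κ| := by linarith [abs_nonneg κ]
    have hk0 : 0 < 1 + |κ| := by linarith
    rw [norm_mul, norm_mul]
    calc _ ≤ (C * (1 + |κ|) ^ (1 / 96 : ℝ)) *
          ((D * (1 + |κ|) ^ (1 / 6 + 1 / 96 : ℝ)) * (E * (1 + |κ|) ^ (1 / 6 + 1 / 96 : ℝ))) := by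
          gcongr
          · exact h1 κ
          · exact h2 κ
          · exact h3 κ
      _ = C * (D * E) * ((1 + |κ|) ^ (1 / 96 : ℝ) *
          ((1 + |κ|) ^ (1 / 6 + 1 / 96 : ℝ) * (1 + |κ|) ^ (1 / 6 + 1 / 96 : ℝ))) := by ring
      _ ≤ C * (D * E) * (1 + |κ|) ^ (3 / 8 : ℝ) := by
          refine mul_le_mul_of_nonneg_left ?_ (by positivity)
          rw [← Real.rpow_add hk0, ← Real.rpow_add hk0]
          refine Real.rpow_le_rpow_of_exponent_le hk ?_
          norm_num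
  ms e he := by
    obtain ⟨C, hC, h1⟩ := hg.sup (e / 4) (by positivity)
    obtain ⟨D, hD, h2⟩ := fourth_moment Φ (ε := e / 2) (by positivity)
    obtain ⟨E, hE, h3⟩ := fourth_moment Ψ (ε := e / 2) (by positivity)
    refine ⟨C ^ 2 * 2 ^ (e / 2) * (D + E), by positivity, fun K hK => ?_⟩
    have hKK : -K ≤ K := by linarith
    have hK0 : 0 < K := by linarith
    have c1 := LFunction_half_cont Φ
    have c2 := LFunction_half_cont Ψ
    have i1 : IntervalIntegrable (fun κ : ℝ => ‖ZMod.LFunction Φ (1 / 2 + κ * I)‖ ^ 4)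
      volume (-K) K := (c1.norm.pow 4).intervalIntegrable _ _
    have i2 : IntervalIntegrable (fun κ : ℝ => ‖ZMod.LFunction Ψ (1 / 2 + κ * I)‖ ^ 4)
      volume (-K) K := (c2.norm.pow 4).intervalIntegrable _ _
    have hm : Measurable fun κ : ℝ =>
        g κ * (ZMod.LFunction Φ (1 / 2 + κ * I) * ZMod.LFunction Ψ (1 / 2 + κ * I)) :=
      hg.meas.mul ((LF_half_meas Φ).mul (LF_half_meas Ψ))
    have hpt : ∀ κ ∈ Set.Icc (-K) K,
        ‖g κ * (ZMod.LFunction Φ (1 / 2 + κ * I) * ZMod.LFunction Ψ (1 / 2 + κ * I))‖ ^ 2 ≤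
        C ^ 2 * (2 * K) ^ (e / 2) * (‖ZMod.LFunction Φ (1 / 2 + κ * I)‖ ^ 4 +
          ‖ZMod.LFunction Ψ (1 / 2 + κ * I)‖ ^ 4) := by
      intro κ hκ
      have hk : |κ| ≤ K := abs_le.2 hκ
      have hk0 := abs_nonneg κ
      have h4 : ‖g κ‖ ≤ C * (2 * K) ^ (e / 4) := by
        refine (h1 κ).trans ?_
        refine mul_le_mul_of_nonneg_left ?_ hC
        exact Real.rpow_le_rpow (by positivity) (by linarith) (by positivity)
      have h5 : ‖g κ‖ ^ 2 ≤ C ^ 2 * (2 * K) ^ (e / 2) := by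
        refine (pow_le_pow_left₀ (norm_nonneg _) h4 2).trans (le_of_eq ?_)
        rw [mul_pow, ← Real.rpow_natCast ((2 * K) ^ (e / 4)), ← Real.rpow_mul (by positivity)]
        congr 2
        push_cast
        ring
      rw [norm_mul, norm_mul, mul_pow]
      refine mul_le_mul h5 ?_ (by positivity) (by positivity)
      generalize ‖ZMod.LFunction Φ (1 / 2 + κ * I)‖ = a
      generalize ‖ZMod.LFunction Ψ (1 / 2 + κ * I)‖ = b
      nlinarith [sq_nonneg (a ^ 2 - b ^ 2), sq_nonneg (a ^ 2), sq_nonneg (b ^ 2)]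
    have i0 : IntervalIntegrable (fun κ : ℝ =>
        ‖g κ * (ZMod.LFunction Φ (1 / 2 + κ * I) * ZMod.LFunction Ψ (1 / 2 + κ * I))‖ ^ 2)
        volume (-K) K := by
      refine ((i1.add i2).const_mul (C ^ 2 * (2 * K) ^ (e / 2))).mono_fun'
        (hm.norm.pow_const 2).aestronglyMeasurable ?_
      rw [Set.uIoc_of_le hKK]
      refine (ae_restrict_iff' measurableSet_Ioc).2 (Filter.Eventually.of_forall fun κ hκ => ?_)
      refine le_trans (le_of_eq ?_) (hpt κ ⟨hκ.1.le, hκ.2⟩)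
      exact Real.norm_of_nonneg (by positivity)
    have h6 := intervalIntegral.integral_mono_on hKK i0
      ((i1.add i2).const_mul (C ^ 2 * (2 * K) ^ (e / 2))) hpt
    rw [intervalIntegral.integral_const_mul, intervalIntegral.integral_add i1 i2] at h6
    have h7 := h2 K hK
    have h8 := h3 K hK
    refine h6.trans ?_
    calc C ^ 2 * (2 * K) ^ (e / 2) * (_ + _)
        ≤ C ^ 2 * (2 * K) ^ (e / 2) * (D * K ^ (1 + e / 2) + E * K ^ (1 + e / 2)) := by gcongr
      _ = C ^ 2 * 2 ^ (e / 2) * (D + E) * (K ^ (e / 2) * K ^ (1 + e / 2)) := by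
          rw [Real.mul_rpow (by norm_num) hK0.le]
          ring
      _ = _ := by
          rw [← Real.rpow_add hK0]
          congr 2
          ring

/-- measurability of `L(1 + 2 i κ, χ)` -/
theorem L_one_meas (χ : DirichletCharacter ℂ q) (c : ℝ) :
    Measurable fun κ : ℝ => DirichletCharacter.LFunction χ (1 + c * κ * I) := by
  by_cases hc : c = 0
  · subst hc
    simp
  refine measurable_of_continuousOn_compl_singleton 0 fun κ hκ => ContinuousAt.continuousWithinAt ?_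
  have hne : (1 + (c : ℂ) * κ * I) ≠ 1 := by
    intro h
    have := congrArg Complex.im h
    simp at this
    exact this.elim hc hκ
  exact ContinuousAt.comp (f := fun κ : ℝ => 1 + (c : ℂ) * κ * I)
    (DirichletCharacter.differentiableAt_LFunction χ _ (Or.inl hne)).continuousAt (by fun_prop)

end per

end Pool.Agent.ZP
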