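import Pool.Agent.Lib_helper84.JO.SETop
import Pool.Agent.Lib_helper84.JO.E6Defs
import Pool.Agent.Lib_helper97.JO.LLOW
import Pool.Agent.Lib_helper50.ZP.ZG

/-!
# Project JO, part ZF: the bounds for the zeta factors `Zf`
-/

set_option autoImplicit false

namespace Pool.Agent.ZP

open Complex MeasureTheory Filter Topology
open Pool.Agent.JO
open scoped ComplexConjugate

theorem ZE.comp_neg {g : ℝ → ℂ} (h : ZE g) : ZE fun κ => g (-κ) where
  meas := h.meas.comp measurable_neg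
  sup e he := by
    obtain ⟨C, hC, h1⟩ := h.sup e he
    refine ⟨C, hC, fun κ => ?_⟩
    have := h1 (-κ)
    rwa [abs_neg] at this

theorem ZG.comp_neg {F : ℝ → ℂ} (h : ZG F) : ZG fun κ => F (-κ) where
  meas := h.meas.comp measurable_neg
  sup := by
    obtain ⟨C, hC, h1⟩ := h.sup
    refine ⟨C, hC, fun κ => ?_⟩
    have := h1 (-κ)
    rwa [abs_neg] at this
  ms e he := by
    obtain ⟨C, hC, h1⟩ := h.ms e he
    refine ⟨C, hC, fun K hK => ?_⟩
    have h2 := intervalIntegral.integral_comp_neg (a := -K) (b := K) (fun κ => ‖F κ‖ ^ 2)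
    rw [neg_neg] at h2
    rw [h2]
    exact h1 K hK

theorem ZG.conj {F : ℝ → ℂ} (h : ZG F) : ZG fun κ => starRingEnd ℂ (F κ) where
  meas := Complex.continuous_conj.measurable.comp h.meas
  sup := by
    obtain ⟨C, hC, h1⟩ := h.sup
    refine ⟨C, hC, fun κ => ?_⟩
    rw [RCLike.norm_conj]
    exact h1 κ
  ms e he := by
    obtain ⟨C, hC, h1⟩ := h.ms e he
    refine ⟨C, hC, fun K hK => ?_⟩
    simp only [RCLike.norm_conj]
    exact h1 K hK

section

variable {N : ℕ} [NeZero N]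

theorem iL_of_ne (χ : DirichletCharacter ℂ N) {u : ℂ} (hu : u ≠ 1) :
    iL χ u = (DirichletCharacter.LFunction χ u)⁻¹ := by
  unfold iL
  split_ifs with h
  · subst h
    rw [DirichletCharacter.LFunctionTrivChar₁, Function.update_of_ne hu]
    have h1 : u - 1 ≠ 0 := sub_ne_zero.2 hu
    rw [div_mul_eq_div_div, div_self h1, one_div]
  · rfl

theorem iL_meas (χ : DirichletCharacter ℂ N) :
    Measurable fun κ : ℝ => iL χ (1 + 2 * κ * I) := by
  unfold iL
  split_ifs with h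
  · refine Measurable.div (by fun_prop) ?_
    exact ((DirichletCharacter.differentiable_LFunctionTrivChar₁ N).continuous.comp
      (by fun_prop : Continuous fun κ : ℝ => (1 + 2 * κ * I : ℂ))).measurable
  · refine Measurable.inv ?_
    exact ((DirichletCharacter.differentiable_LFunction h).continuous.comp
      (by fun_prop : Continuous fun κ : ℝ => (1 + 2 * κ * I : ℂ))).measurable

theorem iL_ZE (χ : DirichletCharacter ℂ N) : ZE fun κ : ℝ => iL χ (1 + 2 * κ * I) := by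
  obtain ⟨C, hC, h⟩ := L_one_inv N χ
  refine ZE.of_log (iL_meas χ) (C := C * 2 ^ 8) 8 fun κ hκ => ?_
  have hne : (1 + 2 * (κ : ℂ) * I) ≠ 1 := by
    intro h1
    have := congrArg Complex.im h1
    simp at this
    exact hκ this
  rw [iL_of_ne χ hne]
  have h1 := h (2 * κ) (by simpa using hκ)
  have e : (1 : ℂ) + ((2 * κ : ℝ) : ℂ) * I = 1 + 2 * κ * I := by push_cast; ring
  rw [e] at h1
  refine h1.trans ?_
  have hk := abs_nonneg κ
  have h2 : Real.log (|2 * κ| + 2) ≤ 2 * Real.log (|κ| + 2) := by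
    rw [abs_mul, abs_two]
    have h3 : 2 * |κ| + 2 ≤ (|κ| + 2) ^ 2 := by nlinarith
    have h4 := Real.log_le_log (by positivity) h3
    rwa [Real.log_pow, Nat.cast_ofNat] at h4
  have h5 : 0 ≤ Real.log (|2 * κ| + 2) :=
    Real.log_nonneg (by linarith [abs_nonneg (2 * κ)])
  calc C * Real.log (|2 * κ| + 2) ^ 8 ≤ C * (2 * Real.log (|κ| + 2)) ^ 8 := by gcongr
    _ = _ := by ring

theorem Mz_ZE (δ : (ZMod N)ˣ) : ZE fun κ : ℝ => Mz δ (1 + 2 * κ * I) := by
  unfold Mz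
  exact (ZE.sum _ fun χ _ => (iL_ZE χ).const_mul _).const_mul _

theorem ZN_ZG (v : ZMod N × ZMod N) (σ : ℝ) : ZG fun κ : ℝ => ZN v σ (1 / 2 + κ * I) := by
  have e : (fun κ : ℝ => ZN v σ (1 / 2 + κ * I)) = fun κ : ℝ => ∑ δ : (ZMod N)ˣ,
      (Mz δ (1 + 2 * κ * I) *
        (Hz (((δ⁻¹ : (ZMod N)ˣ) : ZMod N) * v.2) (1 / 2 + κ * I) *
        Hz (if σ = 1 then ((δ⁻¹ : (ZMod N)ˣ) : ZMod N) * v.1 else
          -(((δ⁻¹ : (ZMod N)ˣ) : ZMod N) * v.1)) (1 / 2 + κ * I)) +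
      Mz δ (1 + 2 * κ * I) * (Hz (-(((δ⁻¹ : (ZMod N)ˣ) : ZMod N) * v.2)) (1 / 2 + κ * I) *
        Hz (if σ = 1 then -(((δ⁻¹ : (ZMod N)ˣ) : ZMod N) * v.1) else
          ((δ⁻¹ : (ZMod N)ˣ) : ZMod N) * v.1) (1 / 2 + κ * I))) := by
    funext κ
    unfold ZN
    refine Finset.sum_congr rfl fun δ _ => ?_
    have e2 : (2 : ℂ) * (1 / 2 + κ * I) = 1 + 2 * κ * I := by ring
    rw [e2, mul_add]
  rw [e]
  refine ZG.sum _ fun δ _ => ?_
  exact (ZG.of_prod _ _ (Mz_ZE δ)).add (ZG.of_prod _ _ (Mz_ZE δ))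

theorem Zf_ZG (v : ZMod N × ZMod N) (σ : ℝ) : ZG fun κ : ℝ => Zf N v σ κ := by
  have h1 := (ZN_ZG v σ).comp_neg.conj
  have h2 : ZG fun κ : ℝ => ((1 / (8 * Real.pi) : ℝ) * (2 : ℂ) ^ (-((1 / 2 : ℂ) + κ * I))) *
      starRingEnd ℂ (ZN v σ (1 / 2 + ((-κ : ℝ) : ℂ) * I)) := by
    refine h1.bdd_mul ?_ (B := (1 / (8 * Real.pi))) fun κ => ?_
    · refine Measurable.const_mul ?_ _
      refine Continuous.measurable ?_
      refine Continuous.const_cpow (by fun_prop) (Or.inl (by norm_num))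
    · rw [norm_mul, Complex.norm_real, Real.norm_of_nonneg (by positivity)]
      have h3 : ‖(2 : ℂ) ^ (-((1 / 2 : ℂ) + κ * I))‖ ≤ 1 := by
        have h4 := Complex.norm_cpow_eq_rpow_re_of_pos (x := 2) (by norm_num)
          (-((1 / 2 : ℂ) + κ * I))
        rw [show ((2 : ℝ) : ℂ) = 2 by norm_num] at h4
        rw [h4]
        refine Real.rpow_le_one_of_one_le_of_nonpos (by norm_num) ?_
        simp
      calc _ ≤ 1 / (8 * Real.pi) * 1 := by gcongr
        _ = _ := mul_one _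
  have e : (fun κ : ℝ => Zf N v σ κ) = fun κ : ℝ =>
      ((1 / (8 * Real.pi) : ℝ) * (2 : ℂ) ^ (-((1 / 2 : ℂ) + κ * I))) *
      starRingEnd ℂ (ZN v σ (1 / 2 + ((-κ : ℝ) : ℂ) * I)) := by
    funext κ
    unfold Zf
    have e2 : (1 / 2 : ℂ) + ((-κ : ℝ) : ℂ) * I = 1 / 2 - κ * I := by push_cast; ring
    rw [e2]
  rw [e]
  exact h2

theorem Zf_sigma (v : ZMod N × ZMod N) {σ : ℝ} (hσ : σ ≠ 1) (κ : ℝ) :
    Zf N v σ κ = Zf N v 0 κ := by
  unfold Zf ZN
  simp only [if_neg hσ, if_neg (zero_ne_one : (0 : ℝ) ≠ 1)]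

end

/-- PART ZF: the bounds for the zeta factors -/
theorem zfB (N : ℕ) [NeZero N] : ZfB (Zf N) where
  meas v σ := (Zf_ZG v σ).meas
  sup := by
    classical
    choose C hC h using fun (v : ZMod N × ZMod N) (σ : ℝ) => (Zf_ZG v σ).sup
    refine ⟨∑ v, (C v 1 + C v 0), 1 / 8, by norm_num, fun v σ κ => ?_⟩
    have hle : C v 1 + C v 0 ≤ ∑ v, (C v 1 + C v 0) :=
      Finset.single_le_sum (f := fun v => C v 1 + C v 0)
        (fun w _ => add_nonneg (hC w 1) (hC w 0)) (Finset.mem_univ v)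
    have hp : 0 ≤ (1 + |κ|) ^ (3 / 8 : ℝ) := by positivity
    have e : (1 / 2 - 1 / 8 : ℝ) = 3 / 8 := by norm_num
    rw [e]
    by_cases hσ : σ = 1
    · subst hσ
      refine (h v 1 κ).trans (mul_le_mul_of_nonneg_right ?_ hp)
      linarith [hC v 0]
    · rw [Zf_sigma v hσ]
      refine (h v 0 κ).trans (mul_le_mul_of_nonneg_right ?_ hp)
      linarith [hC v 1]
  ms e he := by
    classical
    choose C hC h using fun (v : ZMod N × ZMod N) (σ : ℝ) => (Zf_ZG v σ).ms e he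
    refine ⟨∑ v, (C v 1 + C v 0), fun v σ K hK => ?_⟩
    have hle : C v 1 + C v 0 ≤ ∑ v, (C v 1 + C v 0) :=
      Finset.single_le_sum (f := fun v => C v 1 + C v 0)
        (fun w _ => add_nonneg (hC w 1) (hC w 0)) (Finset.mem_univ v)
    have hp : 0 ≤ K ^ (1 + e) := by positivity
    by_cases hσ : σ = 1
    · subst hσ
      refine (h v 1 K hK).trans (mul_le_mul_of_nonneg_right ?_ hp)
      linarith [hC v 0]
    · simp only [Zf_sigma v hσ]
      refine (h v 0 K hK).trans (mul_le_mul_of_nonneg_right ?_ hp)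
      linarith [hC v 1]

end Pool.Agent.ZP
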